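import Pool.Agent.H92T.Cnt
import Pool.Agent.H92G.Fac
import Pool.Agent.H92P.Up

/-!
# Beilinson's conjecture for pairs of forms of weight one over abelian extensions of imaginary quadratic fields

`E_i : y² = x³ + a_i x + b_i`, `i = 1, …, m`, are elliptic curves over `ℚ` with the newforms `f_i`, and `K` is an imaginary
quadratic field of class number one in which the prime divisors of the `2(4a_i³ + 27b_i²)` are unramified.  The `M_i` are
finite abelian extensions of `K`, of squarefree conductors prime to `2(4a_i³ + 27b_i²)`: `M_i` is the class field of a finite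
group `Ψ_i` of characters of `K`.  Suppose that `L(E_i/M_i, 1) ≠ 0`.

Let `p` be a prime, `𝔪` a maximal ideal above `p` of the ring of the algebraic integers, `e` and `d` numbers and `S` a finite
set of places of `K`.  A place `v` of `K`, with `a_v = N(v) + 1 - #E_i(𝓞/v)`, is admissible if it is prime to
`2(4a_i³ + 27b_i²)` and to the conductors of the `ψ ∈ Ψ_i` and not in `S`, and if `a_v - ψ(v) - conj ψ(v)` is not in `𝔪` for
all `i` and all `ψ ∈ Ψ_i`.  (If `N(v) ≡ 1 mod p` this says that `p` does not divide the numbers of points of `E_i` over the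
residue fields of the places of `M_i` above `v`.)  The group `𝒢` is any group, finite or infinite, of characters of `K` of
exponent `p^e` whose conductors are products of different admissible places.

Theorem.  (1) There are bounds `B(0) < B(1) < …`, which depend only on the `E_i`, `K`, `M_i`, `𝔪`, `S`, `e` and `d`, such that
for every group `Δ` of at most `d` automorphisms of `𝒢`, from every sequence `χ_0, χ_1, …` in `𝒢` one gets elements of a
`Δ`-stable subgroup `ℋ`, of characters which are one at the places in `S`, as products `∏_{j ∈ I_k} χ_j` over certain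
nonempty sets `I_k` of indices in `[B(k), B(k + 1))`, `k ≥ 0`, with the following property.  For ALL pairs `(g, h)` of forms
of weight one, one of them a cusp form, whose Artin representations are trivial on the Galois group of a Galois
extension `F ⊇ K` of `ℚ`, which is a class field of characters `χ ψ` with `χ ∈ ℋ`, `ψ ∈ Ψ_i` (for instance the
compositum of `M_i` and of a class field of characters in `ℋ`, if it is Galois over `ℚ`), `L(f_i ⊗ g ⊗ h, s)` is meromorphic,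
analytic and not zero at `s = 1`.  If `p ≠ 2`, `F ⊇ M_i`, the `p`-Selmer group of `E_i/M_i` is trivial and the places above
`2p(4a_i³ + 27b_i²)` of `M_i` split completely in `F` (as they do if `S` is the set of the places of `K` below them), then
`E_i(F)` is finite and Beilinson's equality is true for `(f_i, g, h)`,

`ord_{s = 1} L(f_i ⊗ g ⊗ h, s) = dim Hom(V_gh, E_i(F) ⊗ ℂ) = 0`.

(2), (3) The group `ℋ` can be chosen infinite if `𝒢` is infinite, and of order at least `t` if `𝒢` has more than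
`p^(e B(t))` elements.
(4) If `𝒢` and the `Ψ_i` are stable under complex conjugation, at most `2^B(1)` translates cover `𝒢 × 𝒢` of the
set of the good pairs `(χ, χ')`: those for which `χ` and `χ'` are one at the places in `S` and for which, for all `i` and ALL
`ψ, ψ' ∈ Ψ_i`, the same is true of the theta series `g` of `χ ψ` and `h` of `χ' ψ'` (if these are cusp forms).  So if `𝒢`
is finite at least `2^(-B(1)) (#𝒢)²` pairs are good; and (5) for a `C` and all `X` the number of the pairs in `𝒢 × 𝒢`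
with conductors of norm at most `X` is at most `C` times the number of the good pairs with conductors of norm at
most `C X`.

Here the representations of `Gal(F/ℚ)` are those of dihedral forms whose orders involve `p` and the degree of `M_i/K`.  The
library and `ThetaPairsProportion` have characters of `2`-power order, `M_i = K` and the prime `2`
(`AbelianTwoPairs`, `DihedralTwoPower`), without odd primes, base fields or local conditions.

The proof.  The nonvanishing of the `L(E_i ⊗ χ ψ, 1)`, for all `ψ ∈ Ψ_i`, is that of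
`Pool.Agent.Results.MP_50bb2e_nt.BianchiAbelianExtensions`, by a theorem of Ramsey type for polynomial maps to finite
groups.  For (4) it is applied to the group `𝒢 × 𝒢` with the characters `χ χ'` and the endomorphisms which take
`(χ, χ')` to `(χ, conj χ')`, `(χ, 1)` and `(χ', 1)`.  The `L`-function of `f ⊗ g ⊗ h` is, up to finitely many Euler factors, the
product of two functions `L(E ⊗ ω, s)` over `K` (`Pool.Agent.H92T.an_mainG`, `pair_mainG`, after helper15's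
`K4H15.BY.an_main'`).  The finiteness of `E_i(F)` is the descent `Pool.Agent.H92P.fin_upP` of `BianchiRamseyOdd`, over the
base field `M_i`.
-/

set_option autoImplicit false

open NumberField IsDedekindDomain Matrix WeierstrassCurve Filter Topology
open scoped TensorProduct Kronecker

namespace Pool.Agent.Results.MP_60ff09_nt.PairsOverAbelianBases

/-- `K` is an imaginary quadratic field, `σ` is one of its two embeddings in `ℂ`, and `δ` generates the
different of `K`: an `x ∈ K` is in `𝓞` if and only if `Tr(x y / δ) ∈ ℤ` for all `y ∈ 𝓞`. -/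
structure IsFieldData (K : Type) [Field K] [NumberField K] (σ : K →+* ℂ) (δ : K) : Prop where
  quadratic : Module.finrank ℚ K = 2
  imaginary : ∃ x, (starRingEnd ℂ) (σ x) ≠ σ x
  different : ∀ x : K, (∃ a : 𝓞 K, (a : K) = x) ↔
    ∀ y : 𝓞 K, ∃ m : ℤ, Algebra.trace ℚ K (x * y / δ) = m

/-- `h(y) = ∫_0^∞ exp(-1/v - y v) dv = 2 y^(-1/2) K₁(2 √y)`, with the Bessel function `K₁`. -/
noncomputable def bessel (y : ℝ) : ℝ := ∫ v in Set.Ioi (0 : ℝ), Real.exp (-(1 / v) - y * v)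

/-- The additive character `e(z) = exp(2πi (z/δ + conj (z/δ)))` of `ℂ`, trivial on `𝓞`. -/
noncomputable def addChar (δ z : ℂ) : ℂ :=
  Complex.exp (2 * Real.pi * Complex.I * (z / δ + (starRingEnd ℂ) (z / δ)))

/-- The denominator `|c z + d|² + |c|² t²` of the action of the matrix `(a, b; c, d)` on the hyperbolic
space `{(z, t) : z ∈ ℂ, t > 0}`. -/
noncomputable def den (c d z : ℂ) (t : ℝ) : ℝ := ‖c * z + d‖ ^ 2 + ‖c‖ ^ 2 * t ^ 2

/-- The first coordinate `((a z + b) conj (c z + d) + a conj(c) t²) / (|c z + d|² + |c|² t²)` of the image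
of `(z, t)` under the matrix `(a, b; c, d)`. -/
noncomputable def actZ (a b c d z : ℂ) (t : ℝ) : ℂ :=
  ((a * z + b) * (starRingEnd ℂ) (c * z + d) + a * (starRingEnd ℂ) c * (t : ℂ) ^ 2) /
    (den c d z t : ℂ)

/-- The second coordinate, for a matrix of determinant one; in general it is `|ad - bc|` times this. -/
noncomputable def actT (c d z : ℂ) (t : ℝ) : ℝ := t / den c d z t

/-- `V_j(t, q) = α^j + β^j` for `α + β = t`, `α β = q`. -/
noncomputable def lucas (t q : ℂ) : ℕ → ℂ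
  | 0 => 2
  | 1 => t
  | (j + 2) => t * lucas t q (j + 1) - q * lucas t q j

section field
variable {K : Type} [Field K] [NumberField K]

/-- The function `Φ(z, t) = ∑_{x ∈ 𝓞} c((x)) t² h(N(x) (2πt/|δ|)²) e(x z)
  = (|δ|/π) ∑_{x ≠ 0} (c((x))/|x|) t K₁(4π|x|t/|δ|) e(x z)` on the hyperbolic space, with the coefficients `c`.
Up to a constant factor it is the primitive, zero at the cusp `∞`, of the harmonic differential of the
form of weight two with the Fourier coefficients `c`: its derivative by `t` is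
`-4 ∑_{x ≠ 0} c((x)) t K₀(4π|x|t/|δ|) e(x z)`. -/
noncomputable def primitive (σ : K →+* ℂ) (δ : K) (c : Ideal (𝓞 K) → ℂ) (z : ℂ) (t : ℝ) : ℂ :=
  ∑' x : 𝓞 K, c (Ideal.span {x}) * ((t ^ 2 * bessel (Ideal.absNorm (Ideal.span {x}) *
    (2 * Real.pi * t / ‖σ δ‖) ^ 2) : ℝ) : ℂ) * addChar (σ δ) (σ x * z)

/-- The numbers `c(I)` are the Hecke eigenvalues of a Bianchi newform `f` of weight two, level `(n)` and
trivial character over `K`: they satisfy `c(𝓞) = 1`, the (trivial) bound `c(I) = O(N(I))` and the Hecke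
relations `c(v I) = c(v) c(I)` for `v ∤ I`, `c(v² I) = c(v) c(v I) - N(v) c(I)` for the primes `v ∤ n`, and
`c(v I) = c(v) c(I)` for `v ∣ n`; the differential `dΦ` of the function `Φ` with the coefficients `c` is
invariant under `Γ₀(n)`, that is, `Φ(γ P) - Φ(P)` is a constant for every `γ ∈ Γ₀(n)`; and `dΦ` is an
eigenform, with the eigenvalue `±1`, of the Fricke involution `W = (0, -1; n, 0)`. -/
structure IsNewform (σ : K →+* ℂ) (δ : K) (n : 𝓞 K) (c : Ideal (𝓞 K) → ℂ) : Prop where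
  level : n ≠ 0
  zero : c ⊥ = 0
  one : c ⊤ = 1
  bound : ∃ C : ℝ, ∀ I, ‖c I‖ ≤ C * Ideal.absNorm I
  good : ∀ v : HeightOneSpectrum (𝓞 K), n ∉ v.asIdeal → ∀ I,
    (¬ v.asIdeal ∣ I → c (v.asIdeal * I) = c v.asIdeal * c I) ∧
    c (v.asIdeal * (v.asIdeal * I)) = c v.asIdeal * c (v.asIdeal * I) -
      Ideal.absNorm v.asIdeal * c I
  bad : ∀ v : HeightOneSpectrum (𝓞 K), n ∈ v.asIdeal → ∀ I,
    c (v.asIdeal * I) = c v.asIdeal * c I
  invariant : ∃ κ : SpecialLinearGroup (Fin 2) (𝓞 K) → ℂ,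
    ∀ γ : SpecialLinearGroup (Fin 2) (𝓞 K), n ∣ γ.1 1 0 → ∀ (z : ℂ) (t : ℝ), 0 < t →
      primitive σ δ c (actZ (σ (γ.1 0 0)) (σ (γ.1 0 1)) (σ (γ.1 1 0)) (σ (γ.1 1 1)) z t)
        (actT (σ (γ.1 1 0)) (σ (γ.1 1 1)) z t) = primitive σ δ c z t + κ γ
  fricke : ∃ w κ : ℂ, w * w = 1 ∧ ∀ (z : ℂ) (t : ℝ), 0 < t →
    primitive σ δ c (actZ 0 (-1) (σ n) 0 z t) (‖σ n‖ * actT (σ n) 0 z t) =
      -w * primitive σ δ c z t + κ

/-- The number of the affine points of `y² = x³ + a x + b` over the residue field of `v`. -/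
noncomputable def points (a b : 𝓞 K) (v : HeightOneSpectrum (𝓞 K)) : ℕ :=
  Nat.card {x : (𝓞 K ⧸ v.asIdeal) × (𝓞 K ⧸ v.asIdeal) //
    x.2 ^ 2 = x.1 ^ 3 + (Ideal.Quotient.mk v.asIdeal a) * x.1 + (Ideal.Quotient.mk v.asIdeal b)}

/-- `f` is the newform of `E : y² = x³ + a x + b`: for `v ∤ 2(4a³ + 27b²)` (so that `E` has good reduction at `v`)
the level is prime to `v` and `c(v) = N(v) + 1 - #E(𝓞/v)`. -/
def IsNewformOf (a b n : 𝓞 K) (c : Ideal (𝓞 K) → ℂ) : Prop :=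
  ∀ v : HeightOneSpectrum (𝓞 K), 2 * (4 * a ^ 3 + 27 * b ^ 2) ∉ v.asIdeal →
    n ∉ v.asIdeal ∧ c v.asIdeal = (Ideal.absNorm v.asIdeal : ℂ) - points a b v

/-- `χ` is a character of `K` of finite order and of conductor `∏_{v ∈ T} v`, as a function on `𝓞` (`K` has class
number one): a primitive character modulo the product of the `v ∈ T`, trivial on the units, and zero on the `x` which
are not prime to the conductor. -/
structure IsCharacter (T : Finset (HeightOneSpectrum (𝓞 K))) (χ : 𝓞 K → ℂ) : Prop where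
  one : χ 1 = 1
  mul : ∀ x y, χ (x * y) = χ x * χ y
  zero : ∀ x, χ x = 0 ↔ ∃ v ∈ T, x ∈ v.asIdeal
  periodic : ∀ x y, (∀ v ∈ T, x - y ∈ v.asIdeal) → χ x = χ y
  units : ∀ u, IsUnit u → χ u = 1
  primitive : ∀ v ∈ T, ∃ x, (∀ v' ∈ T, v' ≠ v → x - 1 ∈ v'.asIdeal) ∧ χ x ≠ 0 ∧ χ x ≠ 1
  order : ∃ k : ℕ, 0 < k ∧ ∀ x, χ x ≠ 0 → χ x ^ k = 1

/-- `χ(v)` is the value of `χ` at a generator of `v`. -/
noncomputable def at' (χ : 𝓞 K → ℂ) (v : HeightOneSpectrum (𝓞 K)) [IsPrincipalIdealRing (𝓞 K)] : ℂ :=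
  χ (Submodule.IsPrincipal.generator v.asIdeal)

/-- The norm of the conductor `∏_{v ∈ T} v`. -/
noncomputable def conductorNorm (T : Finset (HeightOneSpectrum (𝓞 K))) : ℕ :=
  ∏ v ∈ T, Ideal.absNorm v.asIdeal

open Classical in
/-- The Bianchi form with the Hecke eigenvalues `c` is the base change to `K` of the newform with the Fourier
coefficients `A` of level `N`: `c(v) = A(p)` if `N(v) = p`, and if `N(v) = p²` then `c(v) = A(p)² - 2p`, or
`A(p)²` if `p ∣ N`. -/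
def IsBaseChange (N : ℕ) (A : ℕ → ℂ) (c : Ideal (𝓞 K) → ℂ) : Prop :=
  ∀ p : ℕ, p.Prime → ∀ v : HeightOneSpectrum (𝓞 K), (p : 𝓞 K) ∈ v.asIdeal →
    (Ideal.absNorm v.asIdeal = p → c v.asIdeal = A p) ∧
    (Ideal.absNorm v.asIdeal = p ^ 2 → c v.asIdeal = A p ^ 2 - (if p ∣ N then 0 else 2 * (p : ℂ)))

variable (K) in
/-- The prime divisors of `2(4a³ + 27b²)` are unramified in `K`. -/
def Unramified (a b : ℤ) : Prop :=
  ∀ p : ℕ, p.Prime → (p : ℤ) ∣ 2 * (4 * a ^ 3 + 27 * b ^ 2) → ∀ v : HeightOneSpectrum (𝓞 K),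
    (p : 𝓞 K) ∈ v.asIdeal → (p : 𝓞 K) ∉ v.asIdeal ^ 2

variable [IsPrincipalIdealRing (𝓞 K)]

section extension

variable (F : Type) [Field F] [NumberField F] [Algebra K F]

/-- The places `u` of `F` above `v`. -/
def Above (v : HeightOneSpectrum (𝓞 K)) : Type :=
  {u : HeightOneSpectrum (𝓞 F) // u.asIdeal.comap (algebraMap (𝓞 K) (𝓞 F)) = v.asIdeal}

open Classical in
/-- The Euler factor of `L(f/F ⊗ χ, s)` at a place `u` of `F` of norm `Q = N(v)^r` above `v`: with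
`(1 - α N(v)^(-s)) (1 - β N(v)^(-s))` the polynomial of `f` at `v` it is
`((1 - (α χ(v))^r Q^(-s)) (1 - (β χ(v))^r Q^(-s)))⁻¹`, as the norm of `u` is `v^r`. -/
noncomputable def factorAbove (n : 𝓞 K) (c : Ideal (𝓞 K) → ℂ) (χ : 𝓞 K → ℂ)
    (v : HeightOneSpectrum (𝓞 K)) (Q : ℕ) (s : ℂ) : ℂ :=
  if n ∈ v.asIdeal then (1 - (c v.asIdeal * at' χ v) ^ (Nat.log (Ideal.absNorm v.asIdeal) Q) *
    (Q : ℂ) ^ (-s))⁻¹
  else (1 - lucas (c v.asIdeal) (Ideal.absNorm v.asIdeal) (Nat.log (Ideal.absNorm v.asIdeal) Q) *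
    at' χ v ^ (Nat.log (Ideal.absNorm v.asIdeal) Q) * (Q : ℂ) ^ (-s) +
      at' χ v ^ (2 * Nat.log (Ideal.absNorm v.asIdeal) Q) * (Q : ℂ) ^ (1 - 2 * s))⁻¹

/-- `G` is `L(f/F ⊗ χ, s)`, continued to an entire function: for `Re s > 2` it is the product, over the places `v` of
`K`, of the products of the Euler factors at the places of `F` above `v`. -/
def IsLFunctionOver (n : 𝓞 K) (c : Ideal (𝓞 K) → ℂ) (χ : 𝓞 K → ℂ) (G : ℂ → ℂ) : Prop :=
  Differentiable ℂ G ∧ ∀ s : ℂ, 2 < s.re →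
    HasProd (fun v : HeightOneSpectrum (𝓞 K) =>
      ∏ᶠ u : Above F v, factorAbove n c χ v (Ideal.absNorm u.1.asIdeal) s) (G s)

/-- `F/K` is abelian, of squarefree conductor prime to `2(4a³ + 27b²)`, with the group `Ψ` of characters `ψ_u` of
conductors `∏_{v ∈ R_u} v`: the order of `Ψ` is the degree of `F`, and
the decomposition law holds: if `f_v` is the number of the different values `ψ_u(v) ≠ 0`, `u ∈ Ψ`, then the places of
`F` above `v` have norm `N(v)^(f_v)`, and their number is `1/f_v` times the number of the characters `ψ_u`, `u ∈ Ψ`,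
unramified at `v`. -/
structure IsAbelian (a b : 𝓞 K) {Ψ : Type} [CommGroup Ψ]
    (R : Ψ → Finset (HeightOneSpectrum (𝓞 K))) (ψ : Ψ → 𝓞 K → ℂ) : Prop where
  character : ∀ u, IsCharacter (R u) (ψ u)
  coprime : ∀ u, ∀ v ∈ R u, 2 * (4 * a ^ 3 + 27 * b ^ 2) ∉ v.asIdeal
  injective : Function.Injective ψ
  product : ∀ g h x, ψ g x ≠ 0 → ψ h x ≠ 0 → ψ (g * h) x = ψ g x * ψ h x
  order : Nat.card Ψ = Module.finrank K F
  norm : ∀ (v : HeightOneSpectrum (𝓞 K)) (u : Above F v),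
    Ideal.absNorm u.1.asIdeal =
      Ideal.absNorm v.asIdeal ^ Nat.card {z : ℂ // z ≠ 0 ∧ ∃ g, at' (ψ g) v = z}
  number : ∀ v : HeightOneSpectrum (𝓞 K),
    Nat.card (Above F v) * Nat.card {z : ℂ // z ≠ 0 ∧ ∃ g, at' (ψ g) v = z} =
      Nat.card {g : Ψ // at' (ψ g) v ≠ 0}

/-- The law of reciprocity for the character `φ` of `Gal(F/K)` and the character `χ` of `K` of conductor `∏_{v ∈ T} v`:
`φ(t) = χ(v)` for all places `v ∉ T` of `K` and all Frobenius automorphisms `t ∈ Gal(F/K)` at places of `F` above `v`. -/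
def Law (T : Finset (HeightOneSpectrum (𝓞 K))) (χ : 𝓞 K → ℂ) (φ : (F ≃ₐ[K] F) →* ℂ) : Prop :=
  ∀ v : HeightOneSpectrum (𝓞 K), v ∉ T → ∀ (u : Above F v) (t : F ≃ₐ[K] F),
    (∀ x : 𝓞 F, t • x - x ^ Ideal.absNorm v.asIdeal ∈ u.1.asIdeal) →
    φ t = χ (Submodule.IsPrincipal.generator v.asIdeal)

end extension

/-- The places `v` admissible for the curve `y² = x³ + a x + b` and the group of characters `ψ_u`: `v` is prime to
`2(4a³ + 27b²)` and to the conductors of the `ψ_u`, and for all `u` the algebraic integer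
`a_v - ψ_u(v) - conj ψ_u(v)`, `a_v = N(v) + 1 - #E(𝓞/v)`, is not in `𝔪`. -/
def Admissible (𝔪 : Ideal (integralClosure ℤ ℂ)) (a b : 𝓞 K) {Ψ : Type}
    (R : Ψ → Finset (HeightOneSpectrum (𝓞 K))) (ψ : Ψ → 𝓞 K → ℂ)
    (v : HeightOneSpectrum (𝓞 K)) : Prop :=
  2 * (4 * a ^ 3 + 27 * b ^ 2) ∉ v.asIdeal ∧ ∀ u : Ψ, v ∉ R u ∧
    ∃ y : integralClosure ℤ ℂ, (y : ℂ) = ((Ideal.absNorm v.asIdeal : ℂ) - points a b v) -
      at' (ψ u) v - (starRingEnd ℂ) (at' (ψ u) v) ∧ y ∉ 𝔪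

section group

variable {𝒢 Ψ : Type} [CommGroup 𝒢] [CommGroup Ψ]

omit [IsPrincipalIdealRing (𝓞 K)] in
/-- `𝒢` is a group of characters `χ_g` of `K` of exponent `k`, of conductors `∏_{v ∈ T_g} v` which are products of
different places in the set `P`: the product `χ_g χ_h` is the primitive character `χ_(gh)`. -/
structure IsCharacterGroup (P : HeightOneSpectrum (𝓞 K) → Prop) (k : ℕ)
    (T : 𝒢 → Finset (HeightOneSpectrum (𝓞 K))) (χ : 𝒢 → 𝓞 K → ℂ) : Prop where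
  character : ∀ g, IsCharacter (T g) (χ g)
  admissible : ∀ g, ∀ v ∈ T g, P v
  injective : Function.Injective χ
  product : ∀ g h x, χ g x ≠ 0 → χ h x ≠ 0 → χ (g * h) x = χ g x * χ h x
  exponent : ∀ g : 𝒢, g ^ k = 1

omit [IsPrincipalIdealRing (𝓞 K)] [CommGroup 𝒢] in
/-- `γ` is the complex conjugation of the characters `χ_g`: `χ_(γ g)(z) = χ_g(z')` for the conjugate `z'` of `z`. -/
def IsConjugation (σ : K →+* ℂ) (χ : 𝒢 → 𝓞 K → ℂ) (γ : 𝒢 → 𝒢) : Prop :=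
  ∀ g, ∀ z z' : 𝓞 K, σ z' = (starRingEnd ℂ) (σ z) → χ (γ g) z = χ g z'

open Classical in
/-- `F` is a class field of characters `χ_g ψ_u`, `g ∈ ℋ`, `u ∈ Ψ`: `Gal(F/K)` is abelian, and each of its characters `φ`
is, by the law of reciprocity, one of these characters. -/
structure IsClassField (F : Type) [Field F] [NumberField F] [Algebra K F]
    (T : 𝒢 → Finset (HeightOneSpectrum (𝓞 K))) (χ : 𝒢 → 𝓞 K → ℂ)
    (R : Ψ → Finset (HeightOneSpectrum (𝓞 K))) (ψ : Ψ → 𝓞 K → ℂ) (ℋ : Subgroup 𝒢) : Prop where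
  abelian : ∀ s t : F ≃ₐ[K] F, s * t = t * s
  reciprocity : ∀ φ : (F ≃ₐ[K] F) →* ℂ, ∃ g ∈ ℋ, ∃ u : Ψ,
    Law F (T g ∪ R u) (fun x => χ g x * ψ u x) φ

end group

end field

/-- The number of the affine points of `y² = x³ + a x + b` over `𝔽_p`. -/
noncomputable def pts (a b : ℤ) (p : ℕ) : ℕ :=
  Nat.card {x : ZMod p × ZMod p // x.2 ^ 2 = x.1 ^ 3 + (a : ZMod p) * x.1 + (b : ZMod p)}

/-- `A(p)` are the Fourier coefficients at the prime numbers of the newform of level `N` of the curve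
`y² = x³ + a x + b` over `ℚ`: for `p ∤ 2(4a³ + 27b²)`, `p` does not divide `N` and `A(p) = p + 1 - #E(𝔽_p)`. -/
def IsNewformOfQ (a b : ℤ) (N : ℕ) (A : ℕ → ℂ) : Prop :=
  ∀ p : ℕ, p.Prime → ¬ (p : ℤ) ∣ 2 * (4 * a ^ 3 + 27 * b ^ 2) →
    ¬ p ∣ N ∧ A p = (p : ℂ) - pts a b p

/-- The curve `E : y² = x³ + a x + b` over `ℚ`. -/
def curve (a b : ℤ) : WeierstrassCurve ℚ := ⟨0, 0, 0, a, b⟩

section rep

variable {F : Type} [Field F] [NumberField F]

/-- The Frobenius automorphisms at the place `v` of `F`: the automorphisms `σ` of `F` with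
`σ x = x ^ p` modulo `v` for all the integers `x` of `F`, where `p` is the prime number below `v`.
They are a coset of the inertia group of `v`. -/
def FrobSet (v : HeightOneSpectrum (𝓞 F)) : Set (F ≃ₐ[ℚ] F) :=
  {σ | IsArithFrobAt ℤ σ v.asIdeal}

/-- The Kronecker product of matrices, as a homomorphism of monoids. -/
noncomputable def kron : Matrix (Fin 2) (Fin 2) ℂ × Matrix (Fin 2) (Fin 2) ℂ →*
    Matrix (Fin 2 × Fin 2) (Fin 2 × Fin 2) ℂ where
  toFun A := A.1 ⊗ₖ A.2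
  map_one' := Matrix.one_kronecker_one
  map_mul' A B := Matrix.mul_kronecker_mul A.1 B.1 A.2 B.2

/-- `ρ_g ⊗ ρ_h`, by the Kronecker products of matrices. -/
noncomputable def tensor (ρ ρ' : (F ≃ₐ[ℚ] F) →* GL (Fin 2) ℂ) :
    (F ≃ₐ[ℚ] F) →* GL (Fin 2 × Fin 2) ℂ :=
  (Units.map kron).comp (MulEquiv.prodUnits.symm.toMonoidHom.comp (ρ.prod ρ'))

/-- `ρ` is irreducible: its matrices have no common eigenvector. -/
def Irreducible {G : Type} [Group G] (ρ : G →* GL (Fin 2) ℂ) : Prop :=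
  ∀ x : Fin 2 → ℂ, x ≠ 0 →
    ¬ ∀ σ, ∃ l : ℂ, (ρ σ : Matrix (Fin 2) (Fin 2) ℂ).mulVec x = l • x

variable {κ : Type} [Fintype κ] [DecidableEq κ] (ρ : (F ≃ₐ[ℚ] F) →* GL κ ℂ)

/-- The action of the Frobenius automorphism at `v` on the vectors of `V = ℂ^κ` fixed by the inertia
group of `v`, extended by zero: the average of the matrices `ρ(σ)` over all the Frobenius
automorphisms `σ` at `v`. -/
noncomputable def frob (v : HeightOneSpectrum (𝓞 F)) : Matrix κ κ ℂ :=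
  (Nat.card (FrobSet v) : ℂ)⁻¹ • ∑ᶠ σ : FrobSet v, (ρ σ.1 : Matrix κ κ ℂ)

/-- The Euler factor of `L(V_f ⊗ V, s)` at the prime number `p`, where `v` is a place of `F` above `p`:
`det (1 - A(p) p^(-s) Φ + p^(1 - 2 s) Φ²)⁻¹` for `Φ = frob ρ v`, without the last term if `p ∣ N`.  (The fields
`F` of the theorem are unramified at the `p ∣ N`.) -/
noncomputable def euler (A : ℕ → ℂ) (N : ℕ) (v : HeightOneSpectrum (𝓞 F)) (s : ℂ) (p : ℕ) : ℂ :=
  (1 - (A p * (p : ℂ) ^ (-s)) • frob ρ v +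
    (if p ∣ N then 0 else (p : ℂ) ^ (1 - 2 * s)) • frob ρ v ^ 2).det⁻¹

/-- `L` is a meromorphic function on `ℂ`, and for `Re s > 2` it is `L(V_f ⊗ V, s)`, the product of the
Euler factors at all the prime numbers (for any choice of the places above them). -/
def IsLFunction (A : ℕ → ℂ) (N : ℕ) (L : ℂ → ℂ) : Prop :=
  MeromorphicOn L Set.univ ∧
    ∀ V : Nat.Primes → HeightOneSpectrum (𝓞 F),
      (∀ p : Nat.Primes, ((p : ℕ) : 𝓞 F) ∈ (V p).asIdeal) → ∀ s : ℂ, 2 < s.re →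
      HasProd (fun p : Nat.Primes => euler ρ A N (V p) s p) (L s)

variable (F) in
/-- The group `E(F)`. -/
abbrev Pts (a b : ℤ) : Type := ((curve a b).map (algebraMap ℚ F)).toAffine.Point

open Classical in
/-- The action of the automorphism `σ` on `E(F)`. -/
noncomputable def act (a b : ℤ) (σ : F ≃ₐ[ℚ] F) : Pts F a b →+ Pts F a b :=
  Affine.Point.map (W' := (curve a b).toAffine) (σ : F →ₐ[ℚ] F)

end rep

/-- For a representation `ρ` of the group `G` on `V = ℂ^κ` and an action `α` of `G` on the abelian group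
`A`: the linear map `φ : V → A ⊗ ℂ` commutes with `G`. -/
def IsHom {G κ A : Type} [Group G] [Fintype κ] [DecidableEq κ] [AddCommGroup A]
    (ρ : G →* GL κ ℂ) (α : G → A →+ A) (φ : (κ → ℂ) →ₗ[ℂ] (ℂ ⊗[ℤ] A)) : Prop :=
  ∀ (σ : G) (v : κ → ℂ),
    φ ((ρ σ : Matrix κ κ ℂ).mulVec v) = (α σ).toIntLinearMap.baseChange ℂ (φ v)

section hom

variable {G κ A : Type} [Group G] [Fintype κ] [DecidableEq κ] [AddCommGroup A]
  (ρ : G →* GL κ ℂ) (α : G → A →+ A)

theorem IsHom.zero : IsHom ρ α 0 := fun σ v => by simp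

variable {ρ α} in
theorem IsHom.add {φ ψ : (κ → ℂ) →ₗ[ℂ] (ℂ ⊗[ℤ] A)} (h : IsHom ρ α φ) (h' : IsHom ρ α ψ) :
    IsHom ρ α (φ + ψ) := fun σ v => by
  rw [LinearMap.add_apply, LinearMap.add_apply, h σ v, h' σ v, map_add]

variable {ρ α} in
theorem IsHom.smul (a : ℂ) {φ : (κ → ℂ) →ₗ[ℂ] (ℂ ⊗[ℤ] A)} (h : IsHom ρ α φ) :
    IsHom ρ α (a • φ) := fun σ v => by
  rw [LinearMap.smul_apply, LinearMap.smul_apply, h σ v, map_smul]

/-- `Hom_G(V, A ⊗ ℂ)`, the space of the linear maps which commute with the action of `G`. -/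
noncomputable def homs : Submodule ℂ ((κ → ℂ) →ₗ[ℂ] (ℂ ⊗[ℤ] A)) where
  carrier := {φ | IsHom ρ α φ}
  zero_mem' := IsHom.zero ρ α
  add_mem' := IsHom.add
  smul_mem' := IsHom.smul

/-- The dimension of `Hom_G(V, A ⊗ ℂ)`. -/
noncomputable def dimHom : ℕ := Module.finrank ℂ (homs ρ α)

theorem homs_zero [Finite A] : homs ρ α = ⊥ := by
  have h1 : ∀ x : ℂ ⊗[ℤ] A, x = 0 := by
    intro x
    induction x using TensorProduct.induction_on with
    | zero => rfl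
    | tmul a P =>
      have hN : (Nat.card A : ℂ) ≠ 0 := by
        have : 0 < Nat.card A := Nat.card_pos
        exact_mod_cast this.ne'
      have h2 : Nat.card A • P = 0 := card_nsmul_eq_zero'
      have h3 : a = (Nat.card A : ℤ) • (a * (Nat.card A : ℂ)⁻¹) := by
        rw [zsmul_eq_mul]
        push_cast
        field_simp
      rw [h3, TensorProduct.smul_tmul, natCast_zsmul, h2, TensorProduct.tmul_zero]
    | add x y hx hy => rw [hx, hy, add_zero]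
  rw [eq_bot_iff]
  intro φ _
  rw [Submodule.mem_bot]
  exact LinearMap.ext fun v => h1 _

theorem dimHom_zero [Finite A] : dimHom ρ α = 0 := by
  unfold dimHom
  rw [homs_zero]
  exact finrank_bot ℂ _

end hom

section pairs

variable (F : Type) [Field F] [NumberField F]

/-- `L(f ⊗ g ⊗ h, s)` has a meromorphic continuation to `ℂ` which is analytic and not zero at `s = 1`. -/
def NonVanishing (N : ℕ) (A : ℕ → ℂ) (ρg ρh : (F ≃ₐ[ℚ] F) →* GL (Fin 2) ℂ) : Prop :=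
  ∃ L : ℂ → ℂ, IsLFunction (tensor ρg ρh) A N L ∧ AnalyticAt ℂ L 1 ∧ L 1 ≠ 0

open Classical in
/-- Beilinson's equality for `(f, g, h)`, with both sides zero: `L(f ⊗ g ⊗ h, s)` has a meromorphic continuation
that is analytic at `s = 1`, and its order there is `dim Hom(V_gh, E(F) ⊗ ℂ)` and zero. -/
def Equality (a b : ℤ) (N : ℕ) (A : ℕ → ℂ) (ρg ρh : (F ≃ₐ[ℚ] F) →* GL (Fin 2) ℂ) : Prop :=
  ∃ L : ℂ → ℂ, IsLFunction (tensor ρg ρh) A N L ∧ AnalyticAt ℂ L 1 ∧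
    analyticOrderAt L 1 = dimHom (tensor ρg ρh) (act (F := F) a b) ∧ analyticOrderAt L 1 = 0

variable {F} in
theorem Equality.of {a b : ℤ} {N : ℕ} {A : ℕ → ℂ} {ρg ρh : (F ≃ₐ[ℚ] F) →* GL (Fin 2) ℂ}
    (hfin : Finite (Pts F a b)) (h : NonVanishing F N A ρg ρh) : Equality F a b N A ρg ρh := by
  classical
  obtain ⟨L, h1, h2, h3⟩ := h
  have h7 := dimHom_zero (A := Pts F a b) (tensor ρg ρh) (act (F := F) a b)
  have h8 : analyticOrderAt L 1 = 0 := analyticOrderAt_eq_zero.2 (Or.inr h3)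
  refine ⟨L, h1, h2, ?_, h8⟩
  rw [h8, h7]
  rfl

end pairs

section arithmetic

/-- The `p`-Selmer group of `E : y² = x³ + a x + b` over `M` is trivial, that is, `E(M)` is finite of order prime to `p` and
`Ш(E/M)[p] = 0`. -/
def TrivialSelmer (p : ℕ) (M : Type) [Field M] [NumberField M] (a b : ℤ) : Prop :=
  Finite (Pts M a b) ∧ ¬ p ∣ Nat.card (Pts M a b) ∧
    ∀ s : Pool.Agent.TH841.NF.D.Sha ((curve a b).map (algebraMap ℚ M)), p • s = 0 → s = 0

/-- `F/M` is a finite Galois extension of `p`-power degree; the places `w ∣ 2p(4a³ + 27b²)` of `M` split completely in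
`F` (there is an embedding of `F` in `M_w`); and the other places `w` of `M` such that `p` divides `#E(𝓞/w)` are not
ramified in `F`. -/
structure IsPExtension (p : ℕ) (M F : Type) [Field M] [NumberField M] [Field F] [NumberField F]
    [Algebra M F] (a b : ℤ) : Prop where
  galois : IsGalois M F
  degree : ∃ k : ℕ, Module.finrank M F = p ^ k
  split : ∀ w : HeightOneSpectrum (𝓞 M),
    2 * (p : 𝓞 M) * (4 * (a : 𝓞 M) ^ 3 + 27 * (b : 𝓞 M) ^ 2) ∈ w.asIdeal →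
    Nonempty (F →ₐ[M] w.adicCompletion M)
  unramified : ∀ w : HeightOneSpectrum (𝓞 M),
    2 * (p : 𝓞 M) * (4 * (a : 𝓞 M) ^ 3 + 27 * (b : 𝓞 M) ^ 2) ∉ w.asIdeal →
    p ∣ points (a : 𝓞 M) (b : 𝓞 M) w + 1 → ∀ u : Above F w, ∀ x : M,
      u.1.valuation F (algebraMap M F x) = w.valuation M x

/-- The conclusion for the pair `ρ_g`, `ρ_h` of representations of `Gal(F/ℚ)`: the function `L(f ⊗ g ⊗ h, s)` has a
meromorphic continuation which is analytic and not zero at `s = 1`; and if `p ≠ 2`, the `p`-Selmer group of `E` over `M`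
is trivial and `F` contains `M` and is an extension as in `IsPExtension`, then `E(F)` is finite and Beilinson's
equality holds, with both sides zero. -/
def Conclusion (p : ℕ) (M F : Type) [Field M] [NumberField M] [Field F] [NumberField F]
    (a b : ℤ) (N : ℕ) (A : ℕ → ℂ) (ρg ρh : (F ≃ₐ[ℚ] F) →* GL (Fin 2) ℂ) : Prop :=
  NonVanishing F N A ρg ρh ∧
    ∀ [Algebra M F], p ≠ 2 → TrivialSelmer p M a b → IsPExtension p M F a b →
      Finite (Pts F a b) ∧ Equality F a b N A ρg ρh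

end arithmetic

section properties

variable {K : Type} [Field K] [NumberField K] [IsPrincipalIdealRing (𝓞 K)] {𝒢 Ψ : Type}
  [CommGroup 𝒢] [CommGroup Ψ]

open Classical in
/-- `ρ` is the representation of the theta series (a cusp form) of the character `χ_x ψ_u`: it is irreducible, and its
restriction to `Gal(F/K)` contains the character `φ` which corresponds to `χ_x ψ_u` by the law of reciprocity. -/
def IsTheta {F : Type} [Field F] [NumberField F] [Algebra K F]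
    (T : 𝒢 → Finset (HeightOneSpectrum (𝓞 K))) (χ : 𝒢 → 𝓞 K → ℂ)
    (R : Ψ → Finset (HeightOneSpectrum (𝓞 K))) (ψ : Ψ → 𝓞 K → ℂ)
    (ρ : (F ≃ₐ[ℚ] F) →* GL (Fin 2) ℂ) (x : 𝒢) (u : Ψ) : Prop :=
  Irreducible ρ ∧ ∃ (φ : (F ≃ₐ[K] F) →* ℂ) (w : Fin 2 → ℂ), w ≠ 0 ∧
    (∀ t : F ≃ₐ[K] F, (ρ (t.restrictScalars ℚ) : Matrix (Fin 2) (Fin 2) ℂ).mulVec w = φ t • w) ∧
    Law F (T x ∪ R u) (fun z => χ x z * ψ u z) φ

/-- The property of the pair of the characters `χ_x`, `χ_y`: for all `u, u' ∈ Ψ`, all Galois extensions `F ⊇ K` of `ℚ`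
which are class fields of characters in `𝒢 × Ψ`, and all representations `ρ_g`, `ρ_h` of `Gal(F/ℚ)` of theta series of
`χ_x ψ_u` and `χ_y ψ_u'`, the conclusion holds. -/
def ThetaPair (p : ℕ) (M : Type) [Field M] [NumberField M] (a b : ℤ) (N : ℕ) (A : ℕ → ℂ)
    (T : 𝒢 → Finset (HeightOneSpectrum (𝓞 K))) (χ : 𝒢 → 𝓞 K → ℂ)
    (R : Ψ → Finset (HeightOneSpectrum (𝓞 K))) (ψ : Ψ → 𝓞 K → ℂ) (x y : 𝒢) : Prop :=
  ∀ (u u' : Ψ) (F : Type) [Field F] [NumberField F] [Algebra K F] [IsGalois ℚ F],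
    IsClassField F T χ R ψ ⊤ → ∀ ρg ρh : (F ≃ₐ[ℚ] F) →* GL (Fin 2) ℂ,
    IsTheta T χ R ψ ρg x u → IsTheta T χ R ψ ρh y u' → Conclusion p M F a b N A ρg ρh

/-- The property of the subgroup `ℋ`: for all Galois extensions `F ⊇ K` of `ℚ` which are class fields of characters in
`ℋ × Ψ`, and all pairs of two-dimensional representations `ρ_g`, `ρ_h` of `Gal(F/ℚ)`, one of which is irreducible,
the conclusion holds. -/
def AllPairs (p : ℕ) (M : Type) [Field M] [NumberField M] (a b : ℤ) (N : ℕ) (A : ℕ → ℂ)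
    (T : 𝒢 → Finset (HeightOneSpectrum (𝓞 K))) (χ : 𝒢 → 𝓞 K → ℂ)
    (R : Ψ → Finset (HeightOneSpectrum (𝓞 K))) (ψ : Ψ → 𝓞 K → ℂ) (ℋ : Subgroup 𝒢) : Prop :=
  ∀ (F : Type) [Field F] [NumberField F] [Algebra K F] [IsGalois ℚ F],
    IsClassField F T χ R ψ ℋ → ∀ ρg ρh : (F ≃ₐ[ℚ] F) →* GL (Fin 2) ℂ,
    Irreducible ρg ∨ Irreducible ρh → Conclusion p M F a b N A ρg ρh

/-- The pair of the characters `χ_x`, `χ_y` is good: their values at the places in `S` are one, and they have the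
property `ThetaPair` for all the curves `E_i` and the fields `M_i`. -/
def GoodPair (p : ℕ) {m : ℕ} (M : Fin m → Type) [∀ i, Field (M i)] [∀ i, NumberField (M i)]
    (a b : Fin m → ℤ) (N : Fin m → ℕ) (A : Fin m → ℕ → ℂ)
    (T : 𝒢 → Finset (HeightOneSpectrum (𝓞 K))) (χ : 𝒢 → 𝓞 K → ℂ)
    {Ψ : Fin m → Type} [∀ i, CommGroup (Ψ i)]
    (R : (i : Fin m) → Ψ i → Finset (HeightOneSpectrum (𝓞 K))) (ψ : (i : Fin m) → Ψ i → 𝓞 K → ℂ)
    (S : Finset (HeightOneSpectrum (𝓞 K))) (x y : 𝒢) : Prop :=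
  (∀ v ∈ S, at' (χ x) v = 1 ∧ at' (χ y) v = 1) ∧
    ∀ i, ThetaPair p (M i) (a i) (b i) (N i) (A i) T χ (R i) (ψ i) x y

end properties

open Classical in
/-- Let `K` be an imaginary quadratic field of class number one, `E_i : y² = x³ + a_i x + b_i`, `i = 1, …, m`, elliptic
curves over `ℚ` with the newforms `f_i` of level `N_i` such that the prime divisors of `2(4a_i³ + 27b_i²)` are unramified
in `K`, let `M_i/K` be finite abelian extensions of squarefree conductors prime to `2(4a_i³ + 27b_i²)`, with the groups of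
characters `Ψ_i`, and suppose that `L(E_i/M_i, s)` is entire with `L(E_i/M_i, 1) ≠ 0`.  Let `p` be a prime, `𝔪` a maximal
ideal above `p` of the ring of the algebraic integers, and `S` a finite set of places of `K`.
For all `e` and `d` there is a function `B` with the following properties.  Let `𝒢` be a group, finite or infinite, of
characters of `K` of exponent `p^e` whose conductors are products of different admissible places not in `S`, and let `Δ` be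
a group of at most `d` automorphisms of `𝒢`.
(1) For every sequence `g_0, g_1, …` in `𝒢` there are nonempty sets `I_k ⊆ [B(k), B(k + 1))` such that the products
`∏_{j ∈ I_k} g_j` are in a `Δ`-stable subgroup `ℋ` of `𝒢`, of characters which are one at the places in `S`, with the
property `AllPairs` for all the `E_i` and `M_i`.
(2) If `𝒢` is infinite it has an infinite `Δ`-stable subgroup `ℋ` with these properties.
(3) If `𝒢` has more than `p^(e B(t))` elements it has a `Δ`-stable subgroup `ℋ` of at least `t` elements with these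
properties.
(4) If `𝒢` and the `Ψ_i` are stable under complex conjugation, then there is a set of at most `2^B(1)` pairs `(k, k')` in
`𝒢 × 𝒢` such that for every pair `(g, g')` one of the pairs `(g k, g' k')` is good.
(5) Under the same condition there is a `C` such that for all `X` the number of the pairs of characters in `𝒢` with
conductors of norm at most `X` is at most `C` times the number of the good pairs with conductors of norm at most
`C X`. -/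
theorem result (K : Type) [Field K] [NumberField K] [IsPrincipalIdealRing (𝓞 K)] (σ : K →+* ℂ)
    (δ : K) (hK : IsFieldData K σ δ) {m : ℕ} (a b : Fin m → ℤ)
    (hΔ : ∀ i, 4 * a i ^ 3 + 27 * b i ^ 2 ≠ 0) (N : Fin m → ℕ) (A : Fin m → ℕ → ℂ)
    (hA : ∀ i, IsNewformOfQ (a i) (b i) (N i) (A i)) (hur : ∀ i, Unramified K (a i) (b i))
    (c : Fin m → Ideal (𝓞 K) → ℂ) (hf : ∀ i, IsNewform σ δ (N i : 𝓞 K) (c i))
    (hE : ∀ i, IsNewformOf (a i : 𝓞 K) (b i : 𝓞 K) (N i : 𝓞 K) (c i))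
    (hbc : ∀ i, IsBaseChange (N i) (A i) (c i))
    (M : Fin m → Type) [∀ i, Field (M i)] [∀ i, NumberField (M i)] [∀ i, Algebra K (M i)]
    (Ψ : Fin m → Type) [∀ i, CommGroup (Ψ i)] [∀ i, Finite (Ψ i)]
    (R : (i : Fin m) → Ψ i → Finset (HeightOneSpectrum (𝓞 K))) (ψ : (i : Fin m) → Ψ i → 𝓞 K → ℂ)
    (hM : ∀ i, IsAbelian (M i) (a i : 𝓞 K) (b i : 𝓞 K) (R i) (ψ i))
    (hL : ∀ i, ∃ G : ℂ → ℂ,
      IsLFunctionOver (M i) (N i : 𝓞 K) (c i) (fun _ => 1) G ∧ G 1 ≠ 0)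
    {p : ℕ} (hp : p.Prime) (𝔪 : Ideal (integralClosure ℤ ℂ)) (hm : 𝔪.IsMaximal)
    (hpm : (p : integralClosure ℤ ℂ) ∈ 𝔪) (S : Finset (HeightOneSpectrum (𝓞 K))) (e d : ℕ) :
    ∃ B : ℕ → ℕ, ∀ (𝒢 : Type) [CommGroup 𝒢] (T : 𝒢 → Finset (HeightOneSpectrum (𝓞 K)))
      (χ : 𝒢 → 𝓞 K → ℂ), IsCharacterGroup
        (fun v => v ∉ S ∧ ∀ i, Admissible 𝔪 (a i : 𝓞 K) (b i : 𝓞 K) (R i) (ψ i) v) (p ^ e) T χ →
      (∀ Δ : Subgroup (MulAut 𝒢), Finite Δ → Nat.card Δ ≤ d →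
        (∀ g : ℕ → 𝒢, ∃ I : ℕ → Finset ℕ,
          (∀ k, (I k).Nonempty ∧ ∀ j ∈ I k, B k ≤ j ∧ j < B (k + 1)) ∧
          ∃ ℋ : Subgroup 𝒢, (∀ k, ∏ j ∈ I k, g j ∈ ℋ) ∧ (∀ s ∈ Δ, ∀ x ∈ ℋ, s x ∈ ℋ) ∧
            (∀ x ∈ ℋ, ∀ v ∈ S, at' (χ x) v = 1) ∧
            ∀ i, AllPairs p (M i) (a i) (b i) (N i) (A i) T χ (R i) (ψ i) ℋ) ∧
        (Infinite 𝒢 → ∃ ℋ : Subgroup 𝒢, Infinite ℋ ∧ (∀ s ∈ Δ, ∀ x ∈ ℋ, s x ∈ ℋ) ∧
          (∀ x ∈ ℋ, ∀ v ∈ S, at' (χ x) v = 1) ∧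
          ∀ i, AllPairs p (M i) (a i) (b i) (N i) (A i) T χ (R i) (ψ i) ℋ) ∧
        (∀ t : ℕ, p ^ (e * B t) < Nat.card 𝒢 → ∃ ℋ : Subgroup 𝒢, t ≤ Nat.card ℋ ∧
          (∀ s ∈ Δ, ∀ x ∈ ℋ, s x ∈ ℋ) ∧ (∀ x ∈ ℋ, ∀ v ∈ S, at' (χ x) v = 1) ∧
          ∀ i, AllPairs p (M i) (a i) (b i) (N i) (A i) T χ (R i) (ψ i) ℋ)) ∧
      ∀ γ : 𝒢 →* 𝒢, IsConjugation σ χ γ →
        (∀ i, ∃ γ' : Ψ i → Ψ i, IsConjugation σ (ψ i) γ') →
        (∃ 𝒦 : Finset (𝒢 × 𝒢), 𝒦.card ≤ 2 ^ B 1 ∧ ∀ g g' : 𝒢, ∃ k ∈ 𝒦,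
          GoodPair p M a b N A T χ R ψ S (g * k.1) (g' * k.2)) ∧
        ∃ C : ℕ, ∀ X : ℕ,
          {g : 𝒢 × 𝒢 | conductorNorm (T g.1) ≤ X ∧ conductorNorm (T g.2) ≤ X}.ncard ≤
          C * {g : 𝒢 × 𝒢 | (conductorNorm (T g.1) ≤ C * X ∧ conductorNorm (T g.2) ≤ C * X) ∧
            GoodPair p M a b N A T χ R ψ S g.1 g.2}.ncard := by
  classical
  have h : K4H55.BI.IQ K σ δ := ⟨hK.quadratic, hK.imaginary, inferInstance, hK.different⟩
  have hf' : ∀ i, K4H55.BI.BF σ δ (N i : 𝓞 K) (c i) := fun i => ⟨(hf i).level, (hf i).zero,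
    (hf i).one, (hf i).bound, (hf i).good, (hf i).bad, (hf i).invariant, (hf i).fricke⟩
  have hmi : ∀ i, 2 * (4 * (a i : 𝓞 K) ^ 3 + 27 * (b i : 𝓞 K) ^ 2) =
      ((2 * (4 * a i ^ 3 + 27 * b i ^ 2) : ℤ) : 𝓞 K) := fun i => by push_cast; rfl
  have hluc : ∀ (t q : ℂ) (j : ℕ), lucas t q j = K4H55.CX.luc t q j := by
    intro t q j
    induction j using Nat.twoStepInduction with
    | zero => rfl
    | one => rfl
    | more j h1 h2 => rw [lucas, K4H55.CX.luc, h1, h2]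
  have hch : ∀ (T : Finset (HeightOneSpectrum (𝓞 K))) (χ : 𝓞 K → ℂ), IsCharacter T χ →
      H92P.CP T χ := fun T χ h1 =>
    ⟨h1.one, h1.mul, h1.zero, h1.periodic, h1.units, h1.primitive, h1.order⟩
  have hgd : ∀ i, ∀ v : HeightOneSpectrum (𝓞 K),
      2 * (4 * (a i : 𝓞 K) ^ 3 + 27 * (b i : 𝓞 K) ^ 2) ∉ v.asIdeal →
      H92G.Gd (N i : 𝓞 K) v := fun i v hv =>
    ⟨fun h2 => hv (v.asIdeal.mul_mem_right _ h2), (hE i v hv).1⟩
  have hfac : ∀ i, ∀ (χ : 𝓞 K → ℂ) (v : HeightOneSpectrum (𝓞 K)) (Q : ℕ) (s : ℂ),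
      factorAbove (N i : 𝓞 K) (c i) χ v Q s =
        H92G.facT (N i : 𝓞 K) (c i) v (χ (K4H55.BI.gen v)) Q s := by
    intro i χ v Q s
    unfold factorAbove H92G.facT
    rw [hluc]
    rfl
  have hCF : ∀ i, H92P.CFp (R i) (ψ i) := fun i =>
    ⟨fun g => hch _ _ ((hM i).character g), (hM i).product⟩
  have hCGψ : ∀ i, H92P.CGp (R i) (ψ i) := fun i =>
    ⟨fun g => hch _ _ ((hM i).character g), (hM i).product⟩
  have hlawM : ∀ i, K4H55.CX.Law (M i) (ψ i) := fun i =>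
    ⟨fun v u hu => (hM i).norm v ⟨u, hu⟩, fun v => (hM i).number v⟩
  have hRg : ∀ i g, ∀ v ∈ R i g, H92G.Gd (N i : 𝓞 K) v := fun i g v hv =>
    hgd i _ ((hM i).coprime g v hv)
  -- the L-function of the twist over `M_i`
  have hprod : ∀ (i : Fin m) (χ : 𝓞 K → ℂ) (s : ℂ) [Fintype (Ψ i)],
      (fun v : HeightOneSpectrum (𝓞 K) =>
        ∏ᶠ u : Above (M i) v, factorAbove (N i : 𝓞 K) (c i) χ v (Ideal.absNorm u.1.asIdeal) s) =
      fun v => ∏ g : Ψ i, K4H55.CX.efx (N i : 𝓞 K) (c i) (fun x => χ x * ψ i g x) s v := by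
    intro i χ s _
    funext v
    simp only [hfac]
    exact H92G.above_prodT (n := (N i : 𝓞 K)) (c := c i) (hCF i) (hlawM i) χ v s
  -- the central values of the twists by the characters of the extension
  have hval : ∀ (i : Fin m) (g : Ψ i), H92.val h (c i) (R i g) (K4H55.CX.br (ψ i g)) ≠ 0 := by
    intro i g
    have : Fintype (Ψ i) := Fintype.ofFinite _
    obtain ⟨G, ⟨g1, g2⟩, g3⟩ := hL i
    choose G' C' k1 k2 k3 k4 using fun g : Ψ i => H92G.val_g h (hf' i) ((hCF i).ch g) (hRg i g)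
    have h1 : G = fun s => ∏ g, G' g s := by
      refine H92.eq_of_prod (f := fun s v => ∏ g : Ψ i,
        K4H55.CX.efx (N i : 𝓞 K) (c i) (ψ i g) s v) g1
        (Differentiable.fun_finsetProd fun g _ => k1 g) (fun s hs => ?_) fun s hs => ?_
      · have h2 := g2 s hs
        rw [hprod] at h2
        simp only [one_mul] at h2
        exact h2
      · exact hasProd_prod fun g _ => k2 g s hs
    rw [h1, Finset.prod_ne_zero_iff] at g3
    have h3 := g3 g (Finset.mem_univ g)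
    rw [k4] at h3
    exact right_ne_zero_of_mul h3
  have hur' : ∀ i, ∀ w : HeightOneSpectrum (𝓞 K),
      2 * (4 * (a i : 𝓞 K) ^ 3 + 27 * (b i : 𝓞 K) ^ 2) ∈ w.asIdeal →
      ∀ p : ℕ, p.Prime → (p : 𝓞 K) ∈ w.asIdeal → (p : 𝓞 K) ∉ w.asIdeal ^ 2 := by
    intro i w hw p hp hpw
    rw [hmi] at hw
    exact hur i p hp ((K4H55.BD.int_mem hp hpw).1 hw) w hpw
  have hA' : ∀ i, ∀ p : ℕ, p.Prime → ¬ (p : ℤ) ∣ 2 * (4 * a i ^ 3 + 27 * b i ^ 2) →
      ¬ p ∣ N i ∧ ∃ k : ℕ, k ≤ 2 * p ∧ A i p = p - k := by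
    intro i p hp hpm
    obtain ⟨h7, h8⟩ := hA i p hp hpm
    have : Fact p.Prime := ⟨hp⟩
    refine ⟨h7, pts (a i) (b i) p, ?_, h8⟩
    have h9 := K4H15.BZ.card_pts (R := ZMod p) (a i : ZMod p) (b i : ZMod p)
    rwa [Nat.card_zmod] at h9
  -- the points
  have hfin : ∀ i (F : Type) [Field F] [NumberField F] [Algebra (M i) F],
      p ≠ 2 → TrivialSelmer p (M i) (a i) (b i) → IsPExtension p (M i) F (a i) (b i) →
      Finite (Pts F (a i) (b i)) := by
    intro i F _ _ _ hp2 hS hF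
    have hG := hF.galois
    obtain ⟨k, hk⟩ := hF.degree
    have e0 : (curve (a i) (b i)).map (algebraMap ℚ (M i)) =
        H92P.cu (M i) (a i : 𝓞 (M i)) (b i : 𝓞 (M i)) := by
      unfold curve H92P.cu WeierstrassCurve.map
      simp
    have e1 : (curve (a i) (b i)).map (algebraMap ℚ F) =
        H92P.cu F (a i : 𝓞 (M i)) (b i : 𝓞 (M i)) := by
      unfold curve H92P.cu WeierstrassCurve.map
      simp
    obtain ⟨s1, s2, s3⟩ := hS
    unfold Pts at s1 s2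
    rw [e0] at s1 s2 s3
    have hΔM : 4 * (a i : 𝓞 (M i)) ^ 3 + 27 * (b i : 𝓞 (M i)) ^ 2 ≠ 0 := by
      exact_mod_cast hΔ i
    obtain ⟨h1, -, -⟩ := H92P.fin_upP (k := M i) (K := F) hp hp2 hk hΔM s1 s2 s3 hF.split
      (fun w hw => by
        by_cases h4 : p ∣ H92P.pts (a i : 𝓞 (M i)) (b i : 𝓞 (M i)) (w.under (𝓞 (M i))) + 1
        · exact Or.inr fun x => hF.unramified _ hw h4 ⟨w, rfl⟩ x
        · exact Or.inl h4)
    unfold Pts
    rw [e1]
    exact h1.1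
  have hConc : ∀ i (F : Type) [Field F] [NumberField F]
      (ρg ρh : (F ≃ₐ[ℚ] F) →* GL (Fin 2) ℂ), NonVanishing F (N i) (A i) ρg ρh →
      Conclusion p (M i) F (a i) (b i) (N i) (A i) ρg ρh := by
    intro i F _ _ ρg ρh hNV
    refine ⟨hNV, fun {_} hp2 hS hF => ?_⟩
    have h1 := hfin i F hp2 hS hF
    exact ⟨h1, Equality.of h1 hNV⟩
  -- the theorem of Ramsey type
  have hpm' : ((p : ℕ) : integralClosure ℤ ℂ) ∈ 𝔪 := hpm
  obtain ⟨B, hB⟩ := H92P.ramPp_and (H92G.ram_S hp S e (d + 4))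
    (H92G.ramPp_fin (ι := (i : Fin m) × Ψ i) (p := p) (b := e) (d := d + 4)
      (fun ig => H92G.Adg 𝔪 (N ig.1 : 𝓞 K) (c ig.1) (R ig.1 ig.2) (ψ ig.1 ig.2))
      (fun ig T χ => H92.val h (c ig.1) (T ∪ R ig.1 ig.2)
        (K4H55.CX.br fun x => χ x * ψ ig.1 ig.2 x) ≠ 0)
      fun ig => H92G.bia_towerg hp hm hpm' h (hf' ig.1) ((hCF ig.1).ch ig.2) (hRg ig.1 ig.2)
        (hval ig.1 ig.2) e (d + 4))
  refine ⟨B, fun 𝒢 _ T χ hχ => ?_⟩
  have hCG : H92P.CGp T χ := ⟨fun g => hch _ _ (hχ.character g), hχ.product⟩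
  have hadm0 : ∀ g, ∀ v ∈ T g, ∀ i,
      2 * (4 * (a i : 𝓞 K) ^ 3 + 27 * (b i : 𝓞 K) ^ 2) ∉ v.asIdeal ∧ ∀ u, v ∉ R i u :=
    fun g v hv i => ⟨((hχ.admissible g v hv).2 i).1, fun u => (((hχ.admissible g v hv).2 i).2 u).1⟩
  have hadm : ∀ g, ∀ v ∈ T g, v ∉ S ∧ ∀ ig : (i : Fin m) × Ψ i,
      H92G.Adg 𝔪 (N ig.1 : 𝓞 K) (c ig.1) (R ig.1 ig.2) (ψ ig.1 ig.2) v := by
    intro g v hv
    obtain ⟨h1, h2⟩ := hχ.admissible g v hv
    refine ⟨h1, fun ig => ?_⟩
    obtain ⟨h3, h4⟩ := h2 ig.1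
    obtain ⟨h5, y, hy, hym⟩ := h4 ig.2
    refine ⟨hgd _ _ h3, h5, y, ?_, hym⟩
    rw [hy, (hE ig.1 v h3).2]
    rfl
  have hCGX : ∀ i, H92P.CGp (fun z : 𝒢 × Ψ i => T z.1 ∪ R i z.2)
      (fun z x => χ z.1 x * ψ i z.2 x) := fun i => by
    have h1 := H92T.cg_prod hCG (hCGψ i) (fun g u => by
      rw [Finset.disjoint_left]
      intro v hv
      exact (hadm0 g v hv i).2 u)
    convert h1
  -- the good characters
  set Good : 𝒢 → Prop := fun x => (∀ v ∈ S, χ x (K4H55.BI.gen v) = 1) ∧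
    ∀ ig : (i : Fin m) × Ψ i, H92.val h (c ig.1) (T x ∪ R ig.1 ig.2)
      (K4H55.CX.br fun y => χ x y * ψ ig.1 ig.2 y) ≠ 0 with hGood
  have hPX : ∀ i (g : 𝒢) (u : Ψ i), ∀ v ∈ T g ∪ R i u,
      2 * (4 * (a i : 𝓞 K) ^ 3 + 27 * (b i : 𝓞 K) ^ 2) ∉ v.asIdeal := by
    intro i g u v hv
    rcases Finset.mem_union.1 hv with h2 | h2
    · exact (hadm0 g v h2 i).1
    · exact (hM i).coprime u v h2
  have hnv : ∀ x : 𝒢, Good x → ∀ i (u : Ψ i), ∃ G : ℂ → ℂ, Differentiable ℂ G ∧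
      (∀ s : ℂ, 2 < s.re → HasProd
        (K4H55.CX.efx (N i : 𝓞 K) (c i) (fun y => χ x y * ψ i u y) s) (G s)) ∧ G 1 ≠ 0 := by
    intro x hx i u
    exact H92G.chr_neg h (hf' i) ((hCGX i).ch (x, u))
      (fun v hv => hgd i v (hPX i x u v hv)) (hx.2 ⟨i, u⟩)
  have hlaw : ∀ (F : Type) [Field F] [NumberField F] [Algebra K F]
      (T' : Finset (HeightOneSpectrum (𝓞 K))) (X' : 𝓞 K → ℂ) (φ : (F ≃ₐ[K] F) →* ℂ), Law F T' X' φ →
      ∀ v : HeightOneSpectrum (𝓞 F), K4H55.BD.low (K := K) v ∉ T' → ∀ t : F ≃ₐ[K] F,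
        (∀ x : 𝓞 F, t • x - x ^ Ideal.absNorm (K4H55.BD.low (K := K) v).asIdeal ∈ v.asIdeal) →
        φ t = X' (K4H55.BI.gen (K4H55.BD.low (K := K) v)) :=
    fun F _ _ _ T' X' φ h3 u hu t ht => h3 _ hu ⟨u, rfl⟩ t ht
  have hρ0 : ∀ (F : Type) [Field F] [NumberField F] (ρg ρh : (F ≃ₐ[ℚ] F) →* GL (Fin 2) ℂ),
      ∀ s α, (1 - α • K4H15.BT.cM (tensor ρg ρh s)).det =
      K4H15.BZ.kp (K4H15.BT.cM (ρg s)).trace (K4H15.BT.cM (ρg s)).det
        (K4H15.BT.cM (ρh s)).trace (K4H15.BT.cM (ρh s)).det α := fun F _ _ ρg ρh s α =>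
    K4H15.BZ.kron_det (K4H15.BT.cM (ρg s)) (K4H15.BT.cM (ρh s)) α
  -- the property of the subgroups
  have hAP : ∀ ℋ : Subgroup 𝒢, (∀ x ∈ ℋ, Good x) →
      ∀ i, AllPairs p (M i) (a i) (b i) (N i) (A i) T χ (R i) (ψ i) ℋ := by
    intro ℋ hℋ i F _ _ _ _ hcl ρg ρh hirr
    refine hConc i F ρg ρh ?_
    have hgK : IsGalois K F := IsGalois.tower_top_of_isGalois ℚ K F
    have hor : ∃ ρ1 ρ2 : (F ≃ₐ[ℚ] F) →* GL (Fin 2) ℂ, K4H15.BZ.Irr ρ1 ∧
        ∀ s α, (1 - α • K4H15.BT.cM (tensor ρg ρh s)).det =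
        K4H15.BZ.kp (K4H15.BT.cM (ρ1 s)).trace (K4H15.BT.cM (ρ1 s)).det
          (K4H15.BT.cM (ρ2 s)).trace (K4H15.BT.cM (ρ2 s)).det α := by
      rcases hirr with h7 | h7
      · exact ⟨ρg, ρh, h7, hρ0 F ρg ρh⟩
      · exact ⟨ρh, ρg, h7, fun s α => by rw [hρ0, K4H15.BZ.kp_swap]⟩
    obtain ⟨ρ1, ρ2, hirr1, hρ1⟩ := hor
    choose gg hgg uu hgl using hcl.reciprocity
    obtain ⟨b1, χ1, hb1⟩ := K4H15.BZ.exists_eig' hcl.abelian (ρ1.comp (R431.B.inc K F))
    obtain ⟨b2, χ2, hb2⟩ := K4H15.BZ.exists_eig' hcl.abelian (ρ2.comp (R431.B.inc K F))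
    obtain ⟨l, l1, l2, l3, l4⟩ := H92T.an_mainG (ρg := ρ1) (ρh := ρ2) h hcl.abelian
      (P := fun v => 2 * (4 * (a i : 𝓞 K) ^ 3 + 27 * (b i : 𝓞 K) ^ 2) ∉ v.asIdeal)
      (fun v hv => hv)
      (fun φ => ⟨T (gg φ) ∪ R i (uu φ), fun x => χ (gg φ) x * ψ i (uu φ) x, hPX i _ _,
        hlaw F _ _ φ (by convert hgl φ)⟩)
      hb1 hb2 (X' := fun j x => χ (gg (χ1 0 * χ2 j)) x * ψ i (uu (χ1 0 * χ2 j)) x)
      (fun j x => H92T.CP_norm ((hCGX i).ch (gg (χ1 0 * χ2 j), uu (χ1 0 * χ2 j))) x)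
      (T'' := (T (gg (χ1 0 * χ2 0)) ∪ R i (uu (χ1 0 * χ2 0))) ∪
        (T (gg (χ1 0 * χ2 1)) ∪ R i (uu (χ1 0 * χ2 1))))
      (fun v hv => by
        rcases Finset.mem_union.1 hv with h8 | h8
        · exact hPX i _ _ v h8
        · exact hPX i _ _ v h8)
      (fun j v hv t ht => by
        rw [Finset.mem_union, not_or] at hv
        refine hlaw F (T (gg (χ1 0 * χ2 j)) ∪ R i (uu (χ1 0 * χ2 j))) _ _
          (by convert hgl (χ1 0 * χ2 j)) v ?_ t ht
        fin_cases j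
        · exact hv.1
        · exact hv.2)
      (fun j => hnv _ (hℋ _ (hgg _)) i _) (hmi i) (hE i) (hur' i) rfl (hA' i)
      (fun p hp w hw => (hbc i p hp w hw).1) (fun p hp w hw => (hbc i p hp w hw).2)
      (fun s hs => K4H15.BY.trace_irr' h hcl.abelian hirr1 s hs) hρ1
    exact ⟨l, ⟨l1, fun V hV s hs => l2 V hV s hs⟩, l3, l4⟩
  have hτσ : ∀ z : 𝓞 K, σ (K4H55.BD.tau h z : 𝓞 K) = (starRingEnd ℂ) (σ z) := fun z =>
    K4H55.BD.sg_tau h z
  -- the property of the pairs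
  have hTP : ∀ γ : 𝒢 →* 𝒢, IsConjugation σ χ γ →
      (∀ i, ∃ γ' : Ψ i → Ψ i, IsConjugation σ (ψ i) γ') → ∀ x y : 𝒢,
      Good (x * y) → Good (x * γ y) →
      ∀ i, ThetaPair p (M i) (a i) (b i) (N i) (A i) T χ (R i) (ψ i) x y := by
    intro γ hγ hγ' x y h1 h2 i u u' F _ _ _ _ hcl ρg ρh hg hh
    refine hConc i F ρg ρh ?_
    have hgK : IsGalois K F := IsGalois.tower_top_of_isGalois ℚ K F
    obtain ⟨γ', hγ'⟩ := hγ' i
    choose gg hgg uu hgl using hcl.reciprocity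
    have hth : ∀ (ρ : (F ≃ₐ[ℚ] F) →* GL (Fin 2) ℂ) (x : 𝒢) (u : Ψ i),
        IsTheta T χ (R i) (ψ i) ρ x u →
        H92.Th K (fun z : 𝒢 × Ψ i => T z.1 ∪ R i z.2) (fun z x => χ z.1 x * ψ i z.2 x) ρ (x, u) := by
      rintro ρ x u ⟨h3, φ, w, hw, h4, h5⟩
      exact ⟨h3, φ, w, hw, h4, hlaw F _ _ φ (by convert h5)⟩
    obtain ⟨l, l1, l2, l3, l4⟩ := H92T.pair_mainG (ρg := ρg) (ρh := ρh) h hcl.abelian
      (P := fun v => 2 * (4 * (a i : 𝓞 K) ^ 3 + 27 * (b i : 𝓞 K) ^ 2) ∉ v.asIdeal)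
      (fun v hv => hv)
      (fun φ => ⟨T (gg φ) ∪ R i (uu φ), fun x => χ (gg φ) x * ψ i (uu φ) x, hPX i _ _,
        hlaw F _ _ φ (by convert hgl φ)⟩)
      (hCGX i) (fun z v hv => hPX i z.1 z.2 v hv)
      (γ := fun z => (γ z.1, γ' z.2)) (fun z x => by
        show χ (γ z.1) x * ψ i (γ' z.2) x = _
        rw [hγ z.1 x _ (hτσ x), hγ' z.2 x _ (hτσ x)])
      (hth ρg x u hg) (hth ρh y u' hh)
      (fun z hz => by
        rcases hz with hz | hz
        · rw [hz]; exact hnv _ h1 i _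
        · rw [Set.mem_singleton_iff.1 hz]; exact hnv _ h2 i _)
      (hmi i) (hE i) (hur' i) rfl (hA' i)
      (fun p hp w hw => (hbc i p hp w hw).1) (fun p hp w hw => (hbc i p hp w hw).2)
      (hρ0 F ρg ρh)
    exact ⟨l, ⟨l1, fun V hV s hs => l2 V hV s hs⟩, l3, l4⟩
  refine ⟨fun Δ hΔf hΔd => ?_, fun γ hγ hγ' => ?_⟩
  · -- the automorphisms
    obtain ⟨τ, i0, hτ0, hτΔ⟩ : ∃ (τ : Fin (d + 4) → 𝒢 →* 𝒢) (i0 : Fin (d + 4)),
        (∀ x, τ i0 x = x) ∧ ∀ s ∈ Δ, ∀ i, ∃ j, ∀ x, (s : 𝒢 ≃* 𝒢) (τ i x) = τ j x := by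
      have : Fintype Δ := Fintype.ofFinite Δ
      have hpos : 0 < Nat.card Δ := Nat.card_pos
      obtain ⟨f, hf⟩ : ∃ f : Fin (d + 4) → Δ, Function.Surjective f := by
        have e1 : Δ ≃ Fin (Nat.card Δ) := Finite.equivFin Δ
        refine ⟨fun i => if hi : (i : ℕ) < Nat.card Δ then e1.symm ⟨i, hi⟩ else 1, fun s => ?_⟩
        refine ⟨⟨(e1 s : ℕ), lt_of_lt_of_le (e1 s).2 (by omega)⟩, ?_⟩
        beta_reduce
        rw [dif_pos (e1 s).2]
        exact e1.symm_apply_apply s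
      obtain ⟨i0, hi0⟩ := hf 1
      refine ⟨fun i => ((f i : MulAut 𝒢) : 𝒢 ≃* 𝒢).toMonoidHom, i0, fun x => ?_, fun s hs i => ?_⟩
      · show (f i0 : MulAut 𝒢) x = x
        rw [hi0]
        rfl
      · obtain ⟨j, hj⟩ := hf (⟨s, hs⟩ * f i)
        refine ⟨j, fun x => ?_⟩
        show s ((f i : MulAut 𝒢) x) = (f j : MulAut 𝒢) x
        rw [hj]
        rfl
    have hmain : ∀ g : ℕ → 𝒢, ∃ I : ℕ → Finset ℕ,
        (∀ k, (I k).Nonempty ∧ I k ⊆ Finset.Ico (B k) (B (k + 1))) ∧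
        ∃ ℋ : Subgroup 𝒢, Subgroup.closure (Set.range fun k => ∏ j ∈ I k, g j) ≤ ℋ ∧
          (∀ s ∈ Δ, ∀ x ∈ ℋ, s x ∈ ℋ) ∧ ∀ x ∈ ℋ, Good x := by
      intro g
      obtain ⟨I, hI1, hI2⟩ := hB 𝒢 T χ hCG hχ.exponent hadm τ g
      exact ⟨I, hI1, H92.clo τ g I, H92.clo_le τ g I i0 hτ0,
        fun s hs x hx => H92.clo_stable τ g I s.toMonoidHom (hτΔ s hs) hx, hI2⟩
    obtain ⟨φ, hφ1, hφ2⟩ := Pool.Agent.Y683.CG.sub_exists (e := p ^ e) (pow_pos hp.pos e) B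
      (⊤ : Subgroup 𝒢) (fun g _ => hχ.exponent g)
    obtain ⟨I, hI1, ℋ, hI2, hI3, hI4⟩ := hmain φ
    obtain ⟨-, h4, h5⟩ := hφ2 I hI1
    refine ⟨fun g => ?_, fun hinf => ⟨ℋ, ?_, hI3, fun x hx => (hI4 x hx).1, hAP ℋ hI4⟩,
      fun t ht => ⟨ℋ, ?_, hI3, fun x hx => (hI4 x hx).1, hAP ℋ hI4⟩⟩
    · obtain ⟨I, hI1, ℋ, hI2, hI3, hI4⟩ := hmain g
      refine ⟨I, fun k => ⟨(hI1 k).1, fun j hj => Finset.mem_Ico.1 ((hI1 k).2 hj)⟩, ℋ,
        fun k => hI2 (Subgroup.subset_closure ⟨k, rfl⟩), hI3, fun x hx => (hI4 x hx).1, hAP ℋ hI4⟩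
    · have h6 := h4 (by
        have e1 := (Subgroup.topEquiv (G := 𝒢)).toEquiv
        exact e1.infinite_iff.2 hinf)
      exact Infinite.of_injective _ (Subgroup.inclusion_injective hI2)
    · have h7 : 0 < Nat.card 𝒢 := lt_of_le_of_lt (Nat.zero_le _) ht
      have hfin : Finite 𝒢 := Nat.finite_of_card_ne_zero h7.ne'
      refine (h5 t ?_).trans (Nat.card_le_card_of_injective _ (Subgroup.inclusion_injective hI2))
      rw [Subgroup.card_top, ← pow_mul]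
      exact ht
  · -- the pairs
    let T2 : 𝒢 × 𝒢 → Finset (HeightOneSpectrum (𝓞 K)) := fun x => T (x.1 * x.2)
    let χ2 : 𝒢 × 𝒢 → 𝓞 K → ℂ := fun x => χ (x.1 * x.2)
    have hCG2 : H92P.CGp T2 χ2 := by
      refine ⟨fun g => hCG.ch _, fun g g' x h1 h2 => ?_⟩
      show χ (g.1 * g'.1 * (g.2 * g'.2)) x = _
      rw [mul_mul_mul_comm]
      exact hCG.mul _ _ x h1 h2
    let τ : Fin (d + 4) → 𝒢 × 𝒢 →* 𝒢 × 𝒢 := fun j =>
      if (j : ℕ) = 0 then MonoidHom.id _ else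
      if (j : ℕ) = 1 then (MonoidHom.fst 𝒢 𝒢).prod (γ.comp (MonoidHom.snd 𝒢 𝒢)) else
      if (j : ℕ) = 2 then (MonoidHom.fst 𝒢 𝒢).prod 1 else (MonoidHom.snd 𝒢 𝒢).prod 1
    have hcov : ∃ 𝒦 : Finset (𝒢 × 𝒢), 𝒦.card ≤ 2 ^ B 1 ∧ ∀ g : 𝒢 × 𝒢, ∃ k ∈ 𝒦,
        GoodPair p M a b N A T χ R ψ S (g * k).1 (g * k).2 := by
      refine H92.syndetic (fun x : 𝒢 × 𝒢 => GoodPair p M a b N A T χ R ψ S x.1 x.2) (B 1)
        (fun g => ?_)
      obtain ⟨I, hI1, hI2⟩ := hB (𝒢 × 𝒢) T2 χ2 hCG2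
        (fun g => Prod.ext (hχ.exponent g.1) (hχ.exponent g.2))
        (fun g v hv => hadm _ v hv) τ g
      have hmem : ∀ j : Fin (d + 4), Good ((τ j (∏ j ∈ I 0, g j)).1 * (τ j (∏ j ∈ I 0, g j)).2) :=
        fun j => hI2 (τ j (∏ j ∈ I 0, g j)) (Subgroup.subset_closure ⟨j, 0, rfl⟩)
      have hτ0 : ∀ x, τ ⟨0, by omega⟩ x = x := fun x => by
        show (if (0 : ℕ) = 0 then MonoidHom.id _ else _ : 𝒢 × 𝒢 →* 𝒢 × 𝒢) x = x
        rw [if_pos rfl]
        rfl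
      have hτ1 : ∀ x, τ ⟨1, by omega⟩ x = (x.1, γ x.2) := fun x => by
        show (if (1 : ℕ) = 0 then _ else if (1 : ℕ) = 1 then
          (MonoidHom.fst 𝒢 𝒢).prod (γ.comp (MonoidHom.snd 𝒢 𝒢)) else _ : 𝒢 × 𝒢 →* 𝒢 × 𝒢) x = _
        rw [if_neg (by omega), if_pos rfl]
        rfl
      have hτ2 : ∀ x, τ ⟨2, by omega⟩ x = (x.1, 1) := fun x => by
        show (if (2 : ℕ) = 0 then _ else if (2 : ℕ) = 1 then _ else if (2 : ℕ) = 2 then
          (MonoidHom.fst 𝒢 𝒢).prod 1 else _ : 𝒢 × 𝒢 →* 𝒢 × 𝒢) x = _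
        rw [if_neg (by omega), if_neg (by omega), if_pos rfl]
        rfl
      have hτ3 : ∀ x, τ ⟨3, by omega⟩ x = (x.2, 1) := fun x => by
        show (if (3 : ℕ) = 0 then _ else if (3 : ℕ) = 1 then _ else if (3 : ℕ) = 2 then
          _ else (MonoidHom.snd 𝒢 𝒢).prod 1 : 𝒢 × 𝒢 →* 𝒢 × 𝒢) x = _
        rw [if_neg (by omega), if_neg (by omega), if_neg (by omega)]
        rfl
      set y := ∏ j ∈ I 0, g j with hy
      have h0 := hmem ⟨0, by omega⟩
      have h1 := hmem ⟨1, by omega⟩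
      have h2 := hmem ⟨2, by omega⟩
      have h3 := hmem ⟨3, by omega⟩
      rw [hτ0] at h0
      rw [hτ1] at h1
      rw [hτ2] at h2
      rw [hτ3] at h3
      have h2' : Good y.1 := by
        have e : y.1 * 1 = y.1 := mul_one _
        rw [← e]
        exact h2
      have h3' : Good y.2 := by
        have e : y.2 * 1 = y.2 := mul_one _
        rw [← e]
        exact h3
      exact ⟨I 0, (hI1 0).1, fun j hj => Finset.mem_range.2 (Finset.mem_Ico.1 ((hI1 0).2 hj)).2,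
        fun v hv => ⟨h2'.1 v hv, h3'.1 v hv⟩, hTP γ hγ hγ' _ _ h0 h1⟩
    obtain ⟨𝒦, hK1, hK2⟩ := hcov
    refine ⟨⟨𝒦, hK1, fun g g' => hK2 (g, g')⟩, ?_⟩
    exact H92T.count_pairs hCG hχ.injective (pow_pos hp.pos e) hχ.exponent
      (fun x => GoodPair p M a b N A T χ R ψ S x.1 x.2) 𝒦 hK2

end Pool.Agent.Results.MP_60ff09_nt.PairsOverAbelianBases
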