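import Pool.Agent.H92T.Cnt
import Pool.Agent.H92P.BiaVP
import Pool.Agent.H92.HB.Prs

/-!
# Beilinson's conjecture for pairs of forms of weight one, and Tate-Shafarevich groups of any finite order

`E_i : y² = x³ + a_i x + b_i`, `i = 1, …, m`, are elliptic curves over `ℚ` with the newforms `f_i`, and `K` is an imaginary
quadratic field of class number one in which the prime divisors of the `2(4a_i³ + 27b_i²)` are unramified.  Suppose that
`L(E_i/K, 1) ≠ 0`.  (So `E_i(K)` and `Ш(E_i/K)` are finite, by the theorem of Kolyvagin.)  Let `p` be any prime number that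
does not divide `#E_i(K)`.  A place `v ∤ 2p(4a_i³ + 27b_i²)` of `K` is admissible if `N(v) ≡ 1 mod p` and `p ∤ #E_i(𝓞/v)`.
The group `𝒢` is any group, finite or infinite, of characters `χ` of `K` of exponent `p^e` (`e` is arbitrary) whose
conductors are products of different admissible places; `𝒮` is the subgroup of the `χ` with `χ(v) = 1` for the
`v ∣ 2p(4a_i³ + 27b_i²)`, and `𝓛` is the field of all the characters in `𝒮`.

Theorem.  (1) There are bounds `B(0) < B(1) < …`, which depend only on the `E_i`, `K`, `p`, `e` and `d`, such that for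
every group `Δ` of at most `d` automorphisms of `𝒢`, from every sequence `χ_0, χ_1, …` in `𝒢` one gets elements of a
`Δ`-stable subgroup `ℋ` of `𝒮`, as products `∏_{j ∈ I_k} χ_j` over certain nonempty sets `I_k` of indices in
`[B(k), B(k + 1))`, `k ≥ 0`, with the following property.  For all finite `𝓕 ≤ ℋ` whose field `F` is Galois over `ℚ` (that
is, which are stable under complex conjugation; if `Δ` contains the complex conjugation, every element of `ℋ` is in such an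
`𝓕`), and for all `i`, the group `E_i(F)` is finite and Beilinson's equality is true for `f_i` and ALL pairs
`(g, h)` of forms of weight one, one of them a cusp form, whose Artin representations are representations of `Gal(F/ℚ)`:

`ord_{s = 1} L(f_i ⊗ g ⊗ h, s) = dim Hom(V_gh, E_i(F) ⊗ ℂ) = 0`.

(2), (3) The group `ℋ` can be chosen infinite if `𝒢` is infinite, and of order at least `t` if `𝒢` has more than
`p^(e B(t))` elements.
(4) If `𝒢` is stable under complex conjugation, at most `2^B(1)` translates cover `𝒢 × 𝒢` of the set of the good pairs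
`(χ, χ')`: those for which the group generated by `χ`, `χ'` and their complex conjugates is in `𝒮` and has the property
above; in particular Beilinson's equality is true for `f_i` and the theta series `g` of `χ` and `h` of `χ'` (if one of them is
a cusp form).  So if `𝒢` is finite at least `2^(-B(1)) (#𝒢)²` pairs are good; and (5) for a `C` and all `X` the number of the
pairs in `𝒢 × 𝒢` with conductors of norm at most `X` is at most `C` times the number of the good pairs with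
conductors of norm at most `C X`.

In the earlier results the finiteness of `E_i(F)`, and so Beilinson's equality, is known only if the `p`-Selmer group of
`E_i/K` is trivial (`Ш(E_i/K)[p] = 0`); for `p = 2` also only if `E_i(K)[2] = 0` and the discriminants and the field of the
points of order `2` satisfy conditions (`ThetaPairsProportion`, `PairsOverAbelianBases`; the library's `DihedralTwoPower`,
`AbelianTwoPairs`).  Here `Ш(E_i/K)[p^∞]` is any finite group.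

The proof.  The nonvanishing of the `L(E_i ⊗ χ, 1)` and the finiteness of the `E_i(F)` are, as in
`Pool.Agent.Results.MP_1a91b9_nt.BianchiPropagation`, consequences of theorems of Ramsey type; for (4) they are applied to
`𝒢 × 𝒢` and the endomorphisms which take `(χ, χ')` to `(χ, 1)`, `(χ', 1)`, `(conj χ, 1)`, `(conj χ', 1)` and `(1, 1)`
(`Pool.Agent.H92.HB.ramQ2`).  The `L`-function of `f ⊗ g ⊗ h` is, up to finitely many Euler factors, the product of two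
functions `L(E ⊗ ω, s)` over `K` (`Pool.Agent.H92T.an_mainG`, after helper15's `K4H15.BY.an_main'`).
-/

set_option autoImplicit false

open NumberField IsDedekindDomain Matrix WeierstrassCurve Filter Topology
open scoped TensorProduct Kronecker

namespace Pool.Agent.Results.MP_60ff09_nt.PairsPropagation

/-- `K` is an imaginary quadratic field, `σ` is one of its two embeddings in `ℂ`, and `δ` generates the
different of `K`: an `x ∈ K` is in `𝓞` if and only if `Tr(x y / δ) ∈ ℤ` for all `y ∈ 𝓞`. -/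
structure IsFieldData (K : Type) [Field K] [NumberField K] (σ : K →+* ℂ) (δ : K) : Prop where
  quadratic : Module.finrank ℚ K = 2
  imaginary : ∃ x, (starRingEnd ℂ) (σ x) ≠ σ x
  different : ∀ x : K, (∃ a : 𝓞 K, (a : K) = x) ↔
    ∀ y : 𝓞 K, ∃ m : ℤ, Algebra.trace ℚ K (x * y / δ) = m

/-- `h(y) = ∫_0^∞ exp(-1/v - y v) dv = 2 y^(-1/2) K₁(2 √y)`, with the Bessel function `K₁`. -/
noncomputable def bessel (y : ℝ) : ℝ := ∫ v in Set.Ioi (0 : ℝ), Real.exp (-(1 / v) - y * v)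

/-- The additive character `e(z) = exp(2πi (z/δ + conj (z/δ)))` of `ℂ`, trivial on `𝓞`. -/
noncomputable def addChar (δ z : ℂ) : ℂ :=
  Complex.exp (2 * Real.pi * Complex.I * (z / δ + (starRingEnd ℂ) (z / δ)))

/-- The denominator `|c z + d|² + |c|² t²` of the action of the matrix `(a, b; c, d)` on the hyperbolic
space `{(z, t) : z ∈ ℂ, t > 0}`. -/
noncomputable def den (c d z : ℂ) (t : ℝ) : ℝ := ‖c * z + d‖ ^ 2 + ‖c‖ ^ 2 * t ^ 2

/-- The first coordinate `((a z + b) conj (c z + d) + a conj(c) t²) / (|c z + d|² + |c|² t²)` of the image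
of `(z, t)` under the matrix `(a, b; c, d)`. -/
noncomputable def actZ (a b c d z : ℂ) (t : ℝ) : ℂ :=
  ((a * z + b) * (starRingEnd ℂ) (c * z + d) + a * (starRingEnd ℂ) c * (t : ℂ) ^ 2) /
    (den c d z t : ℂ)

/-- The second coordinate, for a matrix of determinant one; in general it is `|ad - bc|` times this. -/
noncomputable def actT (c d z : ℂ) (t : ℝ) : ℝ := t / den c d z t

section field
variable {K : Type} [Field K] [NumberField K]

/-- The function `Φ(z, t) = ∑_{x ∈ 𝓞} c((x)) t² h(N(x) (2πt/|δ|)²) e(x z)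
  = (|δ|/π) ∑_{x ≠ 0} (c((x))/|x|) t K₁(4π|x|t/|δ|) e(x z)` on the hyperbolic space, with the coefficients `c`.
Up to a constant factor it is the primitive, zero at the cusp `∞`, of the harmonic differential of the
form of weight two with the Fourier coefficients `c`: its derivative by `t` is
`-4 ∑_{x ≠ 0} c((x)) t K₀(4π|x|t/|δ|) e(x z)`. -/
noncomputable def primitive (σ : K →+* ℂ) (δ : K) (c : Ideal (𝓞 K) → ℂ) (z : ℂ) (t : ℝ) : ℂ :=
  ∑' x : 𝓞 K, c (Ideal.span {x}) * ((t ^ 2 * bessel (Ideal.absNorm (Ideal.span {x}) *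
    (2 * Real.pi * t / ‖σ δ‖) ^ 2) : ℝ) : ℂ) * addChar (σ δ) (σ x * z)

/-- The numbers `c(I)` are the Hecke eigenvalues of a Bianchi newform `f` of weight two, level `(n)` and
trivial character over `K`: they satisfy `c(𝓞) = 1`, the (trivial) bound `c(I) = O(N(I))` and the Hecke
relations `c(v I) = c(v) c(I)` for `v ∤ I`, `c(v² I) = c(v) c(v I) - N(v) c(I)` for the primes `v ∤ n`, and
`c(v I) = c(v) c(I)` for `v ∣ n`; the differential `dΦ` of the function `Φ` with the coefficients `c` is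
invariant under `Γ₀(n)`, that is, `Φ(γ P) - Φ(P)` is a constant for every `γ ∈ Γ₀(n)`; and `dΦ` is an
eigenform, with the eigenvalue `±1`, of the Fricke involution `W = (0, -1; n, 0)`. -/
structure IsNewform (σ : K →+* ℂ) (δ : K) (n : 𝓞 K) (c : Ideal (𝓞 K) → ℂ) : Prop where
  level : n ≠ 0
  zero : c ⊥ = 0
  one : c ⊤ = 1
  bound : ∃ C : ℝ, ∀ I, ‖c I‖ ≤ C * Ideal.absNorm I
  good : ∀ v : HeightOneSpectrum (𝓞 K), n ∉ v.asIdeal → ∀ I,
    (¬ v.asIdeal ∣ I → c (v.asIdeal * I) = c v.asIdeal * c I) ∧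
    c (v.asIdeal * (v.asIdeal * I)) = c v.asIdeal * c (v.asIdeal * I) -
      Ideal.absNorm v.asIdeal * c I
  bad : ∀ v : HeightOneSpectrum (𝓞 K), n ∈ v.asIdeal → ∀ I,
    c (v.asIdeal * I) = c v.asIdeal * c I
  invariant : ∃ κ : SpecialLinearGroup (Fin 2) (𝓞 K) → ℂ,
    ∀ γ : SpecialLinearGroup (Fin 2) (𝓞 K), n ∣ γ.1 1 0 → ∀ (z : ℂ) (t : ℝ), 0 < t →
      primitive σ δ c (actZ (σ (γ.1 0 0)) (σ (γ.1 0 1)) (σ (γ.1 1 0)) (σ (γ.1 1 1)) z t)
        (actT (σ (γ.1 1 0)) (σ (γ.1 1 1)) z t) = primitive σ δ c z t + κ γ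
  fricke : ∃ w κ : ℂ, w * w = 1 ∧ ∀ (z : ℂ) (t : ℝ), 0 < t →
    primitive σ δ c (actZ 0 (-1) (σ n) 0 z t) (‖σ n‖ * actT (σ n) 0 z t) =
      -w * primitive σ δ c z t + κ

/-- The number of the affine points of `y² = x³ + a x + b` over the residue field of `v`. -/
noncomputable def points (a b : 𝓞 K) (v : HeightOneSpectrum (𝓞 K)) : ℕ :=
  Nat.card {x : (𝓞 K ⧸ v.asIdeal) × (𝓞 K ⧸ v.asIdeal) //
    x.2 ^ 2 = x.1 ^ 3 + (Ideal.Quotient.mk v.asIdeal a) * x.1 + (Ideal.Quotient.mk v.asIdeal b)}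

/-- `f` is the newform of `E : y² = x³ + a x + b`: for `v ∤ 2(4a³ + 27b²)` (so that `E` has good reduction at `v`)
the level is prime to `v` and `c(v) = N(v) + 1 - #E(𝓞/v)`. -/
def IsNewformOf (a b n : 𝓞 K) (c : Ideal (𝓞 K) → ℂ) : Prop :=
  ∀ v : HeightOneSpectrum (𝓞 K), 2 * (4 * a ^ 3 + 27 * b ^ 2) ∉ v.asIdeal →
    n ∉ v.asIdeal ∧ c v.asIdeal = (Ideal.absNorm v.asIdeal : ℂ) - points a b v

/-- The admissible places: `v ∤ 2p(4a³ + 27b²)`, `N(v) ≡ 1 mod p`, and `#E(𝓞/v)` (with the point at infinity) is prime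
to `p`. -/
def Admissible (p : ℕ) (a b : 𝓞 K) (v : HeightOneSpectrum (𝓞 K)) : Prop :=
  2 * p * (4 * a ^ 3 + 27 * b ^ 2) ∉ v.asIdeal ∧ Ideal.absNorm v.asIdeal ≡ 1 [MOD p] ∧
    ¬ p ∣ points a b v + 1

/-- `χ` is a character of `K` of `p`-power order and of conductor `∏_{v ∈ T} v`, as a function on `𝓞` (`K` has class
number one): a primitive character modulo the product of the `v ∈ T`, trivial on the units, and zero on the `x` which
are not prime to the conductor. -/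
structure IsCharacter (p : ℕ) (T : Finset (HeightOneSpectrum (𝓞 K))) (χ : 𝓞 K → ℂ) : Prop where
  one : χ 1 = 1
  mul : ∀ x y, χ (x * y) = χ x * χ y
  zero : ∀ x, χ x = 0 ↔ ∃ v ∈ T, x ∈ v.asIdeal
  periodic : ∀ x y, (∀ v ∈ T, x - y ∈ v.asIdeal) → χ x = χ y
  units : ∀ u, IsUnit u → χ u = 1
  primitive : ∀ v ∈ T, ∃ x, (∀ v' ∈ T, v' ≠ v → x - 1 ∈ v'.asIdeal) ∧ χ x ≠ 0 ∧ χ x ≠ 1
  order : ∃ k : ℕ, ∀ x, χ x ≠ 0 → χ x ^ p ^ k = 1

open Classical in
/-- The numbers `a_v` of `E`: `N(v) + 1 - #E(𝓞/v)` for `v ∤ 2(4a³ + 27b²)`, and the eigenvalues of `f` for the others. -/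
noncomputable def coeff (a b : 𝓞 K) (c : Ideal (𝓞 K) → ℂ) (v : HeightOneSpectrum (𝓞 K)) : ℂ :=
  if 2 * (4 * a ^ 3 + 27 * b ^ 2) ∈ v.asIdeal then c v.asIdeal
  else (Ideal.absNorm v.asIdeal : ℂ) - points a b v

/-- The norm of the conductor `∏_{v ∈ T} v`. -/
noncomputable def conductorNorm (T : Finset (HeightOneSpectrum (𝓞 K))) : ℕ :=
  ∏ v ∈ T, Ideal.absNorm v.asIdeal

open Classical in
/-- The Bianchi form with the Hecke eigenvalues `c` is the base change to `K` of the newform with the Fourier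
coefficients `A` of level `N`: `c(v) = A(p)` if `N(v) = p`, and if `N(v) = p²` then `c(v) = A(p)² - 2p`, or
`A(p)²` if `p ∣ N`. -/
def IsBaseChange (N : ℕ) (A : ℕ → ℂ) (c : Ideal (𝓞 K) → ℂ) : Prop :=
  ∀ p : ℕ, p.Prime → ∀ v : HeightOneSpectrum (𝓞 K), (p : 𝓞 K) ∈ v.asIdeal →
    (Ideal.absNorm v.asIdeal = p → c v.asIdeal = A p) ∧
    (Ideal.absNorm v.asIdeal = p ^ 2 → c v.asIdeal = A p ^ 2 - (if p ∣ N then 0 else 2 * (p : ℂ)))

variable (K) in
/-- The prime divisors of `2(4a³ + 27b²)` are unramified in `K`. -/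
def Unramified (a b : ℤ) : Prop :=
  ∀ p : ℕ, p.Prime → (p : ℤ) ∣ 2 * (4 * a ^ 3 + 27 * b ^ 2) → ∀ v : HeightOneSpectrum (𝓞 K),
    (p : 𝓞 K) ∈ v.asIdeal → (p : 𝓞 K) ∉ v.asIdeal ^ 2

/-- `χ(v)` is the value of `χ` at a generator of `v`. -/
noncomputable def at' (χ : 𝓞 K → ℂ) (v : HeightOneSpectrum (𝓞 K)) [IsPrincipalIdealRing (𝓞 K)] : ℂ :=
  χ (Submodule.IsPrincipal.generator v.asIdeal)

open Classical in
/-- The Euler factor `(1 - a_v N(v)^(-s) + N(v)^(1-2s))⁻¹` of `L(E/K, s)` at `v`, without the last term if `v` divides the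
level. -/
noncomputable def factorK (a b n : 𝓞 K) (c : Ideal (𝓞 K) → ℂ) (s : ℂ)
    (v : HeightOneSpectrum (𝓞 K)) : ℂ :=
  (1 - coeff a b c v * (Ideal.absNorm v.asIdeal : ℂ) ^ (-s) +
    (if n ∈ v.asIdeal then 0 else (Ideal.absNorm v.asIdeal : ℂ) ^ (1 - 2 * s)))⁻¹

/-- `G` is `L(E/K, s)`, continued to an entire function. -/
def IsLFunctionK (a b n : 𝓞 K) (c : Ideal (𝓞 K) → ℂ) (G : ℂ → ℂ) : Prop :=
  Differentiable ℂ G ∧ ∀ s : ℂ, 2 < s.re → HasProd (factorK a b n c s) (G s)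

variable [IsPrincipalIdealRing (𝓞 K)]

section extension

variable (F : Type) [Field F] [NumberField F] [Algebra K F]

/-- The places `u` of `F` above `v`. -/
def Above (v : HeightOneSpectrum (𝓞 K)) : Type :=
  {u : HeightOneSpectrum (𝓞 F) // u.asIdeal.comap (algebraMap (𝓞 K) (𝓞 F)) = v.asIdeal}

omit [IsPrincipalIdealRing (𝓞 K)] in
/-- `F/K` is a finite Galois extension of `p`-power degree, unramified outside of the admissible places of `K`, and the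
places `v ∣ 2p(4a³ + 27b²)` split completely in `F` (there is an embedding of `F` in `K_v`). -/
structure IsPExtension (p : ℕ) (a b : 𝓞 K) : Prop where
  galois : IsGalois K F
  degree : ∃ k : ℕ, Module.finrank K F = p ^ k
  split : ∀ v : HeightOneSpectrum (𝓞 K), 2 * p * (4 * a ^ 3 + 27 * b ^ 2) ∈ v.asIdeal →
    Nonempty (F →ₐ[K] v.adicCompletion K)
  unramified : ∀ v : HeightOneSpectrum (𝓞 K), 2 * p * (4 * a ^ 3 + 27 * b ^ 2) ∉ v.asIdeal →
    ¬ Admissible p a b v → ∀ u : Above F v, ∀ x : K,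
      u.1.valuation F (algebraMap K F x) = v.valuation K x

/-- The law of reciprocity for the character `φ` of `Gal(F/K)` and the character `χ` of `K` of conductor `∏_{v ∈ T} v`:
`φ(t) = χ(v)` for all places `v ∉ T` of `K` and all Frobenius automorphisms `t ∈ Gal(F/K)` at places of `F` above `v`. -/
def Law (T : Finset (HeightOneSpectrum (𝓞 K))) (χ : 𝓞 K → ℂ) (φ : (F ≃ₐ[K] F) →* ℂ) : Prop :=
  ∀ v : HeightOneSpectrum (𝓞 K), v ∉ T → ∀ (u : Above F v) (t : F ≃ₐ[K] F),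
    (∀ x : 𝓞 F, t • x - x ^ Ideal.absNorm v.asIdeal ∈ u.1.asIdeal) →
    φ t = χ (Submodule.IsPrincipal.generator v.asIdeal)

end extension

section group

variable {𝒢 : Type} [CommGroup 𝒢]

omit [IsPrincipalIdealRing (𝓞 K)] in
/-- `𝒢` is a group of characters `χ_g` of `K` of exponent `p^e`, of conductors `∏_{v ∈ T_g} v` which are products of
different places, admissible for all the curves `E_i : y² = x³ + a_i x + b_i`: the product `χ_g χ_h` is the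
primitive character `χ_(gh)`. -/
structure IsCharacterGroup (p : ℕ) {m : ℕ} (a b : Fin m → 𝓞 K) (e : ℕ)
    (T : 𝒢 → Finset (HeightOneSpectrum (𝓞 K))) (χ : 𝒢 → 𝓞 K → ℂ) : Prop where
  character : ∀ g, IsCharacter p (T g) (χ g)
  admissible : ∀ g, ∀ v ∈ T g, ∀ i, Admissible p (a i) (b i) v
  injective : Function.Injective χ
  product : ∀ g h x, χ g x ≠ 0 → χ h x ≠ 0 → χ (g * h) x = χ g x * χ h x
  exponent : ∀ g : 𝒢, g ^ p ^ e = 1

omit [IsPrincipalIdealRing (𝓞 K)] [CommGroup 𝒢] in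
/-- `γ` is the complex conjugation of the characters `χ_g`: `χ_(γ g)(z) = χ_g(z')` for the conjugate `z'` of `z`. -/
def IsConjugation (σ : K →+* ℂ) (χ : 𝒢 → 𝓞 K → ℂ) (γ : 𝒢 → 𝒢) : Prop :=
  ∀ g, ∀ z z' : 𝓞 K, σ z' = (starRingEnd ℂ) (σ z) → χ (γ g) z = χ g z'

/-- `F` is the class field of the finite group `𝓕` of characters `χ_g`: the order of `𝓕` is the degree of `F`, `Gal(F/K)` is
abelian, and each of its characters `φ` is, by the law of reciprocity, one of the characters `χ_g`, `g ∈ 𝓕`. -/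
structure IsClassField (F : Type) [Field F] [NumberField F] [Algebra K F]
    (T : 𝒢 → Finset (HeightOneSpectrum (𝓞 K))) (χ : 𝒢 → 𝓞 K → ℂ) (𝓕 : Subgroup 𝒢) : Prop where
  order : Nat.card 𝓕 = Module.finrank K F
  abelian : ∀ s t : F ≃ₐ[K] F, s * t = t * s
  reciprocity : ∀ φ : (F ≃ₐ[K] F) →* ℂ, ∃ g ∈ 𝓕, Law F (T g) (χ g) φ

end group

section tower

variable {𝒢 𝓛 : Type} [CommGroup 𝒢] [Field 𝓛] [Algebra K 𝓛]

omit [NumberField K] [IsPrincipalIdealRing (𝓞 K)] in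
/-- For a homomorphism `κ` from a group `𝒮` (of characters `χ_g` of `K`) to the group of the characters of `Gal(𝓛/K)` and for a
subgroup `𝓕` of `𝒮`: the field of the elements of `𝓛` fixed by the `σ` with `κ_g(σ) = 1` for all `g ∈ 𝓕`. -/
noncomputable def ClassField {𝒮 : Type} [CommGroup 𝒮] (κ : 𝒮 →* ((𝓛 ≃ₐ[K] 𝓛) →* ℂˣ))
    (𝓕 : Subgroup 𝒮) : IntermediateField K 𝓛 :=
  IntermediateField.fixedField
    { carrier := {σ : 𝓛 ≃ₐ[K] 𝓛 | ∀ g ∈ 𝓕, κ g σ = 1}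
      one_mem' := fun g _ => map_one _
      mul_mem' := fun {σ τ} hσ hτ g hg => by rw [map_mul, hσ g hg, hτ g hg, one_mul]
      inv_mem' := fun {σ} hσ g hg => by rw [map_inv, hσ g hg, inv_one] }

/-- `𝒮` is the group of the `g ∈ 𝒢` for which `χ_g(v) = 1` for the places `v ∣ 2p(4a_i³ + 27b_i²)`; `𝓛` is the field of all these
characters, and `κ` sends `g` to the character `χ_g` as a character of `Gal(𝓛/K)`: that is, for all finite subgroups `𝓕`
of `𝒮`, the field of `𝓕` is the class field of `𝓕`. -/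
structure IsTower (p : ℕ) {m : ℕ} (a b : Fin m → 𝓞 K) (T : 𝒢 → Finset (HeightOneSpectrum (𝓞 K)))
    (χ : 𝒢 → 𝓞 K → ℂ) (𝒮 : Subgroup 𝒢) (κ : 𝒮 →* ((𝓛 ≃ₐ[K] 𝓛) →* ℂˣ)) : Prop where
  mem : ∀ g, g ∈ 𝒮 ↔ ∀ (i : Fin m) (v : HeightOneSpectrum (𝓞 K)),
    2 * p * (4 * a i ^ 3 + 27 * b i ^ 2) ∈ v.asIdeal → at' (χ g) v = 1
  galois : IsGalois K 𝓛
  field : ∀ 𝓕 : Subgroup 𝒮, Finite 𝓕 → ∃ _ : NumberField (ClassField κ 𝓕),
    IsClassField (ClassField κ 𝓕) T χ (𝓕.map 𝒮.subtype) ∧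
      ∀ i, IsPExtension (ClassField κ 𝓕) p (a i) (b i)

end tower

end field

/-- The number of the affine points of `y² = x³ + a x + b` over `𝔽_p`. -/
noncomputable def pts (a b : ℤ) (p : ℕ) : ℕ :=
  Nat.card {x : ZMod p × ZMod p // x.2 ^ 2 = x.1 ^ 3 + (a : ZMod p) * x.1 + (b : ZMod p)}

/-- `A(p)` are the Fourier coefficients at the prime numbers of the newform of level `N` of the curve
`y² = x³ + a x + b` over `ℚ`: for `p ∤ 2(4a³ + 27b²)`, `p` does not divide `N` and `A(p) = p + 1 - #E(𝔽_p)`. -/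
def IsNewformOfQ (a b : ℤ) (N : ℕ) (A : ℕ → ℂ) : Prop :=
  ∀ p : ℕ, p.Prime → ¬ (p : ℤ) ∣ 2 * (4 * a ^ 3 + 27 * b ^ 2) →
    ¬ p ∣ N ∧ A p = (p : ℂ) - pts a b p

/-- The curve `E : y² = x³ + a x + b` over `ℚ`. -/
def curve (a b : ℤ) : WeierstrassCurve ℚ := ⟨0, 0, 0, a, b⟩

section rep

variable {F : Type} [Field F] [NumberField F]

/-- The Frobenius automorphisms at the place `v` of `F`: the automorphisms `σ` of `F` with
`σ x = x ^ p` modulo `v` for all the integers `x` of `F`, where `p` is the prime number below `v`.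
They are a coset of the inertia group of `v`. -/
def FrobSet (v : HeightOneSpectrum (𝓞 F)) : Set (F ≃ₐ[ℚ] F) :=
  {σ | IsArithFrobAt ℤ σ v.asIdeal}

/-- The Kronecker product of matrices, as a homomorphism of monoids. -/
noncomputable def kron : Matrix (Fin 2) (Fin 2) ℂ × Matrix (Fin 2) (Fin 2) ℂ →*
    Matrix (Fin 2 × Fin 2) (Fin 2 × Fin 2) ℂ where
  toFun A := A.1 ⊗ₖ A.2
  map_one' := Matrix.one_kronecker_one
  map_mul' A B := Matrix.mul_kronecker_mul A.1 B.1 A.2 B.2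

/-- `ρ_g ⊗ ρ_h`, by the Kronecker products of matrices. -/
noncomputable def tensor (ρ ρ' : (F ≃ₐ[ℚ] F) →* GL (Fin 2) ℂ) :
    (F ≃ₐ[ℚ] F) →* GL (Fin 2 × Fin 2) ℂ :=
  (Units.map kron).comp (MulEquiv.prodUnits.symm.toMonoidHom.comp (ρ.prod ρ'))

/-- `ρ` is irreducible: its matrices have no common eigenvector. -/
def Irreducible {G : Type} [Group G] (ρ : G →* GL (Fin 2) ℂ) : Prop :=
  ∀ x : Fin 2 → ℂ, x ≠ 0 →
    ¬ ∀ σ, ∃ l : ℂ, (ρ σ : Matrix (Fin 2) (Fin 2) ℂ).mulVec x = l • x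

variable {κ : Type} [Fintype κ] [DecidableEq κ] (ρ : (F ≃ₐ[ℚ] F) →* GL κ ℂ)

/-- The action of the Frobenius automorphism at `v` on the vectors of `V = ℂ^κ` fixed by the inertia
group of `v`, extended by zero: the average of the matrices `ρ(σ)` over all the Frobenius
automorphisms `σ` at `v`. -/
noncomputable def frob (v : HeightOneSpectrum (𝓞 F)) : Matrix κ κ ℂ :=
  (Nat.card (FrobSet v) : ℂ)⁻¹ • ∑ᶠ σ : FrobSet v, (ρ σ.1 : Matrix κ κ ℂ)

/-- The Euler factor of `L(V_f ⊗ V, s)` at the prime number `p`, where `v` is a place of `F` above `p`: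
`det (1 - A(p) p^(-s) Φ + p^(1 - 2 s) Φ²)⁻¹` for `Φ = frob ρ v`, without the last term if `p ∣ N`.  (The fields
`F` of the theorem are unramified at the `p ∣ N`.) -/
noncomputable def euler (A : ℕ → ℂ) (N : ℕ) (v : HeightOneSpectrum (𝓞 F)) (s : ℂ) (p : ℕ) : ℂ :=
  (1 - (A p * (p : ℂ) ^ (-s)) • frob ρ v +
    (if p ∣ N then 0 else (p : ℂ) ^ (1 - 2 * s)) • frob ρ v ^ 2).det⁻¹

/-- `L` is a meromorphic function on `ℂ`, and for `Re s > 2` it is `L(V_f ⊗ V, s)`, the product of the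
Euler factors at all the prime numbers (for any choice of the places above them). -/
def IsLFunction (A : ℕ → ℂ) (N : ℕ) (L : ℂ → ℂ) : Prop :=
  MeromorphicOn L Set.univ ∧
    ∀ V : Nat.Primes → HeightOneSpectrum (𝓞 F),
      (∀ p : Nat.Primes, ((p : ℕ) : 𝓞 F) ∈ (V p).asIdeal) → ∀ s : ℂ, 2 < s.re →
      HasProd (fun p : Nat.Primes => euler ρ A N (V p) s p) (L s)

variable (F) in
/-- The group `E(F)`. -/
abbrev Pts (a b : ℤ) : Type := ((curve a b).map (algebraMap ℚ F)).toAffine.Point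

open Classical in
/-- The action of the automorphism `σ` on `E(F)`. -/
noncomputable def act (a b : ℤ) (σ : F ≃ₐ[ℚ] F) : Pts F a b →+ Pts F a b :=
  Affine.Point.map (W' := (curve a b).toAffine) (σ : F →ₐ[ℚ] F)

end rep

/-- For a representation `ρ` of the group `G` on `V = ℂ^κ` and an action `α` of `G` on the abelian group
`A`: the linear map `φ : V → A ⊗ ℂ` commutes with `G`. -/
def IsHom {G κ A : Type} [Group G] [Fintype κ] [DecidableEq κ] [AddCommGroup A]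
    (ρ : G →* GL κ ℂ) (α : G → A →+ A) (φ : (κ → ℂ) →ₗ[ℂ] (ℂ ⊗[ℤ] A)) : Prop :=
  ∀ (σ : G) (v : κ → ℂ),
    φ ((ρ σ : Matrix κ κ ℂ).mulVec v) = (α σ).toIntLinearMap.baseChange ℂ (φ v)

section hom

variable {G κ A : Type} [Group G] [Fintype κ] [DecidableEq κ] [AddCommGroup A]
  (ρ : G →* GL κ ℂ) (α : G → A →+ A)

theorem IsHom.zero : IsHom ρ α 0 := fun σ v => by simp

variable {ρ α} in
theorem IsHom.add {φ ψ : (κ → ℂ) →ₗ[ℂ] (ℂ ⊗[ℤ] A)} (h : IsHom ρ α φ) (h' : IsHom ρ α ψ) :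
    IsHom ρ α (φ + ψ) := fun σ v => by
  rw [LinearMap.add_apply, LinearMap.add_apply, h σ v, h' σ v, map_add]

variable {ρ α} in
theorem IsHom.smul (a : ℂ) {φ : (κ → ℂ) →ₗ[ℂ] (ℂ ⊗[ℤ] A)} (h : IsHom ρ α φ) :
    IsHom ρ α (a • φ) := fun σ v => by
  rw [LinearMap.smul_apply, LinearMap.smul_apply, h σ v, map_smul]

/-- `Hom_G(V, A ⊗ ℂ)`, the space of the linear maps which commute with the action of `G`. -/
noncomputable def homs : Submodule ℂ ((κ → ℂ) →ₗ[ℂ] (ℂ ⊗[ℤ] A)) where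
  carrier := {φ | IsHom ρ α φ}
  zero_mem' := IsHom.zero ρ α
  add_mem' := IsHom.add
  smul_mem' := IsHom.smul

/-- The dimension of `Hom_G(V, A ⊗ ℂ)`. -/
noncomputable def dimHom : ℕ := Module.finrank ℂ (homs ρ α)

theorem homs_zero [Finite A] : homs ρ α = ⊥ := by
  have h1 : ∀ x : ℂ ⊗[ℤ] A, x = 0 := by
    intro x
    induction x using TensorProduct.induction_on with
    | zero => rfl
    | tmul a P =>
      have hN : (Nat.card A : ℂ) ≠ 0 := by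
        have : 0 < Nat.card A := Nat.card_pos
        exact_mod_cast this.ne'
      have h2 : Nat.card A • P = 0 := card_nsmul_eq_zero'
      have h3 : a = (Nat.card A : ℤ) • (a * (Nat.card A : ℂ)⁻¹) := by
        rw [zsmul_eq_mul]
        push_cast
        field_simp
      rw [h3, TensorProduct.smul_tmul, natCast_zsmul, h2, TensorProduct.tmul_zero]
    | add x y hx hy => rw [hx, hy, add_zero]
  rw [eq_bot_iff]
  intro φ _
  rw [Submodule.mem_bot]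
  exact LinearMap.ext fun v => h1 _

theorem dimHom_zero [Finite A] : dimHom ρ α = 0 := by
  unfold dimHom
  rw [homs_zero]
  exact finrank_bot ℂ _

end hom

section pairs

variable (F : Type) [Field F] [NumberField F]

/-- `L(f ⊗ g ⊗ h, s)` has a meromorphic continuation to `ℂ` which is analytic and not zero at `s = 1`. -/
def NonVanishing (N : ℕ) (A : ℕ → ℂ) (ρg ρh : (F ≃ₐ[ℚ] F) →* GL (Fin 2) ℂ) : Prop :=
  ∃ L : ℂ → ℂ, IsLFunction (tensor ρg ρh) A N L ∧ AnalyticAt ℂ L 1 ∧ L 1 ≠ 0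

open Classical in
/-- Beilinson's equality for `(f, g, h)`, with both sides zero: `L(f ⊗ g ⊗ h, s)` has a meromorphic continuation
that is analytic at `s = 1`, and its order there is `dim Hom(V_gh, E(F) ⊗ ℂ)` and zero. -/
def Equality (a b : ℤ) (N : ℕ) (A : ℕ → ℂ) (ρg ρh : (F ≃ₐ[ℚ] F) →* GL (Fin 2) ℂ) : Prop :=
  ∃ L : ℂ → ℂ, IsLFunction (tensor ρg ρh) A N L ∧ AnalyticAt ℂ L 1 ∧
    analyticOrderAt L 1 = dimHom (tensor ρg ρh) (act (F := F) a b) ∧ analyticOrderAt L 1 = 0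

variable {F} in
theorem Equality.of {a b : ℤ} {N : ℕ} {A : ℕ → ℂ} {ρg ρh : (F ≃ₐ[ℚ] F) →* GL (Fin 2) ℂ}
    (hfin : Finite (Pts F a b)) (h : NonVanishing F N A ρg ρh) : Equality F a b N A ρg ρh := by
  classical
  obtain ⟨L, h1, h2, h3⟩ := h
  have h7 := dimHom_zero (A := Pts F a b) (tensor ρg ρh) (act (F := F) a b)
  have h8 : analyticOrderAt L 1 = 0 := analyticOrderAt_eq_zero.2 (Or.inr h3)
  refine ⟨L, h1, h2, ?_, h8⟩
  rw [h8, h7]
  rfl

/-- `E(F)` is finite, and Beilinson's equality, with both sides zero, is true for `f` and all the pairs `(g, h)` of forms of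
weight one, one of them a cusp form (irreducible), whose Artin representations are representations of `Gal(F/ℚ)`. -/
def Beilinson (a b : ℤ) (N : ℕ) (A : ℕ → ℂ) : Prop :=
  Finite (Pts F a b) ∧ ∀ ρg ρh : (F ≃ₐ[ℚ] F) →* GL (Fin 2) ℂ, Irreducible ρg ∨ Irreducible ρh →
    Equality F a b N A ρg ρh

/-- `E(K)` is finite of order prime to `p`, and `Ш(E/K)[p^∞]` is finite. -/
def FiniteSelmer (K : Type) [Field K] [NumberField K] (p : ℕ) (a b : ℤ) : Prop :=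
  Finite (Pts K a b) ∧ ¬ p ∣ Nat.card (Pts K a b) ∧
    Finite {s : Pool.Agent.TH841.NF.D.Sha ((curve a b).map (algebraMap ℚ K)) //
      ∃ i : ℕ, (p ^ i : ℕ) • s = 0}

end pairs

section properties

variable {K : Type} [Field K] [NumberField K] {𝒢 𝓛 : Type} [CommGroup 𝒢] [Field 𝓛] [Algebra K 𝓛]

/-- `ℋ` is in `𝒮`, and for all finite subgroups `𝓕` of `ℋ` whose class field `F` is a Galois extension of `ℚ` and for all `i`,
`E_i(F)` is finite and Beilinson's equality is true for `f_i` and all the pairs of forms of weight one, one of them a cusp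
form, whose Artin representations are representations of `Gal(F/ℚ)`. -/
def AllPairs {m : ℕ} (a b : Fin m → ℤ) (N : Fin m → ℕ) (A : Fin m → ℕ → ℂ) (𝒮 : Subgroup 𝒢)
    (κ : 𝒮 →* ((𝓛 ≃ₐ[K] 𝓛) →* ℂˣ)) (ℋ : Subgroup 𝒢) : Prop :=
  ℋ ≤ 𝒮 ∧ ∀ (𝓕 : Subgroup 𝒮) [NumberField (ClassField κ 𝓕)], Finite 𝓕 → 𝓕.map 𝒮.subtype ≤ ℋ →
    IsGalois ℚ (ClassField κ 𝓕) → ∀ i, Beilinson (ClassField κ 𝓕) (a i) (b i) (N i) (A i)

/-- The pair of the characters `χ_x`, `χ_y` is good: the group generated by the two characters and their complex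
conjugates has the property `AllPairs`.  (The theta series of `χ_x` and `χ_y` belong to representations of `Gal(F/ℚ)`
for the class field `F` of this group, which is Galois over `ℚ`.) -/
def GoodPair {m : ℕ} (a b : Fin m → ℤ) (N : Fin m → ℕ) (A : Fin m → ℕ → ℂ) (𝒮 : Subgroup 𝒢)
    (κ : 𝒮 →* ((𝓛 ≃ₐ[K] 𝓛) →* ℂˣ)) (γ : 𝒢 →* 𝒢) (x y : 𝒢) : Prop :=
  AllPairs a b N A 𝒮 κ (Subgroup.closure {x, y, γ x, γ y})

end properties


/-- Let `K` be an imaginary quadratic field of class number one, `p` a prime number, `E_i : y² = x³ + a_i x + b_i`,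
`i = 1, …, m`, elliptic curves over `ℚ` with the newforms `f_i` of level `N_i` such that the prime divisors of
`2(4a_i³ + 27b_i²)` are unramified in `K`, and suppose that `L(E_i/K, 1) ≠ 0`, that `E_i(K)` is finite of order prime
to `p`, and that `Ш(E_i/K)[p^∞]` is finite.
For all `e` and `d` there is a function `B` with the following properties.  Let `𝒢` be a group, finite or infinite, of
characters of `K` of exponent `p^e` whose conductors are products of different admissible places, `𝒮` its subgroup of the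
characters with `χ(v) = 1` for the `v ∣ 2p(4a_i³ + 27b_i²)`, `𝓛` the field of the characters in `𝒮`, and let `Δ` be a group
of at most `d` automorphisms of `𝒢`.
(1) For every sequence `g_0, g_1, …` in `𝒢` there are nonempty sets `I_k ⊆ [B(k), B(k + 1))` such that the products
`∏_{j ∈ I_k} g_j` are in a `Δ`-stable subgroup `ℋ` of `𝒢` with the property `AllPairs`.
(2) If `𝒢` is infinite it has an infinite `Δ`-stable subgroup `ℋ` with this property.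
(3) If `𝒢` has more than `p^(e B(t))` elements it has a `Δ`-stable subgroup `ℋ` of at least `t` elements with this
property.
(4) If `𝒢` is stable under complex conjugation, then there is a set of at most `2^B(1)` pairs `(k, k')` in
`𝒢 × 𝒢` such that for every pair `(g, g')` one of the pairs `(g k, g' k')` is good.
(5) Under the same condition there is a `C` such that for all `X` the number of the pairs of characters in `𝒢` with
conductors of norm at most `X` is at most `C` times the number of the good pairs with conductors of norm at most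
`C X`. -/
theorem result (K : Type) [Field K] [NumberField K] [IsPrincipalIdealRing (𝓞 K)] (σ : K →+* ℂ)
    (δ : K) (hK : IsFieldData K σ δ) {p : ℕ} (hp : p.Prime) {m : ℕ} (a b : Fin m → ℤ)
    (hΔ : ∀ i, 4 * a i ^ 3 + 27 * b i ^ 2 ≠ 0) (N : Fin m → ℕ) (A : Fin m → ℕ → ℂ)
    (hA : ∀ i, IsNewformOfQ (a i) (b i) (N i) (A i)) (hur : ∀ i, Unramified K (a i) (b i))
    (c : Fin m → Ideal (𝓞 K) → ℂ) (hf : ∀ i, IsNewform σ δ (N i : 𝓞 K) (c i))
    (hE : ∀ i, IsNewformOf (a i : 𝓞 K) (b i : 𝓞 K) (N i : 𝓞 K) (c i))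
    (hbc : ∀ i, IsBaseChange (N i) (A i) (c i))
    (hL : ∀ i, ∃ G : ℂ → ℂ,
      IsLFunctionK (a i : 𝓞 K) (b i : 𝓞 K) (N i : 𝓞 K) (c i) G ∧ G 1 ≠ 0)
    (hS : ∀ i, FiniteSelmer K p (a i) (b i)) (e d : ℕ) :
    ∃ B : ℕ → ℕ, ∀ (𝒢 : Type) [CommGroup 𝒢] (T : 𝒢 → Finset (HeightOneSpectrum (𝓞 K)))
      (χ : 𝒢 → 𝓞 K → ℂ),
      IsCharacterGroup p (fun i => (a i : 𝓞 K)) (fun i => (b i : 𝓞 K)) e T χ →
      ∀ (𝒮 : Subgroup 𝒢) (𝓛 : Type) [Field 𝓛] [Algebra K 𝓛] (κ : 𝒮 →* ((𝓛 ≃ₐ[K] 𝓛) →* ℂˣ)),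
      IsTower p (fun i => (a i : 𝓞 K)) (fun i => (b i : 𝓞 K)) T χ 𝒮 κ →
      (∀ Δ : Subgroup (MulAut 𝒢), Finite Δ → Nat.card Δ ≤ d →
        (∀ g : ℕ → 𝒢, ∃ I : ℕ → Finset ℕ,
          (∀ k, (I k).Nonempty ∧ ∀ j ∈ I k, B k ≤ j ∧ j < B (k + 1)) ∧
          ∃ ℋ : Subgroup 𝒢, (∀ k, ∏ j ∈ I k, g j ∈ ℋ) ∧ (∀ s ∈ Δ, ∀ x ∈ ℋ, s x ∈ ℋ) ∧
            AllPairs a b N A 𝒮 κ ℋ) ∧
        (Infinite 𝒢 → ∃ ℋ : Subgroup 𝒢, Infinite ℋ ∧ (∀ s ∈ Δ, ∀ x ∈ ℋ, s x ∈ ℋ) ∧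
          AllPairs a b N A 𝒮 κ ℋ) ∧
        (∀ t : ℕ, p ^ (e * B t) < Nat.card 𝒢 → ∃ ℋ : Subgroup 𝒢, t ≤ Nat.card ℋ ∧
          (∀ s ∈ Δ, ∀ x ∈ ℋ, s x ∈ ℋ) ∧ AllPairs a b N A 𝒮 κ ℋ)) ∧
      ∀ γ : 𝒢 →* 𝒢, IsConjugation σ χ γ →
        (∃ 𝒦 : Finset (𝒢 × 𝒢), 𝒦.card ≤ 2 ^ B 1 ∧ ∀ g g' : 𝒢, ∃ k ∈ 𝒦,
          GoodPair a b N A 𝒮 κ γ (g * k.1) (g' * k.2)) ∧
        ∃ C : ℕ, ∀ X : ℕ,
          {g : 𝒢 × 𝒢 | conductorNorm (T g.1) ≤ X ∧ conductorNorm (T g.2) ≤ X}.ncard ≤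
          C * {g : 𝒢 × 𝒢 | (conductorNorm (T g.1) ≤ C * X ∧ conductorNorm (T g.2) ≤ C * X) ∧
            GoodPair a b N A 𝒮 κ γ g.1 g.2}.ncard := by
  classical
  have h : K4H55.BI.IQ K σ δ := ⟨hK.quadratic, hK.imaginary, inferInstance, hK.different⟩
  have hf' : ∀ i, K4H55.BI.BF σ δ (N i : 𝓞 K) (c i) := fun i => ⟨(hf i).level, (hf i).zero,
    (hf i).one, (hf i).bound, (hf i).good, (hf i).bad, (hf i).invariant, (hf i).fricke⟩
  have hmi : ∀ i, 2 * (4 * (a i : 𝓞 K) ^ 3 + 27 * (b i : 𝓞 K) ^ 2) =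
      ((2 * (4 * a i ^ 3 + 27 * b i ^ 2) : ℤ) : 𝓞 K) := fun i => by push_cast; rfl
  have hΔ' : ∀ i, 4 * (a i : 𝓞 K) ^ 3 + 27 * (b i : 𝓞 K) ^ 2 ≠ 0 := fun i => by
    exact_mod_cast hΔ i
  have hcoeff : ∀ i, ∀ v : HeightOneSpectrum (𝓞 K),
      coeff (a i : 𝓞 K) (b i : 𝓞 K) (c i) v = c i v.asIdeal := by
    intro i v
    unfold coeff
    split_ifs with h1
    · rfl
    · exact (hE i v h1).2.symm
  have hgd : ∀ i, ∀ v, Admissible p (a i : 𝓞 K) (b i : 𝓞 K) v →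
      2 * (4 * (a i : 𝓞 K) ^ 3 + 27 * (b i : 𝓞 K) ^ 2) ∉ v.asIdeal := by
    intro i v hv h2
    refine hv.1 ?_
    have e : 2 * (p : 𝓞 K) * (4 * (a i : 𝓞 K) ^ 3 + 27 * (b i : 𝓞 K) ^ 2) =
        2 * (4 * (a i : 𝓞 K) ^ 3 + 27 * (b i : 𝓞 K) ^ 2) * p := by
      ring
    rw [e]
    exact v.asIdeal.mul_mem_right _ h2
  have hadm : ∀ i, ∀ v, Admissible p (a i : 𝓞 K) (b i : 𝓞 K) v →
      H92P.Adp p (N i : 𝓞 K) (c i) v := by
    intro i v hv
    have hd := hgd i v hv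
    have h2 : (2 : 𝓞 K) ∉ v.asIdeal := fun h2 => hd (v.asIdeal.mul_mem_right _ h2)
    refine ⟨h2, (hE i v hd).1,
      (Ideal.absNorm v.asIdeal : ℤ) - points (a i : 𝓞 K) (b i : 𝓞 K) v, ?_, ?_⟩
    · rw [(hE i v hd).2]
      push_cast
      ring
    · intro hdvd
      apply hv.2.2
      have h3 : (p : ℤ) ∣ (Ideal.absNorm v.asIdeal : ℤ) - 1 :=
        (Nat.modEq_iff_dvd.1 hv.2.1.symm)
      have h4 : (p : ℤ) ∣ ((points (a i : 𝓞 K) (b i : 𝓞 K) v + 1 : ℕ) : ℤ) := by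
        have h5 := dvd_sub h3 hdvd
        have e : (Ideal.absNorm v.asIdeal : ℤ) - 1 -
            ((Ideal.absNorm v.asIdeal : ℤ) - points (a i : 𝓞 K) (b i : 𝓞 K) v - 2) =
            ((points (a i : 𝓞 K) (b i : 𝓞 K) v + 1 : ℕ) : ℤ) := by
          push_cast
          ring
        rwa [e] at h5
      exact_mod_cast h4
  have hch : ∀ (T : Finset (HeightOneSpectrum (𝓞 K))) (χ : 𝓞 K → ℂ), IsCharacter p T χ →
      H92P.CP T χ := fun T χ h1 =>
    ⟨h1.one, h1.mul, h1.zero, h1.periodic, h1.units, h1.primitive, by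
      obtain ⟨k, hk⟩ := h1.order
      exact ⟨p ^ k, pow_pos hp.pos k, hk⟩⟩
  have hz0 : ∀ i, K4H55.BI.fv (K4H55.BI.ordK h) (fun x => c i (Ideal.span {x})) 0 ≠ 0 := by
    intro i
    obtain ⟨G, ⟨g1, g2⟩, g3⟩ := hL i
    refine H92.fv_ne h (hf' i) g1 (fun s hs => ?_) g3
    have h1 := g2 s hs
    have e : factorK (a i : 𝓞 K) (b i : 𝓞 K) (N i : 𝓞 K) (c i) s =
        K4H55.CX.efx (N i : 𝓞 K) (c i) (fun _ => 1) s := by
      funext v
      unfold factorK K4H55.CX.efx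
      rw [hcoeff]
      simp only [mul_one, one_pow, one_mul]
    rwa [e] at h1
  have hur' : ∀ i, ∀ w : HeightOneSpectrum (𝓞 K),
      2 * (4 * (a i : 𝓞 K) ^ 3 + 27 * (b i : 𝓞 K) ^ 2) ∈ w.asIdeal →
      ∀ p : ℕ, p.Prime → (p : 𝓞 K) ∈ w.asIdeal → (p : 𝓞 K) ∉ w.asIdeal ^ 2 := by
    intro i w hw p hp hpw
    rw [hmi] at hw
    exact hur i p hp ((K4H55.BD.int_mem hp hpw).1 hw) w hpw
  have hA' : ∀ i, ∀ p : ℕ, p.Prime → ¬ (p : ℤ) ∣ 2 * (4 * a i ^ 3 + 27 * b i ^ 2) →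
      ¬ p ∣ N i ∧ ∃ k : ℕ, k ≤ 2 * p ∧ A i p = p - k := by
    intro i p hp hpm
    obtain ⟨h7, h8⟩ := hA i p hp hpm
    have : Fact p.Prime := ⟨hp⟩
    refine ⟨h7, pts (a i) (b i) p, ?_, h8⟩
    have h9 := K4H15.BZ.card_pts (R := ZMod p) (a i : ZMod p) (b i : ZMod p)
    rwa [Nat.card_zmod] at h9
  -- the curves
  have hcurve : ∀ i (F : Type) [Field F] [NumberField F] [Algebra K F],
      (curve (a i) (b i)).map (algebraMap ℚ F) = H92P.cu F (a i : 𝓞 K) (b i : 𝓞 K) := by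
    intro i F _ _ _
    unfold curve H92P.cu WeierstrassCurve.map
    simp
  have hS' : ∀ i, Finite (H92P.cu K (a i : 𝓞 K) (b i : 𝓞 K)).toAffine.Point ∧
      ¬ p ∣ Nat.card (H92P.cu K (a i : 𝓞 K) (b i : 𝓞 K)).toAffine.Point ∧
      Finite {s : Pool.Agent.TH841.NF.D.Sha (H92P.cu K (a i : 𝓞 K) (b i : 𝓞 K)) //
        ∃ i : ℕ, (p ^ i : ℕ) • s = 0} := by
    intro i
    obtain ⟨s1, s2, s3⟩ := hS i
    unfold Pts at s1 s2
    rw [hcurve i K] at s1 s2 s3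
    exact ⟨s1, s2, s3⟩
  obtain ⟨B₁, hB₁⟩ := H92P.ramPp_all (p := p) (b := e) (d := d + 6)
    (fun i => H92P.Adp p (N i : 𝓞 K) (c i))
    (fun i T χ => H92.val h (c i) T (K4H55.CX.br χ) ≠ 0)
    (fun i => H92P.bia_towerp hp h (hf' i) (hz0 i) e (d + 6))
  choose w hw using fun i => H92.HB.card_sha hp (hS' i).2.2
  choose B₂ hB₂ hB₂' using fun i => H92.HB.ramQ2 σ hK.quadratic
    hK.imaginary hp (hΔ' i) (hS' i).1 (hS' i).2.1 (hS' i).2.2 (hw i)
    e (d + 6)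
  obtain ⟨B₃, hB₃⟩ := H92.HB.ramG_all m B₂
  -- the bad places
  let Z : Set (HeightOneSpectrum (𝓞 K)) :=
    {v | ∃ i, 2 * p * (4 * (a i : 𝓞 K) ^ 3 + 27 * (b i : 𝓞 K) ^ 2) ∈ v.asIdeal}
  have hZ : Z.Finite := by
    have h1 : Z = ⋃ i, {v : HeightOneSpectrum (𝓞 K) |
        2 * p * (4 * (a i : 𝓞 K) ^ 3 + 27 * (b i : 𝓞 K) ^ 2) ∈ v.asIdeal} := by
      ext v
      simp only [Z, Set.mem_setOf_eq, Set.mem_iUnion]
    rw [h1]
    refine Set.finite_iUnion fun i => ?_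
    have h2 : (2 * p * (4 * (a i : 𝓞 K) ^ 3 + 27 * (b i : 𝓞 K) ^ 2) : 𝓞 K) ≠ 0 :=
      mul_ne_zero (mul_ne_zero two_ne_zero (Nat.cast_ne_zero.2 hp.ne_zero)) (hΔ' i)
    have h3 : Ideal.span {(2 * p * (4 * (a i : 𝓞 K) ^ 3 + 27 * (b i : 𝓞 K) ^ 2) : 𝓞 K)} ≠ 0 := by
      rw [Ideal.zero_eq_bot, Ne, Ideal.span_singleton_eq_bot]
      exact h2
    refine (Ideal.finite_factors h3).subset fun v hv => ?_
    show v.asIdeal ∣ _
    rw [Ideal.dvd_span_singleton]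
    exact hv
  have hZ2 : (Z ×ˢ (Set.univ : Set Bool)).Finite := hZ.prod Set.finite_univ
  obtain ⟨N', hN⟩ := H92.HB.index_bound (Z ×ˢ (Set.univ : Set Bool)) hZ2 (p ^ e)
    (pow_pos hp.pos e)
  obtain ⟨B₄, hB₄⟩ := H36.HB.idx N' (d + 6)
  let B : ℕ → ℕ := fun k => B₁ (B₃ (B₄ k))
  refine ⟨B, fun 𝒢 _ T χ hχ 𝒮 𝓛 _ _ κ hκ => ?_⟩
  have hCG : H92P.CGp T χ := ⟨fun g => hch _ _ (hχ.character g), hχ.product⟩
  -- the tower
  have hcard𝓕 : ∀ 𝓕 : Subgroup 𝒮, Nat.card (𝓕.map 𝒮.subtype) = Nat.card 𝓕 := fun 𝓕 =>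
    Nat.card_congr (Subgroup.equivMapOfInjective 𝓕 𝒮.subtype 𝒮.subtype_injective).symm.toEquiv
  have hT : ∀ i, H92.HB.Twr κ (a i : 𝓞 K) (b i : 𝓞 K) p e := fun i =>
    ⟨hκ.galois, fun x => Subtype.ext (hχ.exponent x), fun 𝓕 hfin => by
      obtain ⟨hnf, hcf, -⟩ := hκ.field 𝓕 hfin
      rw [← hcard𝓕 𝓕]
      exact hcf.order.symm, fun 𝓕 hfin => by
      obtain ⟨hnf, -, hF⟩ := hκ.field 𝓕 hfin
      exact (hF i).split, fun 𝓕 hfin hnf' w hw => by
      obtain ⟨hnf, -, hF⟩ := hκ.field 𝓕 hfin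
      by_cases h4 : Admissible p (a i : 𝓞 K) (b i : 𝓞 K) (w.under (𝓞 K))
      · exact Or.inl h4.2.2
      · exact Or.inr fun x => (hF i).unramified _ hw h4 ⟨w, rfl⟩ x⟩
  -- the values at the bad places
  have hgen : ∀ v ∈ Z, ∀ g, at' (χ g) v ≠ 0 := by
    intro v hv g h0
    obtain ⟨i, hi⟩ := hv
    obtain ⟨v', hv', h1⟩ := ((hχ.character g).zero _).1 h0
    have h2 : v.asIdeal ≤ v'.asIdeal := by
      rw [← Submodule.IsPrincipal.span_singleton_generator v.asIdeal, Ideal.submodule_span_eq,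
        Ideal.span_singleton_le_iff_mem]
      exact h1
    exact (hχ.admissible g v' hv' i).1 (h2 hi)
  have hmem𝒮 : ∀ g, g ∈ 𝒮 ↔ ∀ v ∈ Z, at' (χ g) v = 1 := fun g => by
    rw [hκ.mem]
    exact ⟨fun h1 v ⟨i, hi⟩ => h1 i v hi, fun h1 i v hi => h1 v ⟨i, hi⟩⟩
  obtain ⟨hi1, hi2⟩ := hN 𝒢 (fun g v => at' (χ g) v.1)
    (fun v hv g => hCG.root g (hχ.exponent g) (hgen v.1 hv.1 g))
    (fun v hv g g' => hχ.product g g' _ (hgen v.1 hv.1 g) (hgen v.1 hv.1 g')) 𝒮 (fun g => by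
      rw [hmem𝒮]
      exact ⟨fun h1 v hv => h1 v.1 hv.1, fun h1 v hv => h1 (v, true) ⟨hv, trivial⟩⟩)
  obtain ⟨hj1, hj2⟩ := hN (𝒢 × 𝒢) (fun g v => if v.2 then at' (χ g.1) v.1 else at' (χ g.2) v.1)
    (fun v hv g => by
      split_ifs
      · exact hCG.root g.1 (hχ.exponent g.1) (hgen v.1 hv.1 g.1)
      · exact hCG.root g.2 (hχ.exponent g.2) (hgen v.1 hv.1 g.2))
    (fun v hv g g' => by
      split_ifs
      · exact hχ.product g.1 g'.1 _ (hgen v.1 hv.1 g.1) (hgen v.1 hv.1 g'.1)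
      · exact hχ.product g.2 g'.2 _ (hgen v.1 hv.1 g.2) (hgen v.1 hv.1 g'.2))
    (𝒮.prod 𝒮) (fun g => by
      rw [Subgroup.mem_prod, hmem𝒮, hmem𝒮]
      constructor
      · rintro ⟨h1, h2⟩ v hv
        split_ifs
        · exact h1 v.1 hv.1
        · exact h2 v.1 hv.1
      · intro h1
        exact ⟨fun v hv => h1 (v, true) ⟨hv, trivial⟩, fun v hv => by
          simpa using h1 (v, false) ⟨hv, trivial⟩⟩)
  -- the values
  have hnv : ∀ x : 𝒢, ∀ i, H92.val h (c i) (T x) (K4H55.CX.br (χ x)) ≠ 0 →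
      ∃ G : ℂ → ℂ, Differentiable ℂ G ∧
        (∀ s : ℂ, 2 < s.re → HasProd (K4H55.CX.efx (N i : 𝓞 K) (c i) (χ x) s) (G s)) ∧ G 1 ≠ 0 :=
    fun x i hx => H92P.chr_nep h (hf' i) (hCG.ch x)
      (fun v hv => hadm i v (hχ.admissible x v hv i)) hx
  have hlaw : ∀ (F : Type) [Field F] [NumberField F] [Algebra K F]
      (T' : Finset (HeightOneSpectrum (𝓞 K))) (X' : 𝓞 K → ℂ) (φ : (F ≃ₐ[K] F) →* ℂ), Law F T' X' φ →
      ∀ v : HeightOneSpectrum (𝓞 F), K4H55.BD.low (K := K) v ∉ T' → ∀ t : F ≃ₐ[K] F,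
        (∀ x : 𝓞 F, t • x - x ^ Ideal.absNorm (K4H55.BD.low (K := K) v).asIdeal ∈ v.asIdeal) →
        φ t = X' (K4H55.BI.gen (K4H55.BD.low (K := K) v)) :=
    fun F _ _ _ T' X' φ h3 u hu t ht => h3 _ hu ⟨u, rfl⟩ t ht
  have hρ0 : ∀ (F : Type) [Field F] [NumberField F] (ρg ρh : (F ≃ₐ[ℚ] F) →* GL (Fin 2) ℂ),
      ∀ s α, (1 - α • K4H15.BT.cM (tensor ρg ρh s)).det =
      K4H15.BZ.kp (K4H15.BT.cM (ρg s)).trace (K4H15.BT.cM (ρg s)).det
        (K4H15.BT.cM (ρh s)).trace (K4H15.BT.cM (ρh s)).det α := fun F _ _ ρg ρh s α =>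
    K4H15.BZ.kron_det (K4H15.BT.cM (ρg s)) (K4H15.BT.cM (ρh s)) α
  have hPX : ∀ i (g : 𝒢), ∀ v ∈ T g,
      2 * (4 * (a i : 𝓞 K) ^ 3 + 27 * (b i : 𝓞 K) ^ 2) ∉ v.asIdeal :=
    fun i g v hv => hgd i v (hχ.admissible g v hv i)
  -- the property of the fields
  have hNV : ∀ (F : Type) [Field F] [NumberField F] [Algebra K F] [IsGalois ℚ F]
      (𝓕 : Subgroup 𝒢), IsClassField F T χ 𝓕 →
      (∀ x ∈ 𝓕, ∀ i, H92.val h (c i) (T x) (K4H55.CX.br (χ x)) ≠ 0) → ∀ i,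
      ∀ ρg ρh : (F ≃ₐ[ℚ] F) →* GL (Fin 2) ℂ, Irreducible ρg ∨ Irreducible ρh →
      NonVanishing F (N i) (A i) ρg ρh := by
    intro F _ _ _ _ 𝓕 hcl h𝓕 i ρg ρh hirr
    have hgK : IsGalois K F := IsGalois.tower_top_of_isGalois ℚ K F
    have hor : ∃ ρ1 ρ2 : (F ≃ₐ[ℚ] F) →* GL (Fin 2) ℂ, K4H15.BZ.Irr ρ1 ∧
        ∀ s α, (1 - α • K4H15.BT.cM (tensor ρg ρh s)).det =
        K4H15.BZ.kp (K4H15.BT.cM (ρ1 s)).trace (K4H15.BT.cM (ρ1 s)).det
          (K4H15.BT.cM (ρ2 s)).trace (K4H15.BT.cM (ρ2 s)).det α := by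
      rcases hirr with h7 | h7
      · exact ⟨ρg, ρh, h7, hρ0 F ρg ρh⟩
      · exact ⟨ρh, ρg, h7, fun s α => by rw [hρ0, K4H15.BZ.kp_swap]⟩
    obtain ⟨ρ1, ρ2, hirr1, hρ1⟩ := hor
    choose gg hgg hgl using hcl.reciprocity
    obtain ⟨b1, χ1, hb1⟩ := K4H15.BZ.exists_eig' hcl.abelian (ρ1.comp (R431.B.inc K F))
    obtain ⟨b2, χ2, hb2⟩ := K4H15.BZ.exists_eig' hcl.abelian (ρ2.comp (R431.B.inc K F))
    obtain ⟨l, l1, l2, l3, l4⟩ := H92T.an_mainG (ρg := ρ1) (ρh := ρ2) h hcl.abelian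
      (P := fun v => 2 * (4 * (a i : 𝓞 K) ^ 3 + 27 * (b i : 𝓞 K) ^ 2) ∉ v.asIdeal)
      (fun v hv => hv)
      (fun φ => ⟨T (gg φ), χ (gg φ), hPX i _, hlaw F _ _ φ (hgl φ)⟩)
      hb1 hb2 (X' := fun j => χ (gg (χ1 0 * χ2 j)))
      (fun j x => H92T.CP_norm (hCG.ch (gg (χ1 0 * χ2 j))) x)
      (T'' := T (gg (χ1 0 * χ2 0)) ∪ T (gg (χ1 0 * χ2 1)))
      (fun v hv => by
        rcases Finset.mem_union.1 hv with h8 | h8
        · exact hPX i _ v h8
        · exact hPX i _ v h8)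
      (fun j v hv t ht => by
        rw [Finset.mem_union, not_or] at hv
        refine hlaw F (T (gg (χ1 0 * χ2 j))) _ _ (hgl (χ1 0 * χ2 j)) v ?_ t ht
        fin_cases j
        · exact hv.1
        · exact hv.2)
      (fun j => hnv _ i (h𝓕 _ (hgg _) i)) (hmi i) (hE i) (hur' i) rfl (hA' i)
      (fun p hp w hw => (hbc i p hp w hw).1) (fun p hp w hw => (hbc i p hp w hw).2)
      (fun s hs => K4H15.BY.trace_irr' h hcl.abelian hirr1 s hs) hρ1
    exact ⟨l, ⟨l1, fun V hV s hs => l2 V hV s hs⟩, l3, l4⟩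
  -- the property of the groups
  have hAP : ∀ ℋ : Subgroup 𝒢, (∀ x ∈ ℋ, ∀ i, H92.val h (c i) (T x) (K4H55.CX.br (χ x)) ≠ 0) →
      (∀ i, ∀ H : Subgroup 𝒮, Finite H → H.map 𝒮.subtype ≤ ℋ →
          ∀ M, H92.HB.QQ κ (a i : 𝓞 K) (b i : 𝓞 K) p (w i) M H) → ℋ ≤ 𝒮 →
        AllPairs a b N A 𝒮 κ ℋ := by
    intro ℋ h1 h2 h3
    refine ⟨h3, fun 𝓕 hnf hfin h𝓕 hgal i => ?_⟩
    obtain ⟨hnf', hcf, hF⟩ := hκ.field 𝓕 hfin
    have hG := (hF i).galois
    have hnfl : NumberField (H92.HB.fld κ 𝓕) := hnf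
    obtain ⟨k, hk⟩ := (hF i).degree
    obtain ⟨g1, -, -, -, -⟩ := H92.HB.finC (k := K) (F := ClassField κ 𝓕) hp
      (pow_pos hp.pos (w i * Nat.card 𝓕)) hk (hΔ' i) (hS' i).1 (hS' i).2.1
      fun M => h2 i 𝓕 hfin h𝓕 M
    have g2 : Finite (Pts (ClassField κ 𝓕) (a i) (b i)) := by
      unfold Pts
      rw [hcurve i (ClassField κ 𝓕)]
      exact g1
    exact ⟨g2, fun ρg ρh hirr => Equality.of g2
      (hNV (ClassField κ 𝓕) _ hcf (fun x hx => h1 x (h𝓕 hx)) i ρg ρh hirr)⟩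
  refine ⟨fun Δ hΔf hΔd => ?_, fun γ hγ => ?_⟩
  · -- the automorphisms
    obtain ⟨τ, i0, hτ0, hτΔ, hττ⟩ : ∃ (τ : Fin (d + 6) → 𝒢 →* 𝒢) (i0 : Fin (d + 6)),
        (∀ x, τ i0 x = x) ∧
        (∀ s ∈ Δ, ∀ i, ∃ j, ∀ x, (s : 𝒢 ≃* 𝒢) (τ i x) = τ j x) ∧
        ∀ i i', ∃ j, ∀ x, τ i (τ i' x) = τ j x := by
      have : Fintype Δ := Fintype.ofFinite Δ
      have hpos : 0 < Nat.card Δ := Nat.card_pos
      obtain ⟨f, hf⟩ : ∃ f : Fin (d + 6) → Δ, Function.Surjective f := by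
        have e1 : Δ ≃ Fin (Nat.card Δ) := Finite.equivFin Δ
        refine ⟨fun i => if hi : (i : ℕ) < Nat.card Δ then e1.symm ⟨i, hi⟩ else 1, fun s => ?_⟩
        refine ⟨⟨(e1 s : ℕ), lt_of_lt_of_le (e1 s).2 (by omega)⟩, ?_⟩
        beta_reduce
        rw [dif_pos (e1 s).2]
        exact e1.symm_apply_apply s
      obtain ⟨i0, hi0⟩ := hf 1
      refine ⟨fun i => ((f i : MulAut 𝒢) : 𝒢 ≃* 𝒢).toMonoidHom, i0, fun x => ?_,
        fun s hs i => ?_, fun i i' => ?_⟩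
      · show (f i0 : MulAut 𝒢) x = x
        rw [hi0]
        rfl
      · obtain ⟨j, hj⟩ := hf (⟨s, hs⟩ * f i)
        refine ⟨j, fun x => ?_⟩
        show s ((f i : MulAut 𝒢) x) = (f j : MulAut 𝒢) x
        rw [hj]
        rfl
      · obtain ⟨j, hj⟩ := hf (f i * f i')
        refine ⟨j, fun x => ?_⟩
        show (f i : MulAut 𝒢) ((f i' : MulAut 𝒢) x) = (f j : MulAut 𝒢) x
        rw [hj]
        rfl
    have hram : H92.HB.RamG τ B fun ℋ =>
        ((∀ x ∈ ℋ, ∀ i, H92.val h (c i) (T x) (K4H55.CX.br (χ x)) ≠ 0) ∧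
          ∀ i, ∀ H : Subgroup 𝒮, Finite H → H.map 𝒮.subtype ≤ ℋ →
            ∀ M, H92.HB.QQ κ (a i : 𝓞 K) (b i : 𝓞 K) p (w i) M H) ∧ ℋ ≤ 𝒮 := by
      refine H92.HB.RamG.and (L := fun k => B₁ (B₃ k)) (L' := B₄) ?_
        (H92.HB.RamG.and (L := B₁) (L' := B₃) ?_ ?_ ?_) ?_
      · rintro H H' hH ⟨h1, h2⟩
        exact ⟨fun x hx => h1 x (hH hx), fun i K hK hK' => h2 i K hK (hK'.trans hH)⟩
      · exact fun H H' hH h1 x hx => h1 x (hH hx)
      · intro g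
        exact hB₁ 𝒢 T χ hCG hχ.exponent (fun g v hv i => hadm i v (hχ.admissible g v hv i)) τ g
      · exact hB₃ 𝒢 (d + 6) τ _ (fun i H H' hH h1 K hK hK' => h1 K hK (hK'.trans hH)) fun i =>
          hB₂ i 𝒢 hχ.exponent 𝒮 𝓛 κ (hT i) τ ⟨i0, hτ0⟩ hττ
      · exact fun g => hB₄ 𝒢 𝒮 hi1 hi2 τ g
    have hmain : ∀ g : ℕ → 𝒢, ∃ I : ℕ → Finset ℕ,
        (∀ k, (I k).Nonempty ∧ I k ⊆ Finset.Ico (B k) (B (k + 1))) ∧
        ∃ ℋ : Subgroup 𝒢, Subgroup.closure (Set.range fun k => ∏ j ∈ I k, g j) ≤ ℋ ∧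
          (∀ s ∈ Δ, ∀ x ∈ ℋ, s x ∈ ℋ) ∧ AllPairs a b N A 𝒮 κ ℋ := by
      intro g
      obtain ⟨I, hI1, ⟨hI2, hI3⟩, hI4⟩ := hram g
      exact ⟨I, hI1, H92.clo τ g I, H92.clo_le τ g I i0 hτ0,
        fun s hs x hx => H92.clo_stable τ g I s.toMonoidHom (hτΔ s hs) hx, hAP _ hI2 hI3 hI4⟩
    obtain ⟨φ, hφ1, hφ2⟩ := Pool.Agent.Y683.CG.sub_exists (e := p ^ e) (pow_pos hp.pos e) B
      (⊤ : Subgroup 𝒢) (fun g _ => hχ.exponent g)
    obtain ⟨I, hI1, ℋ, hI2, hI3, hI4⟩ := hmain φ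
    obtain ⟨-, h4, h5⟩ := hφ2 I hI1
    refine ⟨fun g => ?_, fun hinf => ⟨ℋ, ?_, hI3, hI4⟩, fun t ht => ⟨ℋ, ?_, hI3, hI4⟩⟩
    · obtain ⟨I, hI1, ℋ, hI2, hI3, hI4⟩ := hmain g
      exact ⟨I, fun k => ⟨(hI1 k).1, fun j hj => Finset.mem_Ico.1 ((hI1 k).2 hj)⟩, ℋ,
        fun k => hI2 (Subgroup.subset_closure ⟨k, rfl⟩), hI3, hI4⟩
    · have h6 := h4 (by
        have e1 := (Subgroup.topEquiv (G := 𝒢)).toEquiv
        exact e1.infinite_iff.2 hinf)
      exact Infinite.of_injective _ (Subgroup.inclusion_injective hI2)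
    · have h7 : 0 < Nat.card 𝒢 := lt_of_le_of_lt (Nat.zero_le _) ht
      have hfin : Finite 𝒢 := Nat.finite_of_card_ne_zero h7.ne'
      refine (h5 t ?_).trans (Nat.card_le_card_of_injective _ (Subgroup.inclusion_injective hI2))
      rw [Subgroup.card_top, ← pow_mul]
      exact ht
  · -- the pairs
    have hτσ : ∀ z : 𝓞 K, σ (K4H55.BD.tau h z : 𝓞 K) = (starRingEnd ℂ) (σ z) := fun z =>
      K4H55.BD.sg_tau h z
    have hγγ : ∀ g, γ (γ g) = g := by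
      intro g
      refine hχ.injective (funext fun z => ?_)
      rw [hγ (γ g) z _ (hτσ z), hγ g _ _ (hτσ _)]
      have e1 : K4H55.BD.tau h (K4H55.BD.tau h z) = z := by
        apply RingOfIntegers.ext
        apply σ.injective
        rw [hτσ, hτσ, starRingEnd_self_apply]
      rw [e1]
    let T2 : 𝒢 × 𝒢 → Finset (HeightOneSpectrum (𝓞 K)) := fun x => T (x.1 * x.2)
    let χ2 : 𝒢 × 𝒢 → 𝓞 K → ℂ := fun x => χ (x.1 * x.2)
    have hCG2 : H92P.CGp T2 χ2 := by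
      refine ⟨fun g => hCG.ch _, fun g g' x h1 h2 => ?_⟩
      show χ (g.1 * g'.1 * (g.2 * g'.2)) x = _
      rw [mul_mul_mul_comm]
      exact hCG.mul _ _ x h1 h2
    let u : Fin 6 → 𝒢 × 𝒢 →* 𝒢 × 𝒢 := ![MonoidHom.id _, (MonoidHom.fst 𝒢 𝒢).prod 1,
      (MonoidHom.snd 𝒢 𝒢).prod 1, (γ.comp (MonoidHom.fst 𝒢 𝒢)).prod 1,
      (γ.comp (MonoidHom.snd 𝒢 𝒢)).prod 1, 1]
    let t : Fin 6 → Fin 6 → Fin 6 := ![![0, 1, 2, 3, 4, 5], ![1, 1, 2, 3, 4, 5],
      ![2, 5, 5, 5, 5, 5], ![3, 3, 4, 1, 2, 5], ![4, 5, 5, 5, 5, 5], ![5, 5, 5, 5, 5, 5]]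
    have hut : ∀ i j x, u i (u j x) = u (t i j) x := by
      intro i j x
      fin_cases i <;> fin_cases j <;>
        first
          | rfl
          | exact Prod.ext (hγγ _) rfl
          | exact Prod.ext (map_one γ) rfl
    let cc : Fin (d + 6) → Fin 6 := fun j => if hj : (j : ℕ) < 6 then ⟨j, hj⟩ else 5
    let ss : Fin 6 → Fin (d + 6) := fun j => ⟨j, by omega⟩
    have hcs : ∀ j, cc (ss j) = j := fun j => by
      show (if hj : (j : ℕ) < 6 then (⟨j, hj⟩ : Fin 6) else 5) = j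
      rw [dif_pos j.2]
    let τ : Fin (d + 6) → 𝒢 × 𝒢 →* 𝒢 × 𝒢 := fun j => u (cc j)
    have hτs : ∀ j, τ (ss j) = u j := fun j => by
      show u (cc (ss j)) = u j
      rw [hcs]
    have hτ0 : ∀ x, τ (ss 0) x = x := fun x => by rw [hτs]; rfl
    have hττ : ∀ i j, ∃ k, ∀ x, τ i (τ j x) = τ k x := fun i j =>
      ⟨ss (t (cc i) (cc j)), fun x => by rw [hτs]; exact hut _ _ x⟩
    have hram : H92.HB.RamG τ B fun ℋ =>
        ((∀ x ∈ ℋ, ∀ i, H92.val h (c i) (T (x.1 * x.2)) (K4H55.CX.br (χ (x.1 * x.2))) ≠ 0) ∧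
          ∀ i, ∀ H : Subgroup 𝒮, Finite H →
            (H.map 𝒮.subtype).map (MonoidHom.inl 𝒢 𝒢) ≤ ℋ →
            ∀ M, H92.HB.QQ κ (a i : 𝓞 K) (b i : 𝓞 K) p (w i) M H) ∧ ℋ ≤ 𝒮.prod 𝒮 := by
      refine H92.HB.RamG.and (L := fun k => B₁ (B₃ k)) (L' := B₄) ?_
        (H92.HB.RamG.and (L := B₁) (L' := B₃) ?_ ?_ ?_) ?_
      · rintro H H' hH ⟨h1, h2⟩
        exact ⟨fun x hx => h1 x (hH hx), fun i K hK hK' => h2 i K hK (hK'.trans hH)⟩
      · exact fun H H' hH h1 x hx => h1 x (hH hx)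
      · intro g
        exact hB₁ (𝒢 × 𝒢) T2 χ2 hCG2 (fun g => Prod.ext (hχ.exponent g.1) (hχ.exponent g.2))
          (fun g v hv i => hadm i v (hχ.admissible _ v hv i)) τ g
      · exact hB₃ (𝒢 × 𝒢) (d + 6) τ _
          (fun i H H' hH h1 K hK hK' => h1 K hK (hK'.trans hH)) fun i =>
          hB₂' i 𝒢 hχ.exponent 𝒮 𝓛 κ (hT i) τ ⟨ss 0, hτ0⟩ hττ
      · exact fun g => hB₄ (𝒢 × 𝒢) (𝒮.prod 𝒮) hj1 hj2 τ g
    have hcov : ∃ 𝒦 : Finset (𝒢 × 𝒢), 𝒦.card ≤ 2 ^ B 1 ∧ ∀ g : 𝒢 × 𝒢, ∃ k ∈ 𝒦,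
        GoodPair a b N A 𝒮 κ γ (g * k).1 (g * k).2 := by
      refine H92.syndetic (fun x : 𝒢 × 𝒢 => GoodPair a b N A 𝒮 κ γ x.1 x.2) (B 1) (fun g => ?_)
      obtain ⟨I, hI1, ⟨hI2, hI3⟩, hI4⟩ := hram g
      set y := ∏ j ∈ I 0, g j with hy
      have hmem : ∀ j : Fin 6, u j y ∈ H92.clo τ g I := fun j => by
        rw [← hτs]
        exact Subgroup.subset_closure ⟨ss j, 0, rfl⟩
      have hle : (Subgroup.closure {y.1, y.2, γ y.1, γ y.2}).map (MonoidHom.inl 𝒢 𝒢) ≤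
          H92.clo τ g I := by
        rw [Subgroup.map_le_iff_le_comap, Subgroup.closure_le]
        rintro z (rfl | rfl | rfl | rfl)
        · exact hmem 1
        · exact hmem 2
        · exact hmem 3
        · exact hmem 4
      have hle' : ∀ z ∈ Subgroup.closure {y.1, y.2, γ y.1, γ y.2},
          ((z, 1) : 𝒢 × 𝒢) ∈ H92.clo τ g I := fun z hz => hle ⟨z, hz, rfl⟩
      refine ⟨I 0, (hI1 0).1, fun j hj => Finset.mem_range.2 (Finset.mem_Ico.1 ((hI1 0).2 hj)).2,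
        hAP _ (fun x hx i => ?_) (fun i H hH hH' => ?_) fun z hz => ?_⟩
      · have h1 := hI2 (x, 1) (hle' x hx) i
        rwa [mul_one] at h1
      · exact hI3 i H hH ((Subgroup.map_mono hH').trans hle)
      · exact (Subgroup.mem_prod.1 (hI4 (hle' z hz))).1
    obtain ⟨𝒦, hK1, hK2⟩ := hcov
    refine ⟨⟨𝒦, hK1, fun g g' => hK2 (g, g')⟩, ?_⟩
    exact H92T.count_pairs hCG hχ.injective (pow_pos hp.pos e) hχ.exponent
      (fun x => GoodPair a b N A 𝒮 κ γ x.1 x.2) 𝒦 hK2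

end Pool.Agent.Results.MP_60ff09_nt.PairsPropagation
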