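import Pool.Agent.H92.PairsB
import Pool.Graph.R_pool_sql_team_seeded_c8625f6e.K4H55.CX.Up

/-!
# Beilinson's conjecture for theta series of 2-power order: a positive proportion of all pairs, and groups of characters

`E_i : y² = x³ + a_i x + b_i`, `i = 1, …, m`, are elliptic curves over `ℚ` with the newforms `f_i`, and `K` is an imaginary
quadratic field of class number one in which the prime divisors of the `2(4a_i³ + 27b_i²)` are unramified.  Suppose that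
`L(E_i/K, 1) ≠ 0` and that the `2`-Selmer groups of the `E_i/K` are trivial and `E_i(K)[2] = 0`.  A place
`v ∤ 2(4a_i³ + 27b_i²)` of `K` is admissible if the `x³ + a_i x + b_i` have no roots modulo `v`.  The characters `χ` of `K`
(of `Gal(K^ab/K)`) are those whose order divides `2^e`, for a fixed `e`, and whose conductor is a product of different
admissible places.

Theorem.  There is a number `C = 2^B(1)`, which depends only on the `E_i`, on `K` and on `e`, such that for every group `𝒢`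
of such characters, stable under complex conjugation, finite or infinite, at most `C` translates of the following set
of pairs of characters cover `𝒢 × 𝒢`: the set of all pairs `(χ, ψ)` such that for all `i` the function
`L(f_i ⊗ θ_χ ⊗ θ_ψ, s)` is meromorphic, and analytic and not zero at `s = 1`, and such that for all the Galois extensions
`F ⊇ K` of `ℚ` which are class fields over `K` of characters in `𝒢` and in which the places
`v ∣ 2(4a_i³ + 27b_i²)` of `K` split completely, the group `E_i(F)` is finite and Beilinson's equality holds for the triple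
`(f_i, θ_χ, θ_ψ)` (if `θ_χ`, `θ_ψ` are cusp forms with Artin representations which are trivial on the Galois group of `F`),
with both sides zero:

`ord_{s = 1} L(f ⊗ g ⊗ h, s) = dim Hom(V_gh, E(F) ⊗ ℂ) = 0`.

In particular, for finite `𝒢`, this is true for at least `C⁻¹ (#𝒢)²` of the pairs.

Moreover, there are bounds `B(0) < B(1) < …`, which depend only on the `E_i`, on `K`, on `e` and on a number `d`, such that
for every group `Δ` of at most `d` automorphisms of a group `𝒢` of such characters, from every sequence `χ_0, χ_1, …` in `𝒢`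
one gets elements of a `Δ`-stable subgroup `ℋ` as products `∏_{j ∈ S_k} χ_j` over certain nonempty sets `S_k` of indices
in `[B(k), B(k + 1))`, `k ≥ 0`, such that for the class fields `F` of the characters in `ℋ`, as above, Beilinson's equality
is true for ALL pairs `(g, h)` of forms of weight one whose Artin representations are trivial on the Galois group of
`F` and such that `g` or `h` is a cusp form (`h` can be an Eisenstein series).  The group `ℋ` can be chosen infinite if `𝒢` is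
infinite, and of order at least `t` if `𝒢` has more than `2^(e B(t))` elements.  (For `Δ` one takes, for instance, the group
generated by the complex conjugation.)

The library has this for quadratic characters, for special groups (`AbelianTwoPairs`, towers in `K4H15/Old`), and for all
characters of `2`-power order if the central value of `E/K` is odd (`DihedralTwoPower`).  Here no condition on the central
value is made but `L(E_i/K, 1) ≠ 0`, the order of the characters and the group are arbitrary.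

The proof.  By the theorem of Ramsey type of `Pool.Agent.Results.MP_ec4e4b_nt.BianchiRamsey` for polynomial maps to
finite groups (`Pool.Agent.H92.combI`, `Pool.Agent.H92.towerI`), the numbers `L(E_i ⊗ χ, 1)` are not zero for the
products `∏_{j ∈ S} χ_j` and for their images under given endomorphisms, for some nonempty `S` in any given set of
sufficiently many indices.  This is applied to `𝒢 × 𝒢` with the characters `χ ψ` and the endomorphism
`(χ, ψ) ↦ (χ, ψ')`, where `ψ'` is the conjugate character.  The `L`-function of `f ⊗ θ_χ ⊗ θ_ψ` is, up to finitely many Euler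
factors, the product of the `L(E ⊗ χ ψ, s)` and `L(E ⊗ χ ψ', s)` over `K` (`Pool.Agent.H92.an_mainQ`, the argument of
`Pool.Agent.K4H15.BY.an_main'`).  The finiteness of `E_i(F)` is the descent of helper55 (`K4H55.CX.fin_up`).
-/

set_option autoImplicit false

open NumberField IsDedekindDomain Matrix WeierstrassCurve Filter Topology
open scoped TensorProduct Kronecker

namespace Pool.Agent.Results.MP_60ff09_nt.ThetaPairsProportion

/-- `K` is an imaginary quadratic field, `σ` is one of its two embeddings in `ℂ`, and `δ` generates the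
different of `K`: an `x ∈ K` is in `𝓞` if and only if `Tr(x y / δ) ∈ ℤ` for all `y ∈ 𝓞`. -/
structure IsFieldData (K : Type) [Field K] [NumberField K] (σ : K →+* ℂ) (δ : K) : Prop where
  quadratic : Module.finrank ℚ K = 2
  imaginary : ∃ x, (starRingEnd ℂ) (σ x) ≠ σ x
  different : ∀ x : K, (∃ a : 𝓞 K, (a : K) = x) ↔
    ∀ y : 𝓞 K, ∃ m : ℤ, Algebra.trace ℚ K (x * y / δ) = m

/-- `h(y) = ∫_0^∞ exp(-1/v - y v) dv = 2 y^(-1/2) K₁(2 √y)`, with the Bessel function `K₁`. -/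
noncomputable def bessel (y : ℝ) : ℝ := ∫ v in Set.Ioi (0 : ℝ), Real.exp (-(1 / v) - y * v)

/-- The additive character `e(z) = exp(2πi (z/δ + conj (z/δ)))` of `ℂ`, trivial on `𝓞`. -/
noncomputable def addChar (δ z : ℂ) : ℂ :=
  Complex.exp (2 * Real.pi * Complex.I * (z / δ + (starRingEnd ℂ) (z / δ)))

/-- The denominator `|c z + d|² + |c|² t²` of the action of the matrix `(a, b; c, d)` on the hyperbolic
space `{(z, t) : z ∈ ℂ, t > 0}`. -/
noncomputable def den (c d z : ℂ) (t : ℝ) : ℝ := ‖c * z + d‖ ^ 2 + ‖c‖ ^ 2 * t ^ 2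

/-- The first coordinate `((a z + b) conj (c z + d) + a conj(c) t²) / (|c z + d|² + |c|² t²)` of the image
of `(z, t)` under the matrix `(a, b; c, d)`. -/
noncomputable def actZ (a b c d z : ℂ) (t : ℝ) : ℂ :=
  ((a * z + b) * (starRingEnd ℂ) (c * z + d) + a * (starRingEnd ℂ) c * (t : ℂ) ^ 2) /
    (den c d z t : ℂ)

/-- The second coordinate, for a matrix of determinant one; in general it is `|ad - bc|` times this. -/
noncomputable def actT (c d z : ℂ) (t : ℝ) : ℝ := t / den c d z t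

section field
variable {K : Type} [Field K] [NumberField K]

/-- The function `Φ(z, t) = ∑_{x ∈ 𝓞} c((x)) t² h(N(x) (2πt/|δ|)²) e(x z)
  = (|δ|/π) ∑_{x ≠ 0} (c((x))/|x|) t K₁(4π|x|t/|δ|) e(x z)` on the hyperbolic space, with the coefficients `c`.
Up to a constant factor it is the primitive, zero at the cusp `∞`, of the harmonic differential of the
form of weight two with the Fourier coefficients `c`: its derivative by `t` is
`-4 ∑_{x ≠ 0} c((x)) t K₀(4π|x|t/|δ|) e(x z)`. -/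
noncomputable def primitive (σ : K →+* ℂ) (δ : K) (c : Ideal (𝓞 K) → ℂ) (z : ℂ) (t : ℝ) : ℂ :=
  ∑' x : 𝓞 K, c (Ideal.span {x}) * ((t ^ 2 * bessel (Ideal.absNorm (Ideal.span {x}) *
    (2 * Real.pi * t / ‖σ δ‖) ^ 2) : ℝ) : ℂ) * addChar (σ δ) (σ x * z)

/-- The numbers `c(I)` are the Hecke eigenvalues of a Bianchi newform `f` of weight two, level `(n)` and
trivial character over `K`: they satisfy `c(𝓞) = 1`, the (trivial) bound `c(I) = O(N(I))` and the Hecke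
relations `c(v I) = c(v) c(I)` for `v ∤ I`, `c(v² I) = c(v) c(v I) - N(v) c(I)` for the primes `v ∤ n`, and
`c(v I) = c(v) c(I)` for `v ∣ n`; the differential `dΦ` of the function `Φ` with the coefficients `c` is
invariant under `Γ₀(n)`, that is, `Φ(γ P) - Φ(P)` is a constant for every `γ ∈ Γ₀(n)`; and `dΦ` is an
eigenform, with the eigenvalue `±1`, of the Fricke involution `W = (0, -1; n, 0)`. -/
structure IsNewform (σ : K →+* ℂ) (δ : K) (n : 𝓞 K) (c : Ideal (𝓞 K) → ℂ) : Prop where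
  level : n ≠ 0
  zero : c ⊥ = 0
  one : c ⊤ = 1
  bound : ∃ C : ℝ, ∀ I, ‖c I‖ ≤ C * Ideal.absNorm I
  good : ∀ v : HeightOneSpectrum (𝓞 K), n ∉ v.asIdeal → ∀ I,
    (¬ v.asIdeal ∣ I → c (v.asIdeal * I) = c v.asIdeal * c I) ∧
    c (v.asIdeal * (v.asIdeal * I)) = c v.asIdeal * c (v.asIdeal * I) -
      Ideal.absNorm v.asIdeal * c I
  bad : ∀ v : HeightOneSpectrum (𝓞 K), n ∈ v.asIdeal → ∀ I,
    c (v.asIdeal * I) = c v.asIdeal * c I
  invariant : ∃ κ : SpecialLinearGroup (Fin 2) (𝓞 K) → ℂ,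
    ∀ γ : SpecialLinearGroup (Fin 2) (𝓞 K), n ∣ γ.1 1 0 → ∀ (z : ℂ) (t : ℝ), 0 < t →
      primitive σ δ c (actZ (σ (γ.1 0 0)) (σ (γ.1 0 1)) (σ (γ.1 1 0)) (σ (γ.1 1 1)) z t)
        (actT (σ (γ.1 1 0)) (σ (γ.1 1 1)) z t) = primitive σ δ c z t + κ γ
  fricke : ∃ w κ : ℂ, w * w = 1 ∧ ∀ (z : ℂ) (t : ℝ), 0 < t →
    primitive σ δ c (actZ 0 (-1) (σ n) 0 z t) (‖σ n‖ * actT (σ n) 0 z t) =
      -w * primitive σ δ c z t + κ

/-- The number of the affine points of `y² = x³ + a x + b` over the residue field of `v`. -/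
noncomputable def points (a b : 𝓞 K) (v : HeightOneSpectrum (𝓞 K)) : ℕ :=
  Nat.card {x : (𝓞 K ⧸ v.asIdeal) × (𝓞 K ⧸ v.asIdeal) //
    x.2 ^ 2 = x.1 ^ 3 + (Ideal.Quotient.mk v.asIdeal a) * x.1 + (Ideal.Quotient.mk v.asIdeal b)}

/-- `f` is the newform of `E : y² = x³ + a x + b`: for `v ∤ 2(4a³ + 27b²)` (so that `E` has good reduction at `v`)
the level is prime to `v` and `c(v) = N(v) + 1 - #E(𝓞/v)`. -/
def IsNewformOf (a b n : 𝓞 K) (c : Ideal (𝓞 K) → ℂ) : Prop :=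
  ∀ v : HeightOneSpectrum (𝓞 K), 2 * (4 * a ^ 3 + 27 * b ^ 2) ∉ v.asIdeal →
    n ∉ v.asIdeal ∧ c v.asIdeal = (Ideal.absNorm v.asIdeal : ℂ) - points a b v

section selmer
variable {L : Type} [Field L] [NumberField L] [Algebra K L]

/-- `L = K(θ)` is the cubic field of `E`: `θ³ + a θ + b = 0`, and every element of `L` is `u + v θ + w θ²` for
unique `u, v, w ∈ K`.  So `x³ + a x + b` is irreducible over `K`, that is, `E(K)[2] = 0`. -/
structure IsCubicField (a b : 𝓞 K) (θ : L) : Prop where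
  root : θ ^ 3 + algebraMap K L a * θ + algebraMap K L b = 0
  basis : ∀ β : L, ∃! t : K × K × K,
    β = algebraMap K L t.1 + algebraMap K L t.2.1 * θ + algebraMap K L t.2.2 * θ ^ 2

/-- The class of `α` in `(K_v ⊗ L)^×` modulo squares is in the group generated by the images of the points
`(x, y)`, `y ≠ 0`, of `E(K_v)` under the Kummer map `(x, y) ↦ x - θ`.  (This group is the image of `E(K_v)/2E(K_v)`, as
the map is a homomorphism and all classes contain points with `y ≠ 0`.) -/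
def LocalCondition (a b : 𝓞 K) (θ : L) (v : HeightOneSpectrum (𝓞 K)) (α : L) : Prop :=
  ∃ s : List (v.adicCompletion K),
    (∀ x ∈ s, ∃ y : v.adicCompletion K, y ≠ 0 ∧
      y ^ 2 = x ^ 3 + algebraMap K (v.adicCompletion K) a * x +
        algebraMap K (v.adicCompletion K) b) ∧
    IsSquare (((1 : v.adicCompletion K) ⊗ₜ[K] α) *
      (s.map fun x => x ⊗ₜ[K] (1 : L) - 1 ⊗ₜ[K] θ).prod)

/-- The `2`-Selmer group of `E/K` is trivial.  As `E(K)[2] = 0` and `K` has no real places, it is the group of the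
classes of `α ∈ L^×` modulo squares such that the norm of `α` is a square, `w(α)` is even for all places
`w ∤ 2(4a³ + 27b²)` of `L`, and `α` satisfies the local conditions at the places `v ∣ 2(4a³ + 27b²)` of `K`. -/
def TrivialSelmer (a b : 𝓞 K) (θ : L) : Prop :=
  ∀ α : L, α ≠ 0 → IsSquare (Algebra.norm K α) →
    (∀ w : HeightOneSpectrum (𝓞 L), algebraMap (𝓞 K) (𝓞 L) (2 * (4 * a ^ 3 + 27 * b ^ 2)) ∉
      w.asIdeal → IsSquare (w.valuation L α)) →
    (∀ v : HeightOneSpectrum (𝓞 K), 2 * (4 * a ^ 3 + 27 * b ^ 2) ∈ v.asIdeal →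
      LocalCondition a b θ v α) → IsSquare α

end selmer

/-- The admissible places: `v ∤ 2(4a³ + 27b²)`, and `x³ + a x + b` has no root modulo `v`. -/
def Admissible (a b : 𝓞 K) (v : HeightOneSpectrum (𝓞 K)) : Prop :=
  2 * (4 * a ^ 3 + 27 * b ^ 2) ∉ v.asIdeal ∧ ∀ x : 𝓞 K, x ^ 3 + a * x + b ∉ v.asIdeal

/-- `χ` is a character of `K` of `2`-power order and of conductor `∏_{v ∈ T} v`, as a function on `𝓞` (`K` has class
number one): a primitive character modulo the product of the `v ∈ T`, trivial on the units, and zero on the `x` which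
are not prime to the conductor. -/
structure IsCharacter (T : Finset (HeightOneSpectrum (𝓞 K))) (χ : 𝓞 K → ℂ) : Prop where
  one : χ 1 = 1
  mul : ∀ x y, χ (x * y) = χ x * χ y
  zero : ∀ x, χ x = 0 ↔ ∃ v ∈ T, x ∈ v.asIdeal
  periodic : ∀ x y, (∀ v ∈ T, x - y ∈ v.asIdeal) → χ x = χ y
  units : ∀ u, IsUnit u → χ u = 1
  primitive : ∀ v ∈ T, ∃ x, (∀ v' ∈ T, v' ≠ v → x - 1 ∈ v'.asIdeal) ∧ χ x ≠ 0 ∧ χ x ≠ 1
  order : ∃ k : ℕ, ∀ x, χ x ≠ 0 → χ x ^ 2 ^ k = 1

open Classical in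
/-- The numbers `a_v` of `E`: `N(v) + 1 - #E(𝓞/v)` for `v ∤ 2(4a³ + 27b²)`, and the eigenvalues of `f` for the others. -/
noncomputable def coeff (a b : 𝓞 K) (c : Ideal (𝓞 K) → ℂ) (v : HeightOneSpectrum (𝓞 K)) : ℂ :=
  if 2 * (4 * a ^ 3 + 27 * b ^ 2) ∈ v.asIdeal then c v.asIdeal
  else (Ideal.absNorm v.asIdeal : ℂ) - points a b v

/-- `χ(v)` is the value of `χ` at a generator of `v`. -/
noncomputable def at' (χ : 𝓞 K → ℂ) (v : HeightOneSpectrum (𝓞 K)) [IsPrincipalIdealRing (𝓞 K)] : ℂ :=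
  χ (Submodule.IsPrincipal.generator v.asIdeal)

open Classical in
/-- The Euler factor `(1 - a_v χ(v) N(v)^(-s) + χ(v)² N(v)^(1-2s))⁻¹` of `L(E ⊗ χ, s)` at `v`, without the last term if
`v` divides the level. -/
noncomputable def factor [IsPrincipalIdealRing (𝓞 K)] (a b n : 𝓞 K) (c : Ideal (𝓞 K) → ℂ) (χ : 𝓞 K → ℂ) (s : ℂ)
    (v : HeightOneSpectrum (𝓞 K)) : ℂ :=
  (1 - coeff a b c v * at' χ v * (Ideal.absNorm v.asIdeal : ℂ) ^ (-s) +
    (if n ∈ v.asIdeal then 0 else at' χ v ^ 2 * (Ideal.absNorm v.asIdeal : ℂ) ^ (1 - 2 * s)))⁻¹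

/-- `G` is the `L`-function of `E ⊗ χ`, continued to an entire function. -/
def IsLFunctionK [IsPrincipalIdealRing (𝓞 K)] (a b n : 𝓞 K) (c : Ideal (𝓞 K) → ℂ) (χ : 𝓞 K → ℂ) (G : ℂ → ℂ) : Prop :=
  Differentiable ℂ G ∧ ∀ s : ℂ, 2 < s.re → HasProd (factor a b n c χ s) (G s)

open Classical in
/-- The Bianchi form with the Hecke eigenvalues `c` is the base change to `K` of the newform with the Fourier
coefficients `A` of level `N`: `c(v) = A(p)` if `N(v) = p`, and if `N(v) = p²` then `c(v) = A(p)² - 2p`, or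
`A(p)²` if `p ∣ N`. -/
def IsBaseChange (N : ℕ) (A : ℕ → ℂ) (c : Ideal (𝓞 K) → ℂ) : Prop :=
  ∀ p : ℕ, p.Prime → ∀ v : HeightOneSpectrum (𝓞 K), (p : 𝓞 K) ∈ v.asIdeal →
    (Ideal.absNorm v.asIdeal = p → c v.asIdeal = A p) ∧
    (Ideal.absNorm v.asIdeal = p ^ 2 → c v.asIdeal = A p ^ 2 - (if p ∣ N then 0 else 2 * (p : ℂ)))

variable (K) in
/-- The prime divisors of `2(4a³ + 27b²)` are unramified in `K`. -/
def Unramified (a b : ℤ) : Prop :=
  ∀ p : ℕ, p.Prime → (p : ℤ) ∣ 2 * (4 * a ^ 3 + 27 * b ^ 2) → ∀ v : HeightOneSpectrum (𝓞 K),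
    (p : 𝓞 K) ∈ v.asIdeal → (p : 𝓞 K) ∉ v.asIdeal ^ 2

section extension

variable (F : Type) [Field F] [NumberField F] [Algebra K F]

/-- The places `u` of `F` above `v`. -/
def Above (v : HeightOneSpectrum (𝓞 K)) : Type :=
  {u : HeightOneSpectrum (𝓞 F) // u.asIdeal.comap (algebraMap (𝓞 K) (𝓞 F)) = v.asIdeal}

/-- `F/K` is a finite Galois extension of `2`-power degree, unramified outside of the admissible places of `K`, and the
places `v ∣ 2(4a³ + 27b²)` split completely in `F` (there is an embedding of `F` in `K_v`). -/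
structure IsTwoExtension (a b : 𝓞 K) : Prop where
  galois : IsGalois K F
  degree : ∃ k : ℕ, Module.finrank K F = 2 ^ k
  split : ∀ v : HeightOneSpectrum (𝓞 K), 2 * (4 * a ^ 3 + 27 * b ^ 2) ∈ v.asIdeal →
    Nonempty (F →ₐ[K] v.adicCompletion K)
  unramified : ∀ v : HeightOneSpectrum (𝓞 K), 2 * (4 * a ^ 3 + 27 * b ^ 2) ∉ v.asIdeal →
    ¬ Admissible a b v → ∀ u : Above F v, ∀ x : K,
      u.1.valuation F (algebraMap K F x) = v.valuation K x

/-- The law of reciprocity for the character `ψ` of `Gal(F/K)` and the character `χ` of `K` of conductor `∏_{v ∈ T} v`: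
`ψ(t) = χ(v)` for all places `v ∉ T` of `K` and all Frobenius automorphisms `t ∈ Gal(F/K)` at places of `F` above `v`. -/
def Law [IsPrincipalIdealRing (𝓞 K)] (T : Finset (HeightOneSpectrum (𝓞 K))) (χ : 𝓞 K → ℂ)
    (ψ : (F ≃ₐ[K] F) →* ℂ) : Prop :=
  ∀ v : HeightOneSpectrum (𝓞 K), v ∉ T → ∀ (u : Above F v) (t : F ≃ₐ[K] F),
    (∀ x : 𝓞 F, t • x - x ^ Ideal.absNorm v.asIdeal ∈ u.1.asIdeal) →
    ψ t = χ (Submodule.IsPrincipal.generator v.asIdeal)

end extension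

section group

variable {𝒢 : Type} [CommGroup 𝒢]

/-- `𝒢` is a group of characters `χ_g` of `K` of exponent `2^e`, of conductors `∏_{v ∈ T_g} v` which are products of
different places, admissible for all the curves `E_i : y² = x³ + a_i x + b_i`: the product `χ_g χ_h` is the
primitive character `χ_(gh)`. -/
structure IsCharacterGroup {m : ℕ} (a b : Fin m → 𝓞 K) (e : ℕ)
    (T : 𝒢 → Finset (HeightOneSpectrum (𝓞 K))) (χ : 𝒢 → 𝓞 K → ℂ) : Prop where
  character : ∀ g, IsCharacter (T g) (χ g)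
  admissible : ∀ g, ∀ v ∈ T g, ∀ i, Admissible (a i) (b i) v
  injective : Function.Injective χ
  product : ∀ g h x, χ g x ≠ 0 → χ h x ≠ 0 → χ (g * h) x = χ g x * χ h x
  exponent : ∀ g : 𝒢, g ^ 2 ^ e = 1

/-- `γ` is the complex conjugation on `𝒢`: `χ_(γ g)(z) = χ_g(z')` for the conjugate `z'` of `z`. -/
def IsConjugation (σ : K →+* ℂ) (χ : 𝒢 → 𝓞 K → ℂ) (γ : 𝒢 →* 𝒢) : Prop :=
  ∀ g, ∀ z z' : 𝓞 K, σ z' = (starRingEnd ℂ) (σ z) → χ (γ g) z = χ g z'

/-- `F` is the class field of a group of characters `χ_g`, `g ∈ ℋ`: `Gal(F/K)` is abelian, and each of its characters `ψ` is,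
by the law of reciprocity, one of these characters `χ_g`. -/
structure IsClassField [IsPrincipalIdealRing (𝓞 K)] (F : Type) [Field F] [NumberField F]
    [Algebra K F] (T : 𝒢 → Finset (HeightOneSpectrum (𝓞 K))) (χ : 𝒢 → 𝓞 K → ℂ)
    (ℋ : Subgroup 𝒢) : Prop where
  abelian : ∀ s t : F ≃ₐ[K] F, s * t = t * s
  reciprocity : ∀ ψ : (F ≃ₐ[K] F) →* ℂ, ∃ g ∈ ℋ, Law F (T g) (χ g) ψ

end group

end field

/-- The number of the affine points of `y² = x³ + a x + b` over `𝔽_p`. -/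
noncomputable def pts (a b : ℤ) (p : ℕ) : ℕ :=
  Nat.card {x : ZMod p × ZMod p // x.2 ^ 2 = x.1 ^ 3 + (a : ZMod p) * x.1 + (b : ZMod p)}

/-- `A(p)` are the Fourier coefficients at the prime numbers of the newform of level `N` of the curve
`y² = x³ + a x + b` over `ℚ`: for `p ∤ 2(4a³ + 27b²)`, `p` does not divide `N` and `A(p) = p + 1 - #E(𝔽_p)`. -/
def IsNewformOfQ (a b : ℤ) (N : ℕ) (A : ℕ → ℂ) : Prop :=
  ∀ p : ℕ, p.Prime → ¬ (p : ℤ) ∣ 2 * (4 * a ^ 3 + 27 * b ^ 2) →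
    ¬ p ∣ N ∧ A p = (p : ℂ) - pts a b p

/-- The curve `E : y² = x³ + a x + b` over `ℚ`. -/
def curve (a b : ℤ) : WeierstrassCurve ℚ := ⟨0, 0, 0, a, b⟩

section rep

variable {F : Type} [Field F] [NumberField F]

/-- The Frobenius automorphisms at the place `v` of `F`: the automorphisms `σ` of `F` with
`σ x = x ^ p` modulo `v` for all the integers `x` of `F`, where `p` is the prime number below `v`.
They are a coset of the inertia group of `v`. -/
def FrobSet (v : HeightOneSpectrum (𝓞 F)) : Set (F ≃ₐ[ℚ] F) :=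
  {σ | IsArithFrobAt ℤ σ v.asIdeal}

/-- The Kronecker product of matrices, as a homomorphism of monoids. -/
noncomputable def kron : Matrix (Fin 2) (Fin 2) ℂ × Matrix (Fin 2) (Fin 2) ℂ →*
    Matrix (Fin 2 × Fin 2) (Fin 2 × Fin 2) ℂ where
  toFun A := A.1 ⊗ₖ A.2
  map_one' := Matrix.one_kronecker_one
  map_mul' A B := Matrix.mul_kronecker_mul A.1 B.1 A.2 B.2

/-- `ρ_g ⊗ ρ_h`, by the Kronecker products of matrices. -/
noncomputable def tensor (ρ ρ' : (F ≃ₐ[ℚ] F) →* GL (Fin 2) ℂ) :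
    (F ≃ₐ[ℚ] F) →* GL (Fin 2 × Fin 2) ℂ :=
  (Units.map kron).comp (MulEquiv.prodUnits.symm.toMonoidHom.comp (ρ.prod ρ'))

/-- `ρ` is irreducible: its matrices have no common eigenvector. -/
def Irreducible {G : Type} [Group G] (ρ : G →* GL (Fin 2) ℂ) : Prop :=
  ∀ x : Fin 2 → ℂ, x ≠ 0 →
    ¬ ∀ σ, ∃ l : ℂ, (ρ σ : Matrix (Fin 2) (Fin 2) ℂ).mulVec x = l • x

variable {κ : Type} [Fintype κ] [DecidableEq κ] (ρ : (F ≃ₐ[ℚ] F) →* GL κ ℂ)

/-- The action of the Frobenius automorphism at `v` on the vectors of `V = ℂ^κ` fixed by the inertia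
group of `v`, extended by zero: the average of the matrices `ρ(σ)` over all the Frobenius
automorphisms `σ` at `v`. -/
noncomputable def frob (v : HeightOneSpectrum (𝓞 F)) : Matrix κ κ ℂ :=
  (Nat.card (FrobSet v) : ℂ)⁻¹ • ∑ᶠ σ : FrobSet v, (ρ σ.1 : Matrix κ κ ℂ)

/-- The Euler factor of `L(V_f ⊗ V, s)` at the prime number `p`, where `v` is a place of `F` above `p`:
`det (1 - A(p) p^(-s) Φ + p^(1 - 2 s) Φ²)⁻¹` for `Φ = frob ρ v`, without the last term if `p ∣ N`.  (The fields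
`F` of the theorem are unramified at the `p ∣ N`.) -/
noncomputable def euler (A : ℕ → ℂ) (N : ℕ) (v : HeightOneSpectrum (𝓞 F)) (s : ℂ) (p : ℕ) : ℂ :=
  (1 - (A p * (p : ℂ) ^ (-s)) • frob ρ v +
    (if p ∣ N then 0 else (p : ℂ) ^ (1 - 2 * s)) • frob ρ v ^ 2).det⁻¹

/-- `L` is a meromorphic function on `ℂ`, and for `Re s > 2` it is `L(V_f ⊗ V, s)`, the product of the
Euler factors at all the prime numbers (for any choice of the places above them). -/
def IsLFunction (A : ℕ → ℂ) (N : ℕ) (L : ℂ → ℂ) : Prop :=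
  MeromorphicOn L Set.univ ∧
    ∀ V : Nat.Primes → HeightOneSpectrum (𝓞 F),
      (∀ p : Nat.Primes, ((p : ℕ) : 𝓞 F) ∈ (V p).asIdeal) → ∀ s : ℂ, 2 < s.re →
      HasProd (fun p : Nat.Primes => euler ρ A N (V p) s p) (L s)

variable (F) in
/-- The group `E(F)`. -/
abbrev Pts (a b : ℤ) : Type := ((curve a b).map (algebraMap ℚ F)).toAffine.Point

open Classical in
/-- The action of the automorphism `σ` on `E(F)`. -/
noncomputable def act (a b : ℤ) (σ : F ≃ₐ[ℚ] F) : Pts F a b →+ Pts F a b :=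
  Affine.Point.map (W' := (curve a b).toAffine) (σ : F →ₐ[ℚ] F)

end rep

/-- For a representation `ρ` of the group `G` on `V = ℂ^κ` and an action `α` of `G` on the abelian group
`A`: the linear map `φ : V → A ⊗ ℂ` commutes with `G`. -/
def IsHom {G κ A : Type} [Group G] [Fintype κ] [DecidableEq κ] [AddCommGroup A]
    (ρ : G →* GL κ ℂ) (α : G → A →+ A) (φ : (κ → ℂ) →ₗ[ℂ] (ℂ ⊗[ℤ] A)) : Prop :=
  ∀ (σ : G) (v : κ → ℂ),
    φ ((ρ σ : Matrix κ κ ℂ).mulVec v) = (α σ).toIntLinearMap.baseChange ℂ (φ v)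

section hom

variable {G κ A : Type} [Group G] [Fintype κ] [DecidableEq κ] [AddCommGroup A]
  (ρ : G →* GL κ ℂ) (α : G → A →+ A)

theorem IsHom.zero : IsHom ρ α 0 := fun σ v => by simp

variable {ρ α} in
theorem IsHom.add {φ ψ : (κ → ℂ) →ₗ[ℂ] (ℂ ⊗[ℤ] A)} (h : IsHom ρ α φ) (h' : IsHom ρ α ψ) :
    IsHom ρ α (φ + ψ) := fun σ v => by
  rw [LinearMap.add_apply, LinearMap.add_apply, h σ v, h' σ v, map_add]

variable {ρ α} in
theorem IsHom.smul (a : ℂ) {φ : (κ → ℂ) →ₗ[ℂ] (ℂ ⊗[ℤ] A)} (h : IsHom ρ α φ) :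
    IsHom ρ α (a • φ) := fun σ v => by
  rw [LinearMap.smul_apply, LinearMap.smul_apply, h σ v, map_smul]

/-- `Hom_G(V, A ⊗ ℂ)`, the space of the linear maps which commute with the action of `G`. -/
noncomputable def homs : Submodule ℂ ((κ → ℂ) →ₗ[ℂ] (ℂ ⊗[ℤ] A)) where
  carrier := {φ | IsHom ρ α φ}
  zero_mem' := IsHom.zero ρ α
  add_mem' := IsHom.add
  smul_mem' := IsHom.smul

/-- The dimension of `Hom_G(V, A ⊗ ℂ)`. -/
noncomputable def dimHom : ℕ := Module.finrank ℂ (homs ρ α)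

theorem homs_zero [Finite A] : homs ρ α = ⊥ := by
  have h1 : ∀ x : ℂ ⊗[ℤ] A, x = 0 := by
    intro x
    induction x using TensorProduct.induction_on with
    | zero => rfl
    | tmul a P =>
      have hN : (Nat.card A : ℂ) ≠ 0 := by
        have : 0 < Nat.card A := Nat.card_pos
        exact_mod_cast this.ne'
      have h2 : Nat.card A • P = 0 := card_nsmul_eq_zero'
      have h3 : a = (Nat.card A : ℤ) • (a * (Nat.card A : ℂ)⁻¹) := by
        rw [zsmul_eq_mul]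
        push_cast
        field_simp
      rw [h3, TensorProduct.smul_tmul, natCast_zsmul, h2, TensorProduct.tmul_zero]
    | add x y hx hy => rw [hx, hy, add_zero]
  rw [eq_bot_iff]
  intro φ _
  rw [Submodule.mem_bot]
  exact LinearMap.ext fun v => h1 _

theorem dimHom_zero [Finite A] : dimHom ρ α = 0 := by
  unfold dimHom
  rw [homs_zero]
  exact finrank_bot ℂ _

end hom

section pairs

variable (F : Type) [Field F] [NumberField F]

/-- `L(f ⊗ g ⊗ h, s)` has a meromorphic continuation to `ℂ` which is analytic and not zero at `s = 1`. -/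
def NonVanishing (N : ℕ) (A : ℕ → ℂ) (ρg ρh : (F ≃ₐ[ℚ] F) →* GL (Fin 2) ℂ) : Prop :=
  ∃ L : ℂ → ℂ, IsLFunction (tensor ρg ρh) A N L ∧ AnalyticAt ℂ L 1 ∧ L 1 ≠ 0

open Classical in
/-- Beilinson's equality for `(f, g, h)`, with both sides zero: `L(f ⊗ g ⊗ h, s)` has a meromorphic continuation
that is analytic at `s = 1`, and its order there is `dim Hom(V_gh, E(F) ⊗ ℂ)` and zero. -/
def Equality (a b : ℤ) (N : ℕ) (A : ℕ → ℂ) (ρg ρh : (F ≃ₐ[ℚ] F) →* GL (Fin 2) ℂ) : Prop :=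
  ∃ L : ℂ → ℂ, IsLFunction (tensor ρg ρh) A N L ∧ AnalyticAt ℂ L 1 ∧
    analyticOrderAt L 1 = dimHom (tensor ρg ρh) (act (F := F) a b) ∧ analyticOrderAt L 1 = 0

variable {F} in
theorem Equality.of {a b : ℤ} {N : ℕ} {A : ℕ → ℂ} {ρg ρh : (F ≃ₐ[ℚ] F) →* GL (Fin 2) ℂ}
    (hfin : Finite (Pts F a b)) (h : NonVanishing F N A ρg ρh) : Equality F a b N A ρg ρh := by
  classical
  obtain ⟨L, h1, h2, h3⟩ := h
  have h7 := dimHom_zero (A := Pts F a b) (tensor ρg ρh) (act (F := F) a b)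
  have h8 : analyticOrderAt L 1 = 0 := analyticOrderAt_eq_zero.2 (Or.inr h3)
  refine ⟨L, h1, h2, ?_, h8⟩
  rw [h8, h7]
  rfl

end pairs

section properties

variable {K : Type} [Field K] [NumberField K] [IsPrincipalIdealRing (𝓞 K)] {𝒢 : Type} [CommGroup 𝒢]

/-- `ρ` is the representation of the theta series (a cusp form) of the character `χ_x`: it is irreducible, and its
restriction to `Gal(F/K)` contains the character `ψ` which corresponds to `χ_x` by the law of reciprocity. -/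
def IsTheta {F : Type} [Field F] [NumberField F] [Algebra K F]
    (T : 𝒢 → Finset (HeightOneSpectrum (𝓞 K))) (χ : 𝒢 → 𝓞 K → ℂ)
    (ρ : (F ≃ₐ[ℚ] F) →* GL (Fin 2) ℂ) (x : 𝒢) : Prop :=
  Irreducible ρ ∧ ∃ (ψ : (F ≃ₐ[K] F) →* ℂ) (w : Fin 2 → ℂ), w ≠ 0 ∧
    (∀ t : F ≃ₐ[K] F, (ρ (t.restrictScalars ℚ) : Matrix (Fin 2) (Fin 2) ℂ).mulVec w = ψ t • w) ∧
    Law F (T x) (χ x) ψ

/-- The property of the pair of the characters `χ_x`, `χ_y`: for all Galois extensions `F ⊇ K` of `ℚ` which are class fields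
of characters in `𝒢`, and all representations `ρ_g`, `ρ_h` of `Gal(F/ℚ)` of theta series of `χ_x` and `χ_y`,
`L(f ⊗ g ⊗ h, s)` has a meromorphic continuation which is analytic and not zero at `s = 1`; and if the places
`v ∣ 2(4a³ + 27b²)` of `K` split completely in `F`, then `E(F)` is finite and Beilinson's equality holds, with both sides
zero. -/
def ThetaPair (a b : ℤ) (N : ℕ) (A : ℕ → ℂ) (T : 𝒢 → Finset (HeightOneSpectrum (𝓞 K)))
    (χ : 𝒢 → 𝓞 K → ℂ) (x y : 𝒢) : Prop :=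
  ∀ (F : Type) [Field F] [NumberField F] [Algebra K F] [IsGalois ℚ F], IsClassField F T χ ⊤ →
    ∀ ρg ρh : (F ≃ₐ[ℚ] F) →* GL (Fin 2) ℂ, IsTheta T χ ρg x → IsTheta T χ ρh y →
    NonVanishing F N A ρg ρh ∧ (IsTwoExtension F (a : 𝓞 K) (b : 𝓞 K) →
      Finite (Pts F a b) ∧ Equality F a b N A ρg ρh)

/-- The property of the subgroup `ℋ`: for all Galois extensions `F ⊇ K` of `ℚ` which are class fields of characters in
`ℋ`, and all pairs of two-dimensional representations `ρ_g`, `ρ_h` of `Gal(F/ℚ)`, one of which is irreducible,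
`L(f ⊗ g ⊗ h, s)` has a meromorphic continuation which is analytic and not zero at `s = 1`; and if the places
`v ∣ 2(4a³ + 27b²)` of `K` split completely in `F`, then `E(F)` is finite and Beilinson's equality holds, with both sides
zero. -/
def AllPairs (a b : ℤ) (N : ℕ) (A : ℕ → ℂ) (T : 𝒢 → Finset (HeightOneSpectrum (𝓞 K)))
    (χ : 𝒢 → 𝓞 K → ℂ) (ℋ : Subgroup 𝒢) : Prop :=
  ∀ (F : Type) [Field F] [NumberField F] [Algebra K F] [IsGalois ℚ F], IsClassField F T χ ℋ →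
    ∀ ρg ρh : (F ≃ₐ[ℚ] F) →* GL (Fin 2) ℂ, Irreducible ρg ∨ Irreducible ρh →
    NonVanishing F N A ρg ρh ∧ (IsTwoExtension F (a : 𝓞 K) (b : 𝓞 K) →
      Finite (Pts F a b) ∧ Equality F a b N A ρg ρh)

end properties

open Classical in
/-- Let `K` be an imaginary quadratic field of class number one, `E_i : y² = x³ + a_i x + b_i`, `i = 1, …, m`, elliptic
curves over `ℚ` with the newforms `f_i` of level `N_i`, and suppose that the prime divisors of `2(4a_i³ + 27b_i²)` are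
unramified in `K`, `E_i(K)[2] = 0`, the `2`-Selmer groups of the `E_i/K` are trivial, and `L(E_i/K, 1) ≠ 0`.
For all `e` and `d` there is a function `B` with the following properties.  Let `𝒢` be a group, finite or infinite, of
characters of `K` of exponent `2^e` whose conductors are products of different admissible places, and let `Δ` be a group of
at most `d` automorphisms of `𝒢`.
(1) For every sequence `g_0, g_1, …` in `𝒢` there are nonempty sets `S_k ⊆ [B(k), B(k + 1))` such that the products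
`∏_{j ∈ S_k} g_j` are in a `Δ`-stable subgroup `ℋ` of `𝒢` with the property `AllPairs` for all the `E_i`.
(2) If `𝒢` is infinite it has an infinite `Δ`-stable subgroup `ℋ` with this property.
(3) If `𝒢` has more than `2^(e B(t))` elements it has a `Δ`-stable subgroup `ℋ` of at least `t` elements with this
property.
(4) If `𝒢` is stable under complex conjugation, then there is a set of at most `2^B(1)` pairs `(k, k')` in `𝒢 × 𝒢` such that
for every pair `(g, g')` one of the pairs `(g k, g' k')` has the property `ThetaPair` for all the `E_i`. -/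
theorem result (K : Type) [Field K] [NumberField K] [IsPrincipalIdealRing (𝓞 K)] (σ : K →+* ℂ)
    (δ : K) (hK : IsFieldData K σ δ) {m : ℕ} (a b : Fin m → ℤ)
    (hΔ : ∀ i, 4 * a i ^ 3 + 27 * b i ^ 2 ≠ 0) (N : Fin m → ℕ) (A : Fin m → ℕ → ℂ)
    (hA : ∀ i, IsNewformOfQ (a i) (b i) (N i) (A i)) (hur : ∀ i, Unramified K (a i) (b i))
    (c : Fin m → Ideal (𝓞 K) → ℂ) (hf : ∀ i, IsNewform σ δ (N i : 𝓞 K) (c i))
    (hE : ∀ i, IsNewformOf (a i : 𝓞 K) (b i : 𝓞 K) (N i : 𝓞 K) (c i))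
    (hbc : ∀ i, IsBaseChange (N i) (A i) (c i))
    (hL : ∀ i, ∃ G : ℂ → ℂ, IsLFunctionK (a i : 𝓞 K) (b i : 𝓞 K) (N i : 𝓞 K) (c i) (fun _ => 1) G ∧
      G 1 ≠ 0)
    (L : Fin m → Type) [∀ i, Field (L i)] [∀ i, NumberField (L i)] [∀ i, Algebra K (L i)]
    (θ : ∀ i, L i) (hθ : ∀ i, IsCubicField (a i : 𝓞 K) (b i : 𝓞 K) (θ i))
    (hS : ∀ i, TrivialSelmer (a i : 𝓞 K) (b i : 𝓞 K) (θ i)) (e d : ℕ) :
    ∃ B : ℕ → ℕ, ∀ (𝒢 : Type) [CommGroup 𝒢] (T : 𝒢 → Finset (HeightOneSpectrum (𝓞 K)))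
      (χ : 𝒢 → 𝓞 K → ℂ),
      IsCharacterGroup (fun i => (a i : 𝓞 K)) (fun i => (b i : 𝓞 K)) e T χ →
      (∀ Δ : Subgroup (MulAut 𝒢), Finite Δ → Nat.card Δ ≤ d →
        (∀ g : ℕ → 𝒢, ∃ S : ℕ → Finset ℕ,
          (∀ k, (S k).Nonempty ∧ ∀ j ∈ S k, B k ≤ j ∧ j < B (k + 1)) ∧
          ∃ ℋ : Subgroup 𝒢, (∀ k, ∏ j ∈ S k, g j ∈ ℋ) ∧ (∀ s ∈ Δ, ∀ x ∈ ℋ, s x ∈ ℋ) ∧
            ∀ i, AllPairs (a i) (b i) (N i) (A i) T χ ℋ) ∧
        (Infinite 𝒢 → ∃ ℋ : Subgroup 𝒢, Infinite ℋ ∧ (∀ s ∈ Δ, ∀ x ∈ ℋ, s x ∈ ℋ) ∧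
          ∀ i, AllPairs (a i) (b i) (N i) (A i) T χ ℋ) ∧
        (∀ t : ℕ, 2 ^ (e * B t) < Nat.card 𝒢 → ∃ ℋ : Subgroup 𝒢, t ≤ Nat.card ℋ ∧
          (∀ s ∈ Δ, ∀ x ∈ ℋ, s x ∈ ℋ) ∧ ∀ i, AllPairs (a i) (b i) (N i) (A i) T χ ℋ)) ∧
      ∀ γ : 𝒢 →* 𝒢, IsConjugation σ χ γ →
        ∃ 𝒦 : Finset (𝒢 × 𝒢), 𝒦.card ≤ 2 ^ B 1 ∧ ∀ g g' : 𝒢, ∃ k ∈ 𝒦, ∀ i,
          ThetaPair (a i) (b i) (N i) (A i) T χ (g * k.1) (g' * k.2) := by
  classical
  have h : K4H55.BI.IQ K σ δ := ⟨hK.quadratic, hK.imaginary, inferInstance, hK.different⟩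
  have hf' : ∀ i, K4H55.BI.BF σ δ (N i : 𝓞 K) (c i) := fun i => ⟨(hf i).level, (hf i).zero,
    (hf i).one, (hf i).bound, (hf i).good, (hf i).bad, (hf i).invariant, (hf i).fricke⟩
  have hcub : ∀ i, K4H55.BD.Cub K (θ i) := by
    intro i
    refine ⟨fun p q r h0 => ?_, fun β => ?_⟩
    · obtain ⟨t, ht, hu⟩ := (hθ i).basis 0
      have h1 := hu (p, q, r) h0.symm
      have h2 := hu (0, 0, 0) (by simp)
      have h3 := h1.trans h2.symm
      simp only [Prod.mk.injEq] at h3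
      exact h3
    · obtain ⟨t, ht, -⟩ := (hθ i).basis β
      exact ⟨t.1, t.2.1, t.2.2, ht⟩
  have hΔ' : ∀ i, 4 * (a i : 𝓞 K) ^ 3 + 27 * (b i : 𝓞 K) ^ 2 ≠ 0 := fun i => by
    exact_mod_cast hΔ i
  have hm : ∀ i, 2 * (4 * (a i : 𝓞 K) ^ 3 + 27 * (b i : 𝓞 K) ^ 2) =
      ((2 * (4 * a i ^ 3 + 27 * b i ^ 2) : ℤ) : 𝓞 K) := fun i => by push_cast; rfl
  have hcoeff : ∀ i, ∀ v : HeightOneSpectrum (𝓞 K),
      coeff (a i : 𝓞 K) (b i : 𝓞 K) (c i) v = c i v.asIdeal := by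
    intro i v
    unfold coeff
    split_ifs with h1
    · rfl
    · exact (hE i v h1).2.symm
  have hadm : ∀ i, ∀ v, Admissible (a i : 𝓞 K) (b i : 𝓞 K) v → H92.Ad (N i : 𝓞 K) (c i) v := by
    intro i v hv
    have h2 : (2 : 𝓞 K) ∉ v.asIdeal := fun h2 => hv.1 (v.asIdeal.mul_mem_right _ h2)
    refine ⟨h2, (hE i v hv.1).1,
      (Ideal.absNorm v.asIdeal : ℤ) - points (a i : 𝓞 K) (b i : 𝓞 K) v, ?_, ?_⟩
    · rw [(hE i v hv.1).2]
      push_cast
      ring
    · obtain ⟨k, hk⟩ := K4H55.BD.pv_even (a := (a i : 𝓞 K)) (b := (b i : 𝓞 K)) h2 hv.2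
      have hk' : points (a i : 𝓞 K) (b i : 𝓞 K) v = 2 * k := hk
      have h6 := K4H55.BM.norm_odd h2
      rw [Nat.odd_iff] at h6
      omega
  have hfac : ∀ i, ∀ (χ : 𝓞 K → ℂ) (s : ℂ),
      factor (a i : 𝓞 K) (b i : 𝓞 K) (N i : 𝓞 K) (c i) χ s =
        K4H55.CX.efx (N i : 𝓞 K) (c i) χ s := by
    intro i χ s
    funext v
    unfold factor K4H55.CX.efx
    rw [hcoeff]
    rfl
  have hch : ∀ (T : Finset (HeightOneSpectrum (𝓞 K))) (χ : 𝓞 K → ℂ), IsCharacter T χ →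
      K4H55.CX.CH T χ := fun T χ h1 =>
    ⟨h1.one, h1.mul, h1.zero, h1.periodic, h1.units, h1.primitive, h1.order⟩
  have hz0 : ∀ i, K4H55.BI.fv (K4H55.BI.ordK h) (fun x => c i (Ideal.span {x})) 0 ≠ 0 := by
    intro i
    obtain ⟨G, ⟨g1, g2⟩, g3⟩ := hL i
    exact H92.fv_ne h (hf' i) g1 (fun s hs => by rw [← hfac]; exact g2 s hs) g3
  have hur' : ∀ i, ∀ w : HeightOneSpectrum (𝓞 K),
      2 * (4 * (a i : 𝓞 K) ^ 3 + 27 * (b i : 𝓞 K) ^ 2) ∈ w.asIdeal →
      ∀ p : ℕ, p.Prime → (p : 𝓞 K) ∈ w.asIdeal → (p : 𝓞 K) ∉ w.asIdeal ^ 2 := by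
    intro i w hw p hp hpw
    rw [hm] at hw
    exact hur i p hp ((K4H55.BD.int_mem hp hpw).1 hw) w hpw
  have hA' : ∀ i, ∀ p : ℕ, p.Prime → ¬ (p : ℤ) ∣ 2 * (4 * a i ^ 3 + 27 * b i ^ 2) →
      ¬ p ∣ N i ∧ ∃ k : ℕ, k ≤ 2 * p ∧ A i p = p - k := by
    intro i p hp hpm
    obtain ⟨h7, h8⟩ := hA i p hp hpm
    have : Fact p.Prime := ⟨hp⟩
    refine ⟨h7, pts (a i) (b i) p, ?_, h8⟩
    have h9 := K4H15.BZ.card_pts (R := ZMod p) (a i : ZMod p) (b i : ZMod p)
    rwa [Nat.card_zmod] at h9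
  -- the points
  have hfin : ∀ i (F : Type) [Field F] [NumberField F] [Algebra K F],
      IsTwoExtension F (a i : 𝓞 K) (b i : 𝓞 K) → Finite (Pts F (a i) (b i)) := by
    intro i F _ _ _ hF
    have hG := hF.galois
    obtain ⟨k, hk⟩ := hF.degree
    obtain ⟨h1, -, -⟩ := K4H55.CX.fin_up (F := F) (hΔ' i) (hcub i) (hθ i).root (hS i) hk hF.split
      (fun u hu => by
        by_cases h3 : ∀ X : 𝓞 K, X ^ 3 + (a i : 𝓞 K) * X + (b i : 𝓞 K) ∉
            (K4H55.BD.low (K := K) u).asIdeal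
        · exact Or.inl h3
        · exact Or.inr fun x => hF.unramified _ hu (fun h4 => h3 h4.2) ⟨u, rfl⟩ x)
    have e : (curve (a i) (b i)).map (algebraMap ℚ F) =
        K4H55.BD.crv (algebraMap K F ((a i : 𝓞 K) : K)) (algebraMap K F ((b i : 𝓞 K) : K)) := by
      unfold curve K4H55.BD.crv WeierstrassCurve.map
      simp
    unfold Pts
    rw [e]
    exact h1.1
  obtain ⟨B, hB⟩ := H92.ramP_all (b := e) (d := d + 2) (fun i => H92.Ad (N i : 𝓞 K) (c i))
    (fun i T χ => H92.val h (c i) T (K4H55.CX.br χ) ≠ 0)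
    (fun i => H92.bia_tower h (hf' i) (hz0 i) e (d + 2))
  refine ⟨fun k => B k, fun 𝒢 _ T χ hχ => ?_⟩
  have hCG : H92.CG T χ := ⟨fun g => hch _ _ (hχ.character g), hχ.product⟩
  -- the values
  have hnv : ∀ x : 𝒢, ∀ i, H92.val h (c i) (T x) (K4H55.CX.br (χ x)) ≠ 0 →
      ∃ G : ℂ → ℂ, Differentiable ℂ G ∧
        (∀ s : ℂ, 2 < s.re → HasProd (K4H55.CX.efx (N i : 𝓞 K) (c i) (χ x) s) (G s)) ∧ G 1 ≠ 0 :=
    fun x i hx => H92.chr_ne h (hf' i) (hCG.ch x) (fun v hv => hadm i v (hχ.admissible x v hv i)) hx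
  have hlaw : ∀ (F : Type) [Field F] [NumberField F] [Algebra K F] (g : 𝒢)
      (ψ : (F ≃ₐ[K] F) →* ℂ), Law F (T g) (χ g) ψ →
      ∀ v : HeightOneSpectrum (𝓞 F), K4H55.BD.low (K := K) v ∉ T g → ∀ t : F ≃ₐ[K] F,
        (∀ x : 𝓞 F, t • x - x ^ Ideal.absNorm (K4H55.BD.low (K := K) v).asIdeal ∈ v.asIdeal) →
        ψ t = χ g (K4H55.BI.gen (K4H55.BD.low (K := K) v)) :=
    fun F _ _ _ g ψ h3 u hu t ht => h3 _ hu ⟨u, rfl⟩ t ht
  have hρ0 : ∀ (F : Type) [Field F] [NumberField F] (ρg ρh : (F ≃ₐ[ℚ] F) →* GL (Fin 2) ℂ),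
      ∀ s α, (1 - α • K4H15.BT.cM (tensor ρg ρh s)).det =
      K4H15.BZ.kp (K4H15.BT.cM (ρg s)).trace (K4H15.BT.cM (ρg s)).det
        (K4H15.BT.cM (ρh s)).trace (K4H15.BT.cM (ρh s)).det α := fun F _ _ ρg ρh s α =>
    K4H15.BZ.kron_det (K4H15.BT.cM (ρg s)) (K4H15.BT.cM (ρh s)) α
  -- the property of the subgroups
  have hAP : ∀ ℋ : Subgroup 𝒢,
      (∀ x ∈ ℋ, ∀ i, H92.val h (c i) (T x) (K4H55.CX.br (χ x)) ≠ 0) →
      ∀ i, AllPairs (a i) (b i) (N i) (A i) T χ ℋ := by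
    intro ℋ hℋ i F _ _ _ _ hcl ρg ρh hirr
    suffices hNV : NonVanishing F (N i) (A i) ρg ρh from
      ⟨hNV, fun hF => ⟨hfin i F hF, Equality.of (hfin i F hF) hNV⟩⟩
    have hgK : IsGalois K F := IsGalois.tower_top_of_isGalois ℚ K F
    have hor : ∃ ρ1 ρ2 : (F ≃ₐ[ℚ] F) →* GL (Fin 2) ℂ, K4H15.BZ.Irr ρ1 ∧
        ∀ s α, (1 - α • K4H15.BT.cM (tensor ρg ρh s)).det =
        K4H15.BZ.kp (K4H15.BT.cM (ρ1 s)).trace (K4H15.BT.cM (ρ1 s)).det
          (K4H15.BT.cM (ρ2 s)).trace (K4H15.BT.cM (ρ2 s)).det α := by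
      rcases hirr with h7 | h7
      · exact ⟨ρg, ρh, h7, hρ0 F ρg ρh⟩
      · exact ⟨ρh, ρg, h7, fun s α => by rw [hρ0, K4H15.BZ.kp_swap]⟩
    obtain ⟨ρ1, ρ2, hirr1, hρ1⟩ := hor
    choose gg hgg hgl using hcl.reciprocity
    obtain ⟨b1, χ1, hb1⟩ := K4H15.BZ.exists_eig' hcl.abelian (ρ1.comp (R431.B.inc K F))
    obtain ⟨b2, χ2, hb2⟩ := K4H15.BZ.exists_eig' hcl.abelian (ρ2.comp (R431.B.inc K F))
    obtain ⟨l, l1, l2, l3, l4⟩ := H92.an_mainQ (ρg := ρ1) (ρh := ρ2) h hcl.abelian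
      (P := fun v => ∀ i, Admissible (a i : 𝓞 K) (b i : 𝓞 K) v) (fun v hv => (hv i).1)
      (fun ψ => ⟨T (gg ψ), χ (gg ψ), hCG.ch _, hχ.admissible _, hlaw F _ ψ (hgl ψ)⟩)
      hb1 hb2 (T' := fun j => T (gg (χ1 0 * χ2 j))) (X' := fun j => χ (gg (χ1 0 * χ2 j)))
      (fun j => hCG.ch _) (T'' := T (gg (χ1 0 * χ2 0)) ∪ T (gg (χ1 0 * χ2 1)))
      (fun v hv => by
        rcases Finset.mem_union.1 hv with h8 | h8
        · exact hχ.admissible _ v h8
        · exact hχ.admissible _ v h8)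
      (fun j v hv t ht => by
        rw [Finset.mem_union, not_or] at hv
        refine hlaw F _ _ (hgl (χ1 0 * χ2 j)) v ?_ t ht
        fin_cases j
        · exact hv.1
        · exact hv.2)
      (fun j => hnv _ i (hℋ _ (hgg _) i)) (hm i) (hE i) (hur' i) rfl (hA' i)
      (fun p hp w hw => (hbc i p hp w hw).1) (fun p hp w hw => (hbc i p hp w hw).2)
      (fun s hs => K4H15.BY.trace_irr' h hcl.abelian hirr1 s hs) hρ1
    exact ⟨l, ⟨l1, fun V hV s hs => l2 V hV s hs⟩, l3, l4⟩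
  have hτσ : ∀ z : 𝓞 K, σ (K4H55.BD.tau h z : 𝓞 K) = (starRingEnd ℂ) (σ z) := fun z =>
    K4H55.BD.sg_tau h z
  -- the property of the pairs
  have hTP : ∀ γ : 𝒢 →* 𝒢, IsConjugation σ χ γ → ∀ x y : 𝒢, ∀ i,
      H92.val h (c i) (T (x * y)) (K4H55.CX.br (χ (x * y))) ≠ 0 →
      H92.val h (c i) (T (x * γ y)) (K4H55.CX.br (χ (x * γ y))) ≠ 0 →
      ThetaPair (a i) (b i) (N i) (A i) T χ x y := by
    intro γ hγ x y i h1 h2 F _ _ _ _ hcl ρg ρh hg hh
    suffices hNV : NonVanishing F (N i) (A i) ρg ρh from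
      ⟨hNV, fun hF => ⟨hfin i F hF, Equality.of (hfin i F hF) hNV⟩⟩
    have hgK : IsGalois K F := IsGalois.tower_top_of_isGalois ℚ K F
    choose gg hgg hgl using hcl.reciprocity
    have hth : ∀ (ρ : (F ≃ₐ[ℚ] F) →* GL (Fin 2) ℂ) (x : 𝒢), IsTheta T χ ρ x →
        H92.Th K T χ ρ x := by
      rintro ρ x ⟨h3, ψ, w, hw, h4, h5⟩
      exact ⟨h3, ψ, w, hw, h4, hlaw F x ψ h5⟩
    obtain ⟨l, l1, l2, l3, l4⟩ := H92.pair_main (ρg := ρg) (ρh := ρh) h hcl.abelian
      (P := fun v => ∀ i, Admissible (a i : 𝓞 K) (b i : 𝓞 K) v) (fun v hv => (hv i).1)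
      (fun ψ => ⟨T (gg ψ), χ (gg ψ), hCG.ch _, hχ.admissible _, hlaw F _ ψ (hgl ψ)⟩)
      hCG hχ.admissible (γ := γ) (fun x z => hγ x z _ (hτσ z)) (hth ρg x hg) (hth ρh y hh)
      (fun z hz => by
        rcases hz with hz | hz
        · rw [hz]; exact hnv _ i h1
        · rw [Set.mem_singleton_iff.1 hz]; exact hnv _ i h2)
      (hm i) (hE i) (hur' i) rfl (hA' i)
      (fun p hp w hw => (hbc i p hp w hw).1) (fun p hp w hw => (hbc i p hp w hw).2)
      (hρ0 F ρg ρh)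
    exact ⟨l, ⟨l1, fun V hV s hs => l2 V hV s hs⟩, l3, l4⟩
  refine ⟨fun Δ hΔf hΔd => ?_, fun γ hγ => ?_⟩
  · -- the automorphisms
    obtain ⟨τ, i0, hτ0, hτΔ⟩ : ∃ (τ : Fin (d + 2) → 𝒢 →* 𝒢) (i0 : Fin (d + 2)),
        (∀ x, τ i0 x = x) ∧ ∀ s ∈ Δ, ∀ i, ∃ j, ∀ x, (s : 𝒢 ≃* 𝒢) (τ i x) = τ j x := by
      have : Fintype Δ := Fintype.ofFinite Δ
      have hpos : 0 < Nat.card Δ := Nat.card_pos
      obtain ⟨f, hf⟩ : ∃ f : Fin (d + 2) → Δ, Function.Surjective f := by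
        have e1 : Δ ≃ Fin (Nat.card Δ) := Finite.equivFin Δ
        refine ⟨fun i => if hi : (i : ℕ) < Nat.card Δ then e1.symm ⟨i, hi⟩ else 1, fun s => ?_⟩
        refine ⟨⟨(e1 s : ℕ), lt_of_lt_of_le (e1 s).2 (by omega)⟩, ?_⟩
        beta_reduce
        rw [dif_pos (e1 s).2]
        exact e1.symm_apply_apply s
      obtain ⟨i0, hi0⟩ := hf 1
      refine ⟨fun i => ((f i : MulAut 𝒢) : 𝒢 ≃* 𝒢).toMonoidHom, i0, fun x => ?_, fun s hs i => ?_⟩
      · show (f i0 : MulAut 𝒢) x = x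
        rw [hi0]
        rfl
      · obtain ⟨j, hj⟩ := hf (⟨s, hs⟩ * f i)
        refine ⟨j, fun x => ?_⟩
        show s ((f i : MulAut 𝒢) x) = (f j : MulAut 𝒢) x
        rw [hj]
        rfl
    have hmain : ∀ g : ℕ → 𝒢, ∃ S : ℕ → Finset ℕ,
        (∀ k, (S k).Nonempty ∧ S k ⊆ Finset.Ico (B k) (B (k + 1))) ∧
        ∃ ℋ : Subgroup 𝒢, Subgroup.closure (Set.range fun k => ∏ j ∈ S k, g j) ≤ ℋ ∧
          (∀ s ∈ Δ, ∀ x ∈ ℋ, s x ∈ ℋ) ∧
          ∀ x ∈ ℋ, ∀ i, H92.val h (c i) (T x) (K4H55.CX.br (χ x)) ≠ 0 := by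
      intro g
      obtain ⟨S, hS1, hS2⟩ := hB 𝒢 T χ hCG hχ.exponent
        (fun g v hv i => hadm i v (hχ.admissible g v hv i)) τ g
      exact ⟨S, hS1, H92.clo τ g S, H92.clo_le τ g S i0 hτ0,
        fun s hs x hx => H92.clo_stable τ g S s.toMonoidHom (hτΔ s hs) hx, hS2⟩
    obtain ⟨φ, hφ1, hφ2⟩ := Pool.Agent.Y683.CG.sub_exists (e := 2 ^ e) (by positivity) B
      (⊤ : Subgroup 𝒢) (fun g _ => hχ.exponent g)
    obtain ⟨S, hS1, ℋ, hS2, hS3, hS4⟩ := hmain φ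
    obtain ⟨-, h4, h5⟩ := hφ2 S hS1
    refine ⟨fun g => ?_, fun hinf => ⟨ℋ, ?_, hS3, hAP ℋ hS4⟩, fun t ht => ⟨ℋ, ?_, hS3, hAP ℋ hS4⟩⟩
    · obtain ⟨S, hS1, ℋ, hS2, hS3, hS4⟩ := hmain g
      refine ⟨S, fun k => ⟨(hS1 k).1, fun j hj => Finset.mem_Ico.1 ((hS1 k).2 hj)⟩, ℋ,
        fun k => hS2 (Subgroup.subset_closure ⟨k, rfl⟩), hS3, hAP ℋ hS4⟩
    · have h6 := h4 (by
        have e1 := (Subgroup.topEquiv (G := 𝒢)).toEquiv
        exact e1.infinite_iff.2 hinf)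
      exact Infinite.of_injective _ (Subgroup.inclusion_injective hS2)
    · have h7 : 0 < Nat.card 𝒢 := lt_of_le_of_lt (Nat.zero_le _) ht
      have hfin : Finite 𝒢 := Nat.finite_of_card_ne_zero h7.ne'
      refine (h5 t ?_).trans (Nat.card_le_card_of_injective _ (Subgroup.inclusion_injective hS2))
      rw [Subgroup.card_top, ← pow_mul]
      exact ht
  · -- the pairs
    let T2 : 𝒢 × 𝒢 → Finset (HeightOneSpectrum (𝓞 K)) := fun x => T (x.1 * x.2)
    let χ2 : 𝒢 × 𝒢 → 𝓞 K → ℂ := fun x => χ (x.1 * x.2)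
    have hCG2 : H92.CG T2 χ2 := by
      refine ⟨fun g => hCG.ch _, fun g g' x h1 h2 => ?_⟩
      show χ (g.1 * g'.1 * (g.2 * g'.2)) x = _
      rw [mul_mul_mul_comm]
      exact hCG.mul _ _ x h1 h2
    let τ : Fin (d + 2) → 𝒢 × 𝒢 →* 𝒢 × 𝒢 := fun j =>
      if j = 0 then MonoidHom.id _ else
        (MonoidHom.fst 𝒢 𝒢).prod (γ.comp (MonoidHom.snd 𝒢 𝒢))
    have hτ0 : τ 0 = MonoidHom.id _ := if_pos rfl
    have hτ1 : τ 1 = (MonoidHom.fst 𝒢 𝒢).prod (γ.comp (MonoidHom.snd 𝒢 𝒢)) :=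
      if_neg (by simp)
    obtain ⟨𝒦, hK1, hK2⟩ := H92.syndetic (fun x : 𝒢 × 𝒢 =>
      ∀ i, H92.val h (c i) (T (x.1 * x.2)) (K4H55.CX.br (χ (x.1 * x.2))) ≠ 0 ∧
        H92.val h (c i) (T (x.1 * γ x.2)) (K4H55.CX.br (χ (x.1 * γ x.2))) ≠ 0) (B 1) (fun g => by
        obtain ⟨S, hS1, hS2⟩ := hB (𝒢 × 𝒢) T2 χ2 hCG2
          (fun g => Prod.ext (hχ.exponent g.1) (hχ.exponent g.2))
          (fun g v hv i => hadm i v (hχ.admissible _ v hv i)) τ g
        refine ⟨S 0, (hS1 0).1, fun j hj => ?_, fun i => ⟨?_, ?_⟩⟩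
        · exact Finset.mem_range.2 (Finset.mem_Ico.1 ((hS1 0).2 hj)).2
        · have h3 := hS2 (τ 0 (∏ j ∈ S 0, g j)) (Subgroup.subset_closure ⟨0, 0, rfl⟩) i
          rw [hτ0] at h3
          exact h3
        · have h3 := hS2 (τ 1 (∏ j ∈ S 0, g j)) (Subgroup.subset_closure ⟨1, 0, rfl⟩) i
          rw [hτ1] at h3
          exact h3)
    refine ⟨𝒦, hK1, fun g g' => ?_⟩
    obtain ⟨k, hk, hk2⟩ := hK2 (g, g')
    exact ⟨k, hk, fun i => hTP γ hγ _ _ i (hk2 i).1 (hk2 i).2⟩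

end Pool.Agent.Results.MP_60ff09_nt.ThetaPairsProportion
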